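import Pool.Agent.Work.MP_655153_lb.Interface

/-!
# Block ARC: from arcs to segments
-/

open MeasureTheory Set
open scoped ENNReal

namespace Pool.Agent.Work.MP_655153_lb

open Pool.Agent.Work.MP_655153_co

/-- the line `pr θ z = x` as an affine subspace -/
noncomputable def lineAS (θ x : ℝ) : AffineSubspace ℝ ℂ :=
  AffineSubspace.mk' (⟨x * Real.cos θ, x * Real.sin θ⟩ : ℂ)
    (Submodule.span ℝ {(⟨-Real.sin θ, Real.cos θ⟩ : ℂ)})

theorem finrank_lineAS (θ x : ℝ) : Module.finrank ℝ (lineAS θ x).direction = 1 := by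
  unfold lineAS
  rw [AffineSubspace.direction_mk']
  apply finrank_span_singleton
  intro h
  have h1 := congrArg Complex.re h
  have h2 := congrArg Complex.im h
  simp only [Complex.zero_re, Complex.zero_im] at h1 h2
  have h3 := Real.sin_sq_add_cos_sq θ
  have h4 : Real.sin θ = 0 := by linarith
  rw [h4, h2] at h3
  norm_num at h3

theorem mem_lineAS {θ x : ℝ} {z : ℂ} : z ∈ lineAS θ x → pr θ z = x := by
  intro h
  unfold lineAS at h
  rw [AffineSubspace.mem_mk', Submodule.mem_span_singleton] at h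
  obtain ⟨c, hc⟩ := h
  have h3 := Real.sin_sq_add_cos_sq θ
  have h1 := congrArg Complex.re hc
  have h2 := congrArg Complex.im hc
  simp only [vsub_eq_sub, Complex.sub_re, Complex.sub_im, Complex.real_smul,
    Complex.re_ofReal_mul, Complex.im_ofReal_mul] at h1 h2
  unfold pr
  have e1 : z.re = c * -Real.sin θ + x * Real.cos θ := by linarith
  have e2 : z.im = c * Real.cos θ + x * Real.sin θ := by linarith
  rw [e1, e2]
  linear_combination x * h3

theorem exists_mem_lineAS {θ x : ℝ} (hx : x ∈ Ioo (-1 : ℝ) 1) :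
    ∃ z ∈ lineAS θ x, ‖z‖ = 1 := by
  have h1 : 0 ≤ 1 - x ^ 2 := by nlinarith [hx.1, hx.2]
  refine ⟨⟨x * Real.cos θ - √(1 - x ^ 2) * Real.sin θ,
    x * Real.sin θ + √(1 - x ^ 2) * Real.cos θ⟩, ?_, ?_⟩
  · unfold lineAS
    rw [AffineSubspace.mem_mk', Submodule.mem_span_singleton]
    refine ⟨√(1 - x ^ 2), ?_⟩
    apply Complex.ext
    · simp only [vsub_eq_sub, Complex.sub_re, Complex.real_smul, Complex.re_ofReal_mul]
      ring
    · simp only [vsub_eq_sub, Complex.sub_im, Complex.real_smul, Complex.im_ofReal_mul]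
      ring
  · have h3 := Real.sin_sq_add_cos_sq θ
    have h4 := Real.sq_sqrt h1
    have h5 : ‖(⟨x * Real.cos θ - √(1 - x ^ 2) * Real.sin θ,
        x * Real.sin θ + √(1 - x ^ 2) * Real.cos θ⟩ : ℂ)‖ ^ 2 = 1 := by
      rw [Complex.sq_norm, Complex.normSq_apply]
      show (x * Real.cos θ - √(1 - x ^ 2) * Real.sin θ) *
        (x * Real.cos θ - √(1 - x ^ 2) * Real.sin θ) +
        (x * Real.sin θ + √(1 - x ^ 2) * Real.cos θ) *
        (x * Real.sin θ + √(1 - x ^ 2) * Real.cos θ) = 1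
      have : (x * Real.cos θ - √(1 - x ^ 2) * Real.sin θ) *
        (x * Real.cos θ - √(1 - x ^ 2) * Real.sin θ) +
        (x * Real.sin θ + √(1 - x ^ 2) * Real.cos θ) *
        (x * Real.sin θ + √(1 - x ^ 2) * Real.cos θ)
        = (x ^ 2 + √(1 - x ^ 2) ^ 2) * (Real.sin θ ^ 2 + Real.cos θ ^ 2) := by ring
      rw [this, h3, h4]; ring
    exact (pow_eq_one_iff_of_nonneg (norm_nonneg _) (by norm_num)).1 h5

/-- a point of the interval lies in a piece of the subdivision -/
theorem exists_piece {t : ℕ → ℝ} {m : ℕ} {a b r : ℝ} (hab : a < b) (h0 : t 0 = a) (hm : t m = b)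
    (hr : r ∈ Icc a b) : ∃ k, k < m ∧ t k ≤ r ∧ r ≤ t (k + 1) := by
  have hm0 : m ≠ 0 := by
    rintro rfl
    rw [h0] at hm
    exact absurd hm hab.ne
  have hex : ∃ k, r ≤ t (k + 1) := ⟨m - 1, by
    rw [Nat.sub_add_cancel (Nat.one_le_iff_ne_zero.2 hm0), hm]; exact hr.2⟩
  classical
  refine ⟨Nat.find hex, ?_, ?_, Nat.find_spec hex⟩
  · have : Nat.find hex ≤ m - 1 := Nat.find_min' hex (by
      rw [Nat.sub_add_cancel (Nat.one_le_iff_ne_zero.2 hm0), hm]; exact hr.2)
    omega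
  · rcases Nat.eq_zero_or_pos (Nat.find hex) with h | h
    · rw [h, h0]; exact hr.1
    · have h1 := Nat.find_min hex (Nat.sub_lt h one_pos)
      have h2 : Nat.find hex - 1 + 1 = Nat.find hex := by omega
      rw [h2] at h1
      exact (not_le.1 h1).le

/-- the two chords are at most the variation -/
theorem chords_le {γ : ℝ → ℂ} {x r y : ℝ} (h1 : x ≤ r) (h2 : r ≤ y)
    (hf : eVariationOn γ (Icc x y) ≠ ⊤) :
    ‖γ r - γ x‖ + ‖γ y - γ r‖ ≤ (eVariationOn γ (Icc x y)).toReal := by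
  have h3 : edist (γ r) (γ x) + edist (γ y) (γ r) ≤ eVariationOn γ (Icc x y) := by
    have h4 := eVariationOn.Icc_add_Icc γ h1 h2 (mem_univ r)
    rw [univ_inter, univ_inter, univ_inter] at h4
    rw [← h4]
    exact add_le_add
      (eVariationOn.edist_le γ (right_mem_Icc.2 h1) (left_mem_Icc.2 h1))
      (eVariationOn.edist_le γ (right_mem_Icc.2 h2) (left_mem_Icc.2 h2))
  have h5 := ENNReal.toReal_mono hf h3
  rw [ENNReal.toReal_add (edist_ne_top _ _) (edist_ne_top _ _), edist_dist, edist_dist,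
    ENNReal.toReal_ofReal dist_nonneg, ENNReal.toReal_ofReal dist_nonneg, dist_eq_norm,
    dist_eq_norm] at h5
  exact h5

theorem blk_ARC (hELL : Stmt_ELL) (hSUB : Stmt_SUB) : Stmt_ARC := by
  intro n A hA htop ε hε
  have hfin : ∀ i, (A i).length ≠ ⊤ := by
    intro i
    exact fun h => htop (ENNReal.sum_eq_top.2 ⟨i, Finset.mem_univ _, h⟩)
  have hη : 0 < ε / (n + 1) := by positivity
  choose m t hmono h0 hm hsum hlen using fun i =>
    hSUB (A i).toFun (A i).a (A i).b (ε / (n + 1)) (A i).lt hη (hfin i)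
  -- the widths
  let w : (Σ i : Fin n, Fin (m i)) → ℝ := fun s =>
    √((eVariationOn (A s.1).toFun (Icc (t s.1 s.2) (t s.1 (s.2 + 1)))).toReal ^ 2
      - ‖(A s.1).toFun (t s.1 (s.2 + 1)) - (A s.1).toFun (t s.1 s.2)‖ ^ 2)
  let a0 : (Σ i : Fin n, Fin (m i)) → ℂ := fun s => (A s.1).toFun (t s.1 s.2)
  let e0 : (Σ i : Fin n, Fin (m i)) → ℂ := fun s =>
    (A s.1).toFun (t s.1 (s.2 + 1)) - (A s.1).toFun (t s.1 s.2)
  let E := finSigmaFinEquiv (m := n) (n := m)
  refine ⟨∑ i, m i, fun k => a0 (E.symm k), fun k => e0 (E.symm k), ?_, ?_⟩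
  · intro θ
    have hsub : {x : ℝ | x ∈ Ioo (-1) 1 ∧
        cnt (fun k => a0 (E.symm k)) (fun k => e0 (E.symm k)) θ x = 0} ⊆
        ⋃ s : (Σ i : Fin n, Fin (m i)),
          (Ico (min (pr θ (a0 s)) (pr θ (a0 s + e0 s)) - w s / 2)
            (min (pr θ (a0 s)) (pr θ (a0 s + e0 s))) ∪
          Ioc (max (pr θ (a0 s)) (pr θ (a0 s + e0 s)))
            (max (pr θ (a0 s)) (pr θ (a0 s + e0 s)) + w s / 2)) := by
      rintro x ⟨hx, hcnt⟩
      -- the line misses all chords
      have hmiss : ∀ s, x ∉ Icc (min (pr θ (a0 s)) (pr θ (a0 s + e0 s)))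
          (max (pr θ (a0 s)) (pr θ (a0 s + e0 s))) := by
        intro s hs
        unfold cnt at hcnt
        rw [Finset.sum_eq_zero_iff_of_nonneg
          (fun i _ => indicator_nonneg (fun _ _ => zero_le_one) x)] at hcnt
        have h1 := hcnt (E s) (Finset.mem_univ _)
        unfold lo hi at h1
        simp only [Equiv.symm_apply_apply] at h1
        rw [indicator_of_mem hs] at h1
        exact one_ne_zero h1
      obtain ⟨z, hz, hzA⟩ := hA (lineAS θ x) (finrank_lineAS θ x) (exists_mem_lineAS hx)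
      obtain ⟨i, hi⟩ := mem_iUnion.1 hzA
      obtain ⟨r, hr, hrz⟩ := hi
      obtain ⟨k, hk, hk1, hk2⟩ := exists_piece (A i).lt (h0 i) (hm i) hr
      have hprz := mem_lineAS hz
      have hsubI : Icc (t i k) (t i (k + 1)) ⊆ Icc (A i).a (A i).b := by
        apply Icc_subset_Icc
        · rw [← h0 i]; exact hmono i (Nat.zero_le _)
        · rw [← hm i]; exact hmono i hk
      have hf : eVariationOn (A i).toFun (Icc (t i k) (t i (k + 1))) ≠ ⊤ :=
        ne_top_of_le_ne_top (hfin i) (eVariationOn.mono _ hsubI)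
      have h5 := hELL ((A i).toFun (t i k)) ((A i).toFun (t i (k + 1))) ((A i).toFun r) _ θ
        (chords_le hk1 hk2 hf)
      rw [hrz, hprz] at h5
      refine mem_iUnion.2 ⟨⟨i, ⟨k, hk⟩⟩, ?_⟩
      have hm1 := hmiss ⟨i, ⟨k, hk⟩⟩
      have e1 : a0 ⟨i, ⟨k, hk⟩⟩ + e0 ⟨i, ⟨k, hk⟩⟩ = (A i).toFun (t i (k + 1)) :=
        add_sub_cancel _ _
      have e2 : a0 ⟨i, ⟨k, hk⟩⟩ = (A i).toFun (t i k) := rfl
      have e3 : w ⟨i, ⟨k, hk⟩⟩ =
        √((eVariationOn (A i).toFun (Icc (t i k) (t i (k + 1)))).toReal ^ 2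
          - ‖(A i).toFun (t i (k + 1)) - (A i).toFun (t i k)‖ ^ 2) := rfl
      rw [e1, e2] at hm1 ⊢
      rw [e3]
      rw [mem_Icc, not_and_or, not_le, not_le] at hm1
      rcases hm1 with h6 | h6
      · left; exact ⟨h5.2, h6⟩
      · right; exact ⟨h6, h5.1⟩
    refine (measure_mono hsub).trans ((measure_iUnion_fintype_le _ _).trans ?_)
    have hw : ∀ s, 0 ≤ w s := fun s => Real.sqrt_nonneg _
    have h7 : ∀ s : (Σ i : Fin n, Fin (m i)),
        volume (Ico (min (pr θ (a0 s)) (pr θ (a0 s + e0 s)) - w s / 2)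
            (min (pr θ (a0 s)) (pr θ (a0 s + e0 s))) ∪
          Ioc (max (pr θ (a0 s)) (pr θ (a0 s + e0 s)))
            (max (pr θ (a0 s)) (pr θ (a0 s + e0 s)) + w s / 2)) ≤ ENNReal.ofReal (w s) := by
      intro s
      refine (measure_union_le _ _).trans ?_
      rw [Real.volume_Ico, Real.volume_Ioc, sub_sub_cancel, add_sub_cancel_left,
        ← ENNReal.ofReal_add (by linarith [hw s]) (by linarith [hw s]), add_halves]
    refine (Finset.sum_le_sum fun s _ => h7 s).trans ?_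
    rw [← ENNReal.ofReal_sum_of_nonneg (fun s _ => hw s)]
    apply ENNReal.ofReal_le_ofReal
    rw [Fintype.sum_sigma]
    have h8 : ∀ i : Fin n, ∑ k : Fin (m i), w ⟨i, k⟩ ≤ ε / (n + 1) := by
      intro i
      refine le_trans (le_of_eq ?_) (hsum i)
      rw [Finset.sum_range]
    refine (Finset.sum_le_sum fun i _ => h8 i).trans ?_
    rw [Finset.sum_const, Finset.card_univ, Fintype.card_fin, nsmul_eq_mul, ← mul_div_assoc,
      div_le_iff₀ (by positivity)]
    nlinarith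
  · unfold len
    have h9 : ∑ k : Fin (∑ i, m i), ‖e0 (E.symm k)‖ = ∑ s, ‖e0 s‖ :=
      Equiv.sum_comp E.symm (fun s => ‖e0 s‖)
    rw [h9, Fintype.sum_sigma]
    have h10 : ∀ i : Fin n, ∑ k : Fin (m i), ‖e0 ⟨i, k⟩‖ ≤ ((A i).length).toReal := by
      intro i
      refine le_trans (le_of_eq ?_) (hlen i)
      rw [Finset.sum_range]
    refine (ENNReal.ofReal_le_ofReal (Finset.sum_le_sum fun i _ => h10 i)).trans ?_
    rw [ENNReal.ofReal_sum_of_nonneg (fun i _ => ENNReal.toReal_nonneg)]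
    apply Finset.sum_le_sum
    intro i _
    rw [ENNReal.ofReal_toReal (hfin i)]

end Pool.Agent.Work.MP_655153_lb
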