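import Pool.Agent.Work.MP_655153_lb.Defs

/-!
# Basic facts about `pr`, `det`, `ker`, `phi`
-/

open MeasureTheory Set

namespace Pool.Agent.Work.MP_655153_lb

theorem pr_add (θ : ℝ) (z w : ℂ) : pr θ (z + w) = pr θ z + pr θ w := by
  unfold pr; rw [Complex.add_re, Complex.add_im]; ring

theorem pr_sub (θ : ℝ) (z w : ℂ) : pr θ (z - w) = pr θ z - pr θ w := by
  unfold pr; rw [Complex.sub_re, Complex.sub_im]; ring

theorem pr_neg (θ : ℝ) (z : ℂ) : pr θ (-z) = - pr θ z := by
  unfold pr; rw [Complex.neg_re, Complex.neg_im]; ring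

theorem pr_smul (θ t : ℝ) (z : ℂ) : pr θ ((t : ℂ) * z) = t * pr θ z := by
  unfold pr; rw [Complex.re_ofReal_mul, Complex.im_ofReal_mul]; ring

theorem pr_zero (θ : ℝ) : pr θ 0 = 0 := by unfold pr; simp

theorem pr_add_pi (θ : ℝ) (z : ℂ) : pr (θ + Real.pi) z = - pr θ z := by
  unfold pr; rw [Real.cos_add_pi, Real.sin_add_pi]; ring

theorem pr_sub_pi (θ : ℝ) (z : ℂ) : pr (θ - Real.pi) z = - pr θ z := by
  unfold pr; rw [Real.cos_sub_pi, Real.sin_sub_pi]; ring

theorem pr_pt {n : ℕ} (a e : Fin n → ℂ) (i : Fin n) (θ t : ℝ) :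
    pr θ (pt a e i t) = pr θ (a i) + t * pr θ (e i) := by
  unfold pt; rw [pr_add, pr_smul]

theorem continuous_pr : Continuous (fun z : ℝ × ℂ => pr z.1 z.2) := by
  unfold pr; fun_prop

theorem continuous_pr_left (z : ℂ) : Continuous (fun θ => pr θ z) := by
  unfold pr; fun_prop

theorem continuous_pr_right (θ : ℝ) : Continuous (fun z => pr θ z) := by
  unfold pr; fun_prop

theorem continuous_pt {n : ℕ} (a e : Fin n → ℂ) (i : Fin n) : Continuous (pt a e i) := by
  unfold pt; fun_prop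

/-- polar form of the linear form -/
theorem exists_polar (z : ℂ) : ∃ c : ℝ, ∀ θ, pr θ z = ‖z‖ * Real.sin (θ - c) := by
  refine ⟨Complex.arg z - Real.pi / 2, fun θ => ?_⟩
  have h1 : z.re = ‖z‖ * Real.cos (Complex.arg z) := (Complex.norm_mul_cos_arg z).symm
  have h2 : z.im = ‖z‖ * Real.sin (Complex.arg z) := (Complex.norm_mul_sin_arg z).symm
  have h3 : θ - (Complex.arg z - Real.pi / 2) = (θ - Complex.arg z) + Real.pi / 2 := by ring
  rw [h3, Real.sin_add_pi_div_two, Real.cos_sub]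
  unfold pr
  rw [h1, h2]
  simp only [Complex.norm_mul_cos_arg, Complex.norm_mul_sin_arg]
  rw [h1, h2]
  simp only [Complex.norm_mul_cos_arg, Complex.norm_mul_sin_arg]
  rw [mul_add]
  nth_rewrite 1 [h1]
  nth_rewrite 1 [h2]
  ring

theorem abs_pr_le (θ : ℝ) (z : ℂ) : |pr θ z| ≤ ‖z‖ := by
  obtain ⟨c, hc⟩ := exists_polar z
  rw [hc, abs_mul, abs_norm]
  exact mul_le_of_le_one_right (norm_nonneg _) (Real.abs_sin_le_one _)

/-- `pr` is Lipschitz in the angle -/
theorem abs_pr_sub_le (s t : ℝ) (z : ℂ) : |pr s z - pr t z| ≤ ‖z‖ * |s - t| := by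
  obtain ⟨c, hc⟩ := exists_polar z
  rw [hc, hc, ← mul_sub, abs_mul, abs_norm]
  apply mul_le_mul_of_nonneg_left _ (norm_nonneg _)
  have h : ∀ x y : ℝ, |Real.sin x - Real.sin y| ≤ |x - y| := by
    intro x y
    rw [Real.sin_sub_sin, abs_mul, abs_mul]
    have h1 : |Real.sin ((x - y) / 2)| ≤ |(x - y) / 2| := Real.abs_sin_le_abs
    have h2 := Real.abs_cos_le_one ((x + y) / 2)
    have h3 : |(x - y) / 2| = |x - y| / 2 := by rw [abs_div, abs_of_pos (by norm_num : (0:ℝ) < 2)]
    rw [abs_of_pos (by norm_num : (0 : ℝ) < 2)]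
    calc 2 * |Real.sin ((x - y) / 2)| * |Real.cos ((x + y) / 2)|
        ≤ 2 * |Real.sin ((x - y) / 2)| * 1 :=
          mul_le_mul_of_nonneg_left h2 (by positivity)
      _ ≤ |x - y| := by rw [mul_one]; linarith [h3 ▸ h1]
  have := h (s - c) (t - c)
  rwa [sub_sub_sub_cancel_right] at this

/-- interpolation of `pr` between two angles -/
theorem pr_comb (s t T : ℝ) (z : ℂ) :
    Real.sin T * pr (s + t) z = Real.sin (T - t) * pr s z + Real.sin t * pr (s + T) z := by
  unfold pr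
  rw [Real.cos_add, Real.sin_add, Real.cos_add, Real.sin_add, Real.sin_sub]
  have h := Real.sin_sq_add_cos_sq t
  have h' : Real.cos t ^ 2 = 1 - Real.sin t ^ 2 := by linarith
  ring_nf

theorem det_smul_left (r : ℝ) (z w : ℂ) : det ((r : ℂ) * z) w = r * det z w := by
  unfold det; rw [Complex.re_ofReal_mul, Complex.im_ofReal_mul]; ring

theorem det_smul_right (r : ℝ) (z w : ℂ) : det z ((r : ℂ) * w) = r * det z w := by
  unfold det; rw [Complex.re_ofReal_mul, Complex.im_ofReal_mul]; ring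

theorem det_sub_right (f z w : ℂ) : det f (z - w) = det f z - det f w := by
  unfold det; rw [Complex.sub_re, Complex.sub_im]; ring

theorem det_add_right (f z w : ℂ) : det f (z + w) = det f z + det f w := by
  unfold det; rw [Complex.add_re, Complex.add_im]; ring

theorem det_comm (z w : ℂ) : det z w = - det w z := by unfold det; ring

theorem det_self (z : ℂ) : det z z = 0 := by unfold det; ring

/-- `det f` is a multiple of a `pr` -/
theorem exists_det_eq (f : ℂ) : ∃ θ : ℝ, ∀ v, det f v = ‖f‖ * pr θ v := by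
  refine ⟨Complex.arg f + Real.pi / 2, fun v => ?_⟩
  have h1 := Complex.norm_mul_cos_arg f
  have h2 := Complex.norm_mul_sin_arg f
  unfold pr det
  rw [Real.cos_add_pi_div_two, Real.sin_add_pi_div_two]
  calc f.re * v.im - f.im * v.re = (‖f‖ * Real.cos (Complex.arg f)) * v.im
        - (‖f‖ * Real.sin (Complex.arg f)) * v.re := by rw [h1, h2]
    _ = _ := by ring

theorem abs_det_le (f v : ℂ) : |det f v| ≤ ‖f‖ * ‖v‖ := by
  obtain ⟨θ, h⟩ := exists_det_eq f
  rw [h, abs_mul, abs_norm]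
  exact mul_le_mul_of_nonneg_left (abs_pr_le _ _) (norm_nonneg _)

theorem ker_nonneg (f v g : ℂ) : 0 ≤ ker f v g := by unfold ker; positivity

theorem ker_le (f v g : ℂ) : ker f v g ≤ ‖f‖ * ‖g‖ := by
  unfold ker
  rcases eq_or_ne v 0 with rfl | hv
  · simp; positivity
  · have hv' : 0 < ‖v‖ := norm_pos_iff.2 hv
    rw [div_le_iff₀ (by positivity)]
    calc |det f v| * |det g v| ≤ (‖f‖ * ‖v‖) * (‖g‖ * ‖v‖) :=
          mul_le_mul (abs_det_le _ _) (abs_det_le _ _) (abs_nonneg _) (by positivity)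
      _ = ‖f‖ * ‖g‖ * ‖v‖ ^ 2 := by ring

theorem ker_smul_left (r : ℝ) (f v g : ℂ) : ker ((r : ℂ) * f) v g = |r| * ker f v g := by
  unfold ker; rw [det_smul_left, abs_mul]; ring

/-- on the line through two points the kernel is the product of the projections -/
theorem ker_eq {θ : ℝ} {v : ℂ} (hv : v ≠ 0) (h : pr θ v = 0) (f g : ℂ) :
    ker f v g = |pr θ f| * |pr θ g| := by
  have hv' : 0 < ‖v‖ := norm_pos_iff.2 hv
  have key : ∀ f : ℂ, |det f v| = |pr θ f| * ‖v‖ := by
    intro f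
    have h1 : v.re * Real.cos θ + v.im * Real.sin θ = 0 := h
    have h2 := Real.sin_sq_add_cos_sq θ
    have h3 : ‖v‖ ^ 2 = v.re ^ 2 + v.im ^ 2 := by
      rw [Complex.sq_norm, Complex.normSq_apply]; ring
    obtain ⟨w, hw⟩ : ∃ w, w = v.re * Real.sin θ - v.im * Real.cos θ := ⟨_, rfl⟩
    have e1 : v.re = w * Real.sin θ := by
      rw [hw]; linear_combination Real.cos θ * h1 - v.re * h2
    have e2 : v.im = -w * Real.cos θ := by
      rw [hw]; linear_combination Real.sin θ * h1 - v.im * h2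
    have e3 : ‖v‖ = |w| := by
      rw [← abs_of_pos hv', ← sq_eq_sq_iff_abs_eq_abs, h3, e1, e2]
      linear_combination w ^ 2 * h2
    have e4 : det f v = -w * pr θ f := by
      unfold det pr; rw [e1, e2]; ring
    rw [e4, e3, abs_mul, abs_neg, mul_comm]
  unfold ker
  rw [key f, key g]
  field_simp

theorem continuous_det : Continuous (fun z : ℂ × ℂ => det z.1 z.2) := by
  unfold det; fun_prop

theorem measurable_ker (f p : ℂ) : Measurable (fun z : ℂ × ℂ => ker f (z.1 - p) z.2) := by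
  unfold ker det; fun_prop

theorem measurable_ker3 : Measurable (fun z : ℂ × ℂ × ℂ => ker z.1 z.2.1 z.2.2) := by
  unfold ker det; fun_prop

theorem continuous_phi : Continuous phi := by unfold phi; fun_prop

theorem phi_le (X : ℝ) : phi X ≤ 1 / 6 := by
  unfold phi
  have : 0 ≤ (max 0 (1 - X)) ^ 3 := by positivity
  linarith

theorem le_phi {X : ℝ} (hX : 0 ≤ X) : -(1 / 6) ≤ phi X := by
  unfold phi
  have h1 : max 0 (1 - X) ≤ 1 := max_le (by norm_num) (by linarith)
  have h2 : (max 0 (1 - X)) ^ 3 ≤ 1 := pow_le_one₀ (le_max_left _ _) h1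
  linarith

theorem abs_phi_le {X : ℝ} (hX : 0 ≤ X) : |phi X| ≤ 1 / 6 :=
  abs_le.2 ⟨le_phi hX, phi_le X⟩

/-- a change of sign of `pr · v` gives a zero -/
theorem exists_zero {s t : ℝ} {v : ℂ} (hst : s ≤ t) (h : pr s v * pr t v < 0) :
    ∃ θ ∈ Ioo s t, pr θ v = 0 := by
  have hc := (continuous_pr_left v).continuousOn (s := Icc s t)
  have hs : pr s v ≠ 0 := by rintro h'; rw [h', zero_mul] at h; exact lt_irrefl _ h
  have ht : pr t v ≠ 0 := by rintro h'; rw [h', mul_zero] at h; exact lt_irrefl _ h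
  have key : ∃ θ ∈ Icc s t, pr θ v = 0 := by
    rcases lt_or_gt_of_ne hs with h1 | h1
    · have h2 : 0 < pr t v := by
        by_contra h3
        exact absurd (mul_nonneg_of_nonpos_of_nonpos h1.le (not_lt.1 h3)) (not_le.2 h)
      exact intermediate_value_Icc hst hc ⟨h1.le, h2.le⟩
    · have h2 : pr t v < 0 := by
        by_contra h3
        exact absurd (mul_nonneg h1.le (not_lt.1 h3)) (not_le.2 h)
      exact intermediate_value_Icc' hst hc ⟨h2.le, h1.le⟩
  obtain ⟨θ, hθ, h0⟩ := key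
  refine ⟨θ, ⟨lt_of_le_of_ne hθ.1 ?_, lt_of_le_of_ne hθ.2 ?_⟩, h0⟩
  · rintro rfl; exact hs h0
  · rintro rfl; exact ht h0

/-- `∫_0^π |z · u(θ)| dθ = 2 |z|` -/
theorem integral_abs_pr (z : ℂ) : ∫ θ in (0 : ℝ)..Real.pi, |pr θ z| = 2 * ‖z‖ := by
  obtain ⟨c, hc⟩ := exists_polar z
  have h1 : ∀ θ, |pr θ z| = ‖z‖ * |Real.sin (θ - c)| := by
    intro θ; rw [hc, abs_mul, abs_norm]
  simp only [h1]
  rw [intervalIntegral.integral_const_mul,
    intervalIntegral.integral_comp_sub_right (fun x => |Real.sin x|)]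
  have hper : Function.Periodic (fun x => |Real.sin x|) Real.pi := by
    intro x; simp [Real.sin_add_pi]
  have h2 : ∫ x in (0 - c)..(Real.pi - c), |Real.sin x| = ∫ x in (0:ℝ)..Real.pi, |Real.sin x| := by
    have := hper.intervalIntegral_add_eq (0 - c) 0
    rw [zero_add] at this
    rw [← this]; congr 1; ring
  rw [h2]
  have h3 : ∫ x in (0:ℝ)..Real.pi, |Real.sin x| = ∫ x in (0:ℝ)..Real.pi, Real.sin x := by
    apply intervalIntegral.integral_congr
    intro x hx
    rw [uIcc_of_le Real.pi_pos.le] at hx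
    exact abs_of_nonneg (Real.sin_nonneg_of_nonneg_of_le_pi hx.1 hx.2)
  rw [h3, integral_sin]
  simp
  ring

end Pool.Agent.Work.MP_655153_lb
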