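import Pool.Agent.Work.MP_655153_lb.Interface

/-!
# CROSS
-/

open MeasureTheory Set
open scoped ENNReal

namespace Pool.Agent.Work.MP_655153_lb

namespace CrossB

theorem mem_Ioo_of {n : ℕ} (a e : Fin n → ℂ) (i : Fin n) {θ : ℝ} (hw : pr θ (e i) ≠ 0) {s : ℝ}
    (hs : s ∈ Ioo (0 : ℝ) 1) : pr θ (pt a e i s) ∈ Ioo (lo a e θ i) (hi a e θ i) := by
  rw [pr_pt]
  unfold lo hi
  rw [pr_add]
  obtain ⟨h0, h1⟩ := hs
  rcases lt_or_gt_of_ne hw with h | h
  · have h2 : s * pr θ (e i) < 0 := mul_neg_of_pos_of_neg h0 h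
    have h3 : (1 - s) * pr θ (e i) < 0 := mul_neg_of_pos_of_neg (sub_pos.2 h1) h
    rw [min_eq_right (by linarith), max_eq_left (by linarith)]
    constructor <;> linarith
  · have h2 : 0 < s * pr θ (e i) := mul_pos h0 h
    have h3 : 0 < (1 - s) * pr θ (e i) := mul_pos (sub_pos.2 h1) h
    rw [min_eq_left (by linarith), max_eq_right (by linarith)]
    constructor <;> linarith

end CrossB

open CrossB in
theorem blk_CROSS : Stmt_CROSS := by
  intro n a e i j s t hs ht hker θ h0
  have hv0 : pt a e j t - pt a e i s ≠ 0 := by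
    intro h
    apply hker
    rw [h]
    unfold ker det
    simp
  have hk := ker_eq hv0 h0 (e i) (e j)
  have hwi : pr θ (e i) ≠ 0 := by
    intro h
    apply hker
    rw [hk, h, abs_zero, zero_mul]
  have hwj : pr θ (e j) ≠ 0 := by
    intro h
    apply hker
    rw [hk, h, abs_zero, mul_zero]
  have hij : i ≠ j := by
    rintro rfl
    apply hker
    have hv : pt a e i t - pt a e i s = ((t - s : ℝ) : ℂ) * e i := by
      unfold pt
      push_cast
      ring
    rw [hv]
    unfold ker
    rw [det_smul_right, det_self]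
    simp
  have hx : pr θ (pt a e j t) = pr θ (pt a e i s) := by
    rw [pr_sub] at h0
    linarith
  have hi1 := mem_Ioo_of a e i hwi hs
  have hj1 := mem_Ioo_of a e j hwj ht
  rw [hx] at hj1
  generalize pr θ (pt a e i s) = x at hi1 hj1
  refine ⟨min (hi a e θ i - x) (hi a e θ j - x), lt_min (sub_pos.2 hi1.2) (sub_pos.2 hj1.2),
    Or.inl ?_⟩
  set d := min (hi a e θ i - x) (hi a e θ j - x) with hd
  have hd0 : 0 < d := lt_min (sub_pos.2 hi1.2) (sub_pos.2 hj1.2)
  have hdi : d ≤ hi a e θ i - x := min_le_left _ _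
  have hdj : d ≤ hi a e θ j - x := min_le_right _ _
  have hnn : ∀ k : Fin n, 0 ≤ max 0 (min (hi a e θ k) (x + d) - max (lo a e θ k) x) :=
    fun k => le_max_left _ _
  have hsum := Finset.sum_le_univ_sum_of_nonneg (s := {i, j}) hnn
  rw [Finset.sum_pair hij] at hsum
  have e1 : max 0 (min (hi a e θ i) (x + d) - max (lo a e θ i) x) = d := by
    rw [min_eq_right (by linarith), max_eq_right hi1.1.le, max_eq_right (by linarith)]
    ring
  have e2 : max 0 (min (hi a e θ j) (x + d) - max (lo a e θ j) x) = d := by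
    rw [min_eq_right (by linarith), max_eq_right hj1.1.le, max_eq_right (by linarith)]
    ring
  rw [e1, e2] at hsum
  change 199 / 100 * d < mass a e θ x (x + d)
  unfold mass
  linarith

end Pool.Agent.Work.MP_655153_lb
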