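import Pool.Agent.Work.MP_655153_lb.Basic

/-!
# Change of variables `x = pr θ (pt a e i t)`
-/

open MeasureTheory Set
open scoped ENNReal

namespace Pool.Agent.Work.MP_655153_lb

theorem lo_le_hi {n : ℕ} (a e : Fin n → ℂ) (θ : ℝ) (i : Fin n) : lo a e θ i ≤ hi a e θ i :=
  (min_le_left _ _).trans (le_max_left _ _)

theorem hi_sub_lo {n : ℕ} (a e : Fin n → ℂ) (θ : ℝ) (i : Fin n) :
    hi a e θ i - lo a e θ i = |pr θ (e i)| := by
  unfold hi lo
  rw [max_sub_min_eq_abs, pr_add]
  congr 1
  ring

/-- real version; no assumption on `g` -/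
theorem chg_real {n : ℕ} (a e : Fin n → ℂ) (i : Fin n) (θ : ℝ) (g : ℝ → ℝ) :
    ∫ t in (0 : ℝ)..1, |pr θ (e i)| * g (pr θ (pt a e i t))
      = ∫ x in (lo a e θ i)..(hi a e θ i), g x := by
  have h1 : ∀ t, pr θ (pt a e i t) = pr θ (e i) * t + pr θ (a i) := by
    intro t; rw [pr_pt]; ring
  simp only [h1]
  rcases lt_trichotomy (pr θ (e i)) 0 with hw | hw | hw
  · rw [intervalIntegral.integral_const_mul, intervalIntegral.integral_comp_mul_add _ hw.ne]
    have e1 : lo a e θ i = pr θ (e i) * 1 + pr θ (a i) := by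
      unfold lo; rw [pr_add, min_eq_right (by linarith)]; ring
    have e2 : hi a e θ i = pr θ (e i) * 0 + pr θ (a i) := by
      unfold hi; rw [pr_add, max_eq_left (by linarith)]; ring
    rw [e1, e2, abs_of_neg hw, smul_eq_mul, intervalIntegral.integral_symm, mul_neg, neg_mul,
      mul_neg, neg_neg, ← mul_assoc, mul_inv_cancel₀ hw.ne, one_mul]
  · have e1 : lo a e θ i = hi a e θ i := by
      have := hi_sub_lo a e θ i
      rw [hw, abs_zero] at this; linarith
    rw [e1, hw]; simp
  · rw [intervalIntegral.integral_const_mul, intervalIntegral.integral_comp_mul_add _ hw.ne']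
    have e1 : lo a e θ i = pr θ (e i) * 0 + pr θ (a i) := by
      unfold lo; rw [pr_add, min_eq_left (by linarith)]; ring
    have e2 : hi a e θ i = pr θ (e i) * 1 + pr θ (a i) := by
      unfold hi; rw [pr_add, max_eq_right (by linarith)]; ring
    rw [e1, e2, abs_of_pos hw, smul_eq_mul, ← mul_assoc, mul_inv_cancel₀ hw.ne', one_mul]

/-- the parameter interval and the projection -/
theorem mem_Icc_iff {n : ℕ} (a e : Fin n → ℂ) (i : Fin n) {θ : ℝ} (hw : pr θ (e i) ≠ 0) (s : ℝ) :
    pr θ (pt a e i s) ∈ Icc (lo a e θ i) (hi a e θ i) ↔ s ∈ Icc (0 : ℝ) 1 := by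
  have h1 : pr θ (pt a e i s) = pr θ (a i) + s * pr θ (e i) := pr_pt a e i θ s
  rw [mem_Icc, mem_Icc, h1]
  unfold lo hi
  rw [pr_add]
  rcases lt_or_gt_of_ne hw with h | h
  · rw [min_eq_right (by linarith), max_eq_left (by linarith)]
    constructor
    · rintro ⟨h2, h3⟩
      constructor
      · by_contra h4
        have := mul_pos_of_neg_of_neg (not_le.1 h4) h
        linarith
      · by_contra h4
        have := mul_neg_of_pos_of_neg (sub_pos.2 (not_le.1 h4)) h
        linarith
    · rintro ⟨h2, h3⟩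
      have h4 := mul_nonpos_of_nonneg_of_nonpos h2 h.le
      have h5 := mul_nonpos_of_nonneg_of_nonpos (sub_nonneg.2 h3) h.le
      constructor <;> linarith
  · rw [min_eq_left (by linarith), max_eq_right (by linarith)]
    constructor
    · rintro ⟨h2, h3⟩
      constructor
      · by_contra h4
        have := mul_neg_of_neg_of_pos (not_le.1 h4) h
        linarith
      · by_contra h4
        have := mul_pos (sub_pos.2 (not_le.1 h4)) h
        linarith
    · rintro ⟨h2, h3⟩
      have h4 := mul_nonneg h2 h.le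
      have h5 := mul_nonneg (sub_nonneg.2 h3) h.le
      constructor <;> linarith

/-- `lintegral` version -/
theorem chg_lint {n : ℕ} (a e : Fin n → ℂ) (i : Fin n) (θ : ℝ) {F : ℝ → ℝ≥0∞}
    (hF : Measurable F) :
    ∫⁻ s in Icc (0 : ℝ) 1, ENNReal.ofReal |pr θ (e i)| * F (pr θ (pt a e i s))
      = ∫⁻ x in Icc (lo a e θ i) (hi a e θ i), F x := by
  rcases eq_or_ne (pr θ (e i)) 0 with hw | hw
  · have e1 : lo a e θ i = hi a e θ i := by
      have := hi_sub_lo a e θ i
      rw [hw, abs_zero] at this; linarith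
    rw [e1, hw]; simp
  · set w := pr θ (e i) with hwd
    set u := pr θ (a i) with hud
    set G : ℝ → ℝ≥0∞ := (Icc (lo a e θ i) (hi a e θ i)).indicator F with hG
    have hGm : Measurable G := hF.indicator measurableSet_Icc
    have h1 : ∫⁻ x in Icc (lo a e θ i) (hi a e θ i), F x = ∫⁻ x, G x := by
      rw [hG, lintegral_indicator measurableSet_Icc]
    have h2 : ∫⁻ x, G x = ∫⁻ x, G (u + x) := (lintegral_add_left_eq_self G u).symm
    have h3 : ∫⁻ x, G (u + x) = ENNReal.ofReal |w| * ∫⁻ s, G (u + w * s) := by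
      have hm : Measurable fun x => G (u + x) := hGm.comp (measurable_const_add u)
      conv_lhs => rw [← Real.smul_map_volume_mul_left hw]
      rw [lintegral_smul_measure, lintegral_map hm (measurable_const_mul w), smul_eq_mul]
    rw [h1, h2, h3, ← lintegral_const_mul' _ _ ENNReal.ofReal_ne_top,
      ← lintegral_indicator measurableSet_Icc]
    refine lintegral_congr fun s => ?_
    have h4 : pr θ (pt a e i s) = u + w * s := by rw [pr_pt, mul_comm]
    by_cases hs : s ∈ Icc (0 : ℝ) 1
    · rw [indicator_of_mem hs, h4, hG, indicator_of_mem]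
      rw [← h4]; exact (mem_Icc_iff a e i hw s).2 hs
    · rw [indicator_of_notMem hs, hG, indicator_of_notMem, mul_zero]
      rw [← h4]; exact fun h => hs ((mem_Icc_iff a e i hw s).1 h)

end Pool.Agent.Work.MP_655153_lb
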