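import Mathlib

/-!
# A lower bound for the beam detection constant: definitions

The plane is `ℂ`. A family of `n` segments is given by `a e : Fin n → ℂ`: the `i`-th segment
consists of the points `a i + t e i`, `0 ≤ t ≤ 1`.
-/

open MeasureTheory Set

namespace Pool.Agent.Work.MP_655153_lb

/-- the linear form `z ↦ z · (cos θ, sin θ)` -/
noncomputable def pr (θ : ℝ) (z : ℂ) : ℝ := z.re * Real.cos θ + z.im * Real.sin θ

/-- the determinant of two vectors of the plane -/
def det (z w : ℂ) : ℝ := z.re * w.im - z.im * w.re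

/-- the point with parameter `t` of the `i`-th segment -/
noncomputable def pt {n : ℕ} (a e : Fin n → ℂ) (i : Fin n) (t : ℝ) : ℂ := a i + (t : ℂ) * e i

/-- left end of the projection of the `i`-th segment -/
noncomputable def lo {n : ℕ} (a e : Fin n → ℂ) (θ : ℝ) (i : Fin n) : ℝ :=
  min (pr θ (a i)) (pr θ (a i + e i))

/-- right end of the projection of the `i`-th segment -/
noncomputable def hi {n : ℕ} (a e : Fin n → ℂ) (θ : ℝ) (i : Fin n) : ℝ :=
  max (pr θ (a i)) (pr θ (a i + e i))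

/-- `N(θ, x)`: number of segments met by the line `pr θ z = x` -/
noncomputable def cnt {n : ℕ} (a e : Fin n → ℂ) (θ x : ℝ) : ℝ :=
  ∑ i, (Icc (lo a e θ i) (hi a e θ i)).indicator (fun _ => (1 : ℝ)) x

/-- total length of the projections in direction `θ` -/
noncomputable def wid {n : ℕ} (e : Fin n → ℂ) (θ : ℝ) : ℝ := ∑ i, |pr θ (e i)|

/-- total length -/
noncomputable def len {n : ℕ} (e : Fin n → ℂ) : ℝ := ∑ i, ‖e i‖

/-- in every direction the lines with `-1 < x < 1` which miss all segments have measure `≤ ε` -/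
def Cov {n : ℕ} (a e : Fin n → ℂ) (ε : ℝ) : Prop :=
  ∀ θ, volume {x : ℝ | x ∈ Ioo (-1) 1 ∧ cnt a e θ x = 0} ≤ ENNReal.ofReal ε

/-- `∫_x^y N(θ, ·)` for `x ≤ y` -/
noncomputable def mass {n : ℕ} (a e : Fin n → ℂ) (θ x y : ℝ) : ℝ :=
  ∑ i, max 0 (min (hi a e θ i) y - max (lo a e θ i) x)

/-- the set of lines `(θ, x)` next to which the density of hits is larger than `1.99` -/
def Ov {n : ℕ} (a e : Fin n → ℂ) : Set (ℝ × ℝ) :=
  {z | ∃ d : ℝ, 0 < d ∧ (199 / 100 * d < mass a e z.1 z.2 (z.2 + d) ∨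
    199 / 100 * d < mass a e z.1 (z.2 - d) z.2)}

/-- the transversality kernel: for unit vectors `f`, `g` and the angles `α`, `β` which they make
with `v` it is `|sin α sin β|` -/
noncomputable def ker (f v g : ℂ) : ℝ := |det f v| * |det g v| / ‖v‖ ^ 2

/-- the measure on (point, direction vector) given by the family -/
noncomputable def mu {n : ℕ} (a e : Fin n → ℂ) : Measure (ℂ × ℂ) :=
  ∑ i, Measure.map (fun t : ℝ => (pt a e i t, e i)) (volume.restrict (Icc 0 1))

/-- at the angle `θ` the `μ`-mass (weighted with the projection) next to the line through `p`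
has density at most `1.99` on both sides, at every scale -/
def Good (μ : Measure (ℂ × ℂ)) (p : ℂ) (θ : ℝ) : Prop :=
  ∀ d : ℝ, 0 ≤ d →
    ∫⁻ z in {z : ℂ × ℂ | pr θ (z.1 - p) ∈ Ioc 0 d}, ENNReal.ofReal |pr θ z.2| ∂μ
        ≤ ENNReal.ofReal (199 / 100 * d) ∧
    ∫⁻ z in {z : ℂ × ℂ | pr θ (z.1 - p) ∈ Ico (-d) 0}, ENNReal.ofReal |pr θ z.2| ∂μ
        ≤ ENNReal.ofReal (199 / 100 * d)

/-- the double integral of the kernel over the part of the family in the disc of radius `1.1` -/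
noncomputable def DD {n : ℕ} (a e : Fin n → ℂ) : ENNReal :=
  ∑ i, ∑ j, ∫⁻ s in {s : ℝ | s ∈ Icc 0 1 ∧ ‖pt a e i s‖ ≤ 11 / 10},
    ∫⁻ t in {t : ℝ | t ∈ Icc 0 1 ∧ ‖pt a e j t‖ ≤ 11 / 10},
      ENNReal.ofReal (ker (e i) (pt a e j t - pt a e i s) (e j))

/-- the function `φ(X) = 1/6 - ((1-X)^+)^3 / 3` -/
noncomputable def phi (X : ℝ) : ℝ := 1 / 6 - (max 0 (1 - X)) ^ 3 / 3

/-- length of the part of the family outside the disc of radius `1.1` -/
noncomputable def outer {n : ℕ} (a e : Fin n → ℂ) : ℝ :=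
  ∑ i, ‖e i‖ * (volume {s : ℝ | s ∈ Icc 0 1 ∧ 11 / 10 < ‖pt a e i s‖}).toReal

end Pool.Agent.Work.MP_655153_lb
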