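import Pool.Agent.Work.MP_655153_lb.Interface

open MeasureTheory Set

namespace Pool.Agent.Work.MP_655153_lb

namespace ELL

theorem norm_sq_pr (θ : ℝ) (v : ℂ) :
    ‖v‖ ^ 2 = pr θ v ^ 2 + pr (θ + Real.pi / 2) v ^ 2 := by
  rw [Complex.sq_norm, Complex.normSq_apply]
  unfold pr
  rw [Real.cos_add_pi_div_two, Real.sin_add_pi_div_two]
  have h := Real.sin_sq_add_cos_sq θ
  linear_combination (-(v.re ^ 2) - v.im ^ 2) * h

theorem norm_eq_of_sq {x : ℂ} {y : ℂ} (h : ‖x‖ ^ 2 = ‖y‖ ^ 2) : ‖x‖ = ‖y‖ :=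
  (sq_eq_sq₀ (norm_nonneg _) (norm_nonneg _)).1 h

/-- the key inequality in orthonormal coordinates -/
theorem key (P Q S : ℂ) (l θ : ℝ) (h : ‖S - P‖ + ‖Q - S‖ ≤ l) :
    ((pr θ S - pr θ P) + (pr θ S - pr θ Q)) ^ 2 - (pr θ Q - pr θ P) ^ 2
      ≤ l ^ 2 - ‖Q - P‖ ^ 2 := by
  set t := θ + Real.pi / 2 with ht
  obtain ⟨w1, hw1⟩ : ∃ w : ℂ, w = ⟨pr θ S - pr θ P, pr t S - pr t P⟩ := ⟨_, rfl⟩
  obtain ⟨w2, hw2⟩ : ∃ w : ℂ, w = ⟨pr θ S - pr θ Q, pr t Q - pr t S⟩ := ⟨_, rfl⟩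
  have e1 : ‖w1‖ = ‖S - P‖ := by
    apply norm_eq_of_sq
    rw [norm_sq_pr θ (S - P), ← ht, pr_sub, pr_sub, Complex.sq_norm, Complex.normSq_apply, hw1]
    ring
  have e2 : ‖w2‖ = ‖Q - S‖ := by
    apply norm_eq_of_sq
    rw [norm_sq_pr θ (Q - S), ← ht, pr_sub, pr_sub, Complex.sq_norm, Complex.normSq_apply, hw2]
    ring
  have h1 : ‖w1 + w2‖ ≤ l := by
    calc ‖w1 + w2‖ ≤ ‖w1‖ + ‖w2‖ := norm_add_le _ _
      _ = ‖S - P‖ + ‖Q - S‖ := by rw [e1, e2]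
      _ ≤ l := h
  have h2 : ‖w1 + w2‖ ^ 2 ≤ l ^ 2 := by
    have := norm_nonneg (w1 + w2)
    exact pow_le_pow_left₀ this h1 2
  rw [Complex.sq_norm, Complex.normSq_apply, Complex.add_re, Complex.add_im, hw1, hw2] at h2
  simp only at h2
  rw [norm_sq_pr θ (Q - P), ← ht, pr_sub, pr_sub]
  nlinarith [h2]

/-- real arithmetic -/
theorem up {p q s D : ℝ} (h : ((s - p) + (s - q)) ^ 2 - (q - p) ^ 2 ≤ D) :
    s ≤ max p q + √D / 2 := by
  rcases le_or_gt s (max p q) with h1 | h1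
  · have := Real.sqrt_nonneg D
    linarith
  · have hp : p < s := lt_of_le_of_lt (le_max_left _ _) h1
    have hq : q < s := lt_of_le_of_lt (le_max_right _ _) h1
    have h2 : (2 * (s - max p q)) ^ 2 ≤ D := by
      rcases le_total p q with hpq | hpq
      · rw [max_eq_right hpq]
        nlinarith [mul_nonneg (sub_nonneg.2 hq.le) (sub_nonneg.2 hpq)]
      · rw [max_eq_left hpq]
        nlinarith [mul_nonneg (sub_nonneg.2 hp.le) (sub_nonneg.2 hpq)]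
    have h3 : 2 * (s - max p q) ≤ √D := Real.le_sqrt_of_sq_le h2
    linarith

end ELL

theorem blk_ELL : Stmt_ELL := by
  intro P Q S l θ h
  have hk := ELL.key P Q S l θ h
  constructor
  · exact ELL.up hk
  · have h2 := ELL.up (p := -pr θ P) (q := -pr θ Q) (s := -pr θ S)
      (D := l ^ 2 - ‖Q - P‖ ^ 2) (by
        have e : ((-pr θ S - -pr θ P) + (-pr θ S - -pr θ Q)) ^ 2 - (-pr θ Q - -pr θ P) ^ 2
          = ((pr θ S - pr θ P) + (pr θ S - pr θ Q)) ^ 2 - (pr θ Q - pr θ P) ^ 2 := by ring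
        rw [e]; exact hk)
    rw [max_neg_neg] at h2
    linarith

end Pool.Agent.Work.MP_655153_lb
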