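import Pool.Agent.Work.MP_655153_lb.Interface

set_option autoImplicit false

open MeasureTheory Set

namespace Pool.Agent.Work.MP_655153_lb

/-- two gaps which meet are equal -/
theorem gaps_eq {G : Set ℝ} {c c' : ℝ × ℝ} (h1 : c.1 ∈ G) (h2 : c.2 ∈ G) (h1' : c'.1 ∈ G)
    (h2' : c'.2 ∈ G) (hd : Disjoint (Ioo c.1 c.2) G) (hd' : Disjoint (Ioo c'.1 c'.2) G)
    {x : ℝ} (hx : x ∈ Ioo c.1 c.2) (hx' : x ∈ Ioo c'.1 c'.2) : c = c' := by
  have key : ∀ y ∈ G, ¬ (c.1 < y ∧ y < c.2) := fun y hy h =>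
    Set.disjoint_left.1 hd (⟨h.1, h.2⟩ : y ∈ Ioo c.1 c.2) hy
  have key' : ∀ y ∈ G, ¬ (c'.1 < y ∧ y < c'.2) := fun y hy h =>
    Set.disjoint_left.1 hd' (⟨h.1, h.2⟩ : y ∈ Ioo c'.1 c'.2) hy
  have a1 : c'.1 ≤ c.1 := by
    by_contra h
    exact key _ h1' ⟨not_le.1 h, hx'.1.trans hx.2⟩
  have a2 : c.1 ≤ c'.1 := by
    by_contra h
    exact key' _ h1 ⟨not_le.1 h, hx.1.trans hx'.2⟩
  have a3 : c.2 ≤ c'.2 := by
    by_contra h
    exact key _ h2' ⟨hx.1.trans hx'.2, not_le.1 h⟩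
  have a4 : c'.2 ≤ c.2 := by
    by_contra h
    exact key' _ h2 ⟨hx'.1.trans hx.2, not_le.1 h⟩
  exact Prod.ext (le_antisymm a2 a1) (le_antisymm a3 a4)

theorem stmt_GAPS : Stmt_GAPS := by
  intro G s0 L hL hG h0 h1
  refine ⟨{c | s0 ≤ c.1 ∧ c.1 < c.2 ∧ c.2 ≤ s0 + L ∧ c.1 ∈ G ∧ c.2 ∈ G ∧
      Disjoint (Ioo c.1 c.2) G}, ?_, fun c hc => hc, ?_, ?_⟩
  · refine Set.PairwiseDisjoint.countable_of_isOpen (s := fun c : ℝ × ℝ => Ioo c.1 c.2) ?_ ?_ ?_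
    · intro c hc c' hc' hne
      rw [Function.onFun, Set.disjoint_left]
      intro x hx hx'
      exact hne (gaps_eq hc.2.2.2.1 hc.2.2.2.2.1 hc'.2.2.2.1 hc'.2.2.2.2.1 hc.2.2.2.2.2
        hc'.2.2.2.2.2 hx hx')
    · intro c _
      exact isOpen_Ioo
    · intro c hc
      exact nonempty_Ioo.2 hc.2.1
  · intro c hc c' hc' hne
    rw [Set.disjoint_left]
    intro x hx hx'
    exact hne (gaps_eq hc.2.2.2.1 hc.2.2.2.2.1 hc'.2.2.2.1 hc'.2.2.2.2.1 hc.2.2.2.2.2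
      hc'.2.2.2.2.2 hx hx')
  · ext x
    constructor
    · rintro ⟨hx, hxG⟩
      have hne1 : (G ∩ Iic x).Nonempty := ⟨s0, h0, hx.1.le⟩
      have hbd1 : BddAbove (G ∩ Iic x) := ⟨x, fun y hy => hy.2⟩
      have hm1 : sSup (G ∩ Iic x) ∈ G ∩ Iic x := (hG.inter isClosed_Iic).csSup_mem hne1 hbd1
      have hne2 : (G ∩ Ici x).Nonempty := ⟨s0 + L, h1, hx.2.le⟩
      have hbd2 : BddBelow (G ∩ Ici x) := ⟨x, fun y hy => hy.2⟩
      have hm2 : sInf (G ∩ Ici x) ∈ G ∩ Ici x := (hG.inter isClosed_Ici).csInf_mem hne2 hbd2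
      have hlt1 : sSup (G ∩ Iic x) < x := by
        refine lt_of_le_of_ne hm1.2 fun h => hxG ?_
        rw [← h]
        exact hm1.1
      have hlt2 : x < sInf (G ∩ Ici x) := by
        refine lt_of_le_of_ne hm2.2 fun h => hxG ?_
        rw [h]
        exact hm2.1
      rw [Set.mem_iUnion₂]
      refine ⟨(sSup (G ∩ Iic x), sInf (G ∩ Ici x)), ⟨?_, hlt1.trans hlt2, ?_, hm1.1, hm2.1, ?_⟩,
        hlt1, hlt2⟩
      · exact le_csSup hbd1 ⟨h0, hx.1.le⟩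
      · exact csInf_le hbd2 ⟨h1, hx.2.le⟩
      · rw [Set.disjoint_left]
        intro y hy hyG
        rcases le_total y x with h | h
        · exact absurd (le_csSup hbd1 ⟨hyG, h⟩) (not_le.2 hy.1)
        · exact absurd (csInf_le hbd2 ⟨hyG, h⟩) (not_le.2 hy.2)
    · intro hx
      rw [Set.mem_iUnion₂] at hx
      obtain ⟨c, hc, hxc⟩ := hx
      refine ⟨⟨hc.1.trans_lt hxc.1, hxc.2.trans_le hc.2.2.1⟩, fun hxG => ?_⟩
      exact Set.disjoint_left.1 hc.2.2.2.2.2 hxc hxG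

end Pool.Agent.Work.MP_655153_lb
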