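import Pool.Agent.Work.MP_655153_lb.Interface
import Pool.Agent.Work.MP_655153_lb.Chg

/-!
# GOOD
-/

open MeasureTheory Set
open scoped ENNReal

namespace Pool.Agent.Work.MP_655153_lb

namespace GoodB

theorem vol_le {l h x y : ℝ} {s : Set ℝ} (hs : s ⊆ Icc x y) :
    volume (s ∩ Icc l h) ≤ ENNReal.ofReal (max 0 (min h y - max l x)) := by
  have h1 : s ∩ Icc l h ⊆ Icc (max l x) (min h y) := by
    rintro z ⟨hz, hz'⟩
    have := hs hz
    exact ⟨max_le hz'.1 this.1, le_min hz'.2 this.2⟩
  refine (measure_mono h1).trans ?_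
  rw [Real.volume_Icc]
  exact ENNReal.ofReal_le_ofReal (le_max_right _ _)

theorem lint_le (hMU : Stmt_MU) {n : ℕ} (a e : Fin n → ℂ) (p : ℂ) (θ x y : ℝ) (I : Set ℝ)
    (hI : MeasurableSet I) (hIs : ∀ u, u - pr θ p ∈ I → u ∈ Icc x y) :
    ∫⁻ z in {z : ℂ × ℂ | pr θ (z.1 - p) ∈ I}, ENNReal.ofReal |pr θ z.2| ∂(mu a e)
      ≤ ENNReal.ofReal (mass a e θ x y) := by
  obtain ⟨-, h2, -, -⟩ := hMU n a e
  have hm1 : Measurable fun z : ℂ × ℂ => pr θ (z.1 - p) :=
    (continuous_pr_right θ).measurable.comp (measurable_fst.sub_const p)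
  have hS : MeasurableSet {z : ℂ × ℂ | pr θ (z.1 - p) ∈ I} := hm1 hI
  have hm2 : Measurable fun z : ℂ × ℂ => ENNReal.ofReal |pr θ z.2| :=
    ENNReal.measurable_ofReal.comp
      ((continuous_pr_right θ).measurable.comp measurable_snd).abs
  rw [← lintegral_indicator hS, h2 _ (hm2.indicator hS)]
  set J : Set ℝ := {u | u - pr θ p ∈ I} with hJ
  have hJm : MeasurableSet J := (measurable_id.sub_const (pr θ p)) hI
  have hF : Measurable (J.indicator (fun _ => (1 : ℝ≥0∞))) := measurable_const.indicator hJm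
  have key : ∀ j, ∫⁻ t in Icc (0 : ℝ) 1,
      ({z : ℂ × ℂ | pr θ (z.1 - p) ∈ I}.indicator fun z => ENNReal.ofReal |pr θ z.2|)
        (pt a e j t, e j)
      ≤ ENNReal.ofReal (max 0 (min (hi a e θ j) y - max (lo a e θ j) x)) := by
    intro j
    have e1 : ∀ t : ℝ,
        ({z : ℂ × ℂ | pr θ (z.1 - p) ∈ I}.indicator fun z => ENNReal.ofReal |pr θ z.2|)
          (pt a e j t, e j)
        = ENNReal.ofReal |pr θ (e j)| * J.indicator (fun _ => (1 : ℝ≥0∞)) (pr θ (pt a e j t)) := by
      intro t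
      by_cases h : pr θ (pt a e j t - p) ∈ I
      · have h' : pr θ (pt a e j t) ∈ J := by
          change pr θ (pt a e j t) - pr θ p ∈ I
          rw [← pr_sub]; exact h
        rw [indicator_of_mem (by exact h), indicator_of_mem h', mul_one]
      · have h' : pr θ (pt a e j t) ∉ J := by
          change ¬ (pr θ (pt a e j t) - pr θ p ∈ I)
          rw [← pr_sub]; exact h
        rw [indicator_of_notMem (by exact h), indicator_of_notMem h', mul_zero]
    rw [lintegral_congr e1, chg_lint a e j θ hF, lintegral_indicator hJm, setLIntegral_one,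
      Measure.restrict_apply hJm]
    exact vol_le hIs
  refine (Finset.sum_le_sum fun j _ => key j).trans ?_
  rw [← ENNReal.ofReal_sum_of_nonneg (fun j _ => le_max_left _ _)]
  exact le_rfl

end GoodB

open GoodB in
theorem blk_GOOD (hMU : Stmt_MU) : Stmt_GOOD := by
  intro n a e p θ hO d hd
  rcases hd.eq_or_lt with rfl | hd0
  · simp
  · have hO' : ¬ ((199 / 100 * d < mass a e θ (pr θ p) (pr θ p + d)) ∨
        199 / 100 * d < mass a e θ (pr θ p - d) (pr θ p)) := fun h => hO ⟨d, hd0, h⟩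
    rw [not_or, not_lt, not_lt] at hO'
    constructor
    · refine (lint_le hMU a e p θ (pr θ p) (pr θ p + d) _ measurableSet_Ioc ?_).trans
        (ENNReal.ofReal_le_ofReal hO'.1)
      rintro u ⟨h1, h2⟩
      constructor <;> linarith
    · refine (lint_le hMU a e p θ (pr θ p - d) (pr θ p) _ measurableSet_Ico ?_).trans
        (ENNReal.ofReal_le_ofReal hO'.2)
      rintro u ⟨h1, h2⟩
      constructor <;> linarith

end Pool.Agent.Work.MP_655153_lb
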