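import Pool.Agent.Work.MP_655153_lb.Interface

/-!
# Block K: mass of the points between two lines through `p`
-/

open MeasureTheory Set
open scoped ENNReal

namespace Pool.Agent.Work.MP_655153_lb

namespace K

/-- sum of two suprema -/
theorem sSup_add_le {A B : Set ℝ} {c : ℝ} (hc : 0 ≤ c) (hA : ∀ x ∈ A, x ≤ c)
    (hB : ∀ x ∈ B, x ≤ c) (hAB : ∀ x ∈ A, ∀ y ∈ B, x + y ≤ c) : sSup A + sSup B ≤ c := by
  rcases A.eq_empty_or_nonempty with rfl | hAn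
  · rw [Real.sSup_empty, zero_add]
    exact Real.sSup_le hB hc
  rcases B.eq_empty_or_nonempty with rfl | hBn
  · rw [Real.sSup_empty, add_zero]
    exact Real.sSup_le hA hc
  have h1 : ∀ x ∈ A, sSup B ≤ c - x := by
    intro x hx
    exact csSup_le hBn fun y hy => by linarith [hAB x hx y hy]
  have h2 : sSup A ≤ c - sSup B := csSup_le hAn fun x hx => by linarith [h1 x hx]
  linarith

end K

/-- **K** -/
theorem blk_K : Stmt_K := by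
  intro μ p s t hp hG
  obtain ⟨P, hP⟩ : ∃ P : Set ℝ, P = (fun w : ℂ => pr s (w - p)) ''
    {w : ℂ | ‖w‖ ≤ 11 / 10 ∧ 0 < pr s (w - p) ∧ pr t (w - p) < 0} := ⟨_, rfl⟩
  obtain ⟨Q, hQ⟩ : ∃ Q : Set ℝ, Q = (fun w : ℂ => - pr s (w - p)) ''
    {w : ℂ | ‖w‖ ≤ 11 / 10 ∧ pr s (w - p) < 0 ∧ 0 < pr t (w - p)} := ⟨_, rfl⟩
  have hc : 0 ≤ 11 / 5 * |t - s| := by positivity
  have hlip : ∀ v : ℂ, ‖v‖ ≤ 11 / 5 → |pr s v - pr t v| ≤ 11 / 5 * |t - s| := by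
    intro v hv
    have h1 := abs_pr_sub_le s t v
    rw [abs_sub_comm s t] at h1
    exact h1.trans (mul_le_mul_of_nonneg_right hv (abs_nonneg _))
  have hnorm : ∀ w w' : ℂ, ‖w‖ ≤ 11 / 10 → ‖w'‖ ≤ 11 / 10 → ‖w - w'‖ ≤ 11 / 5 := by
    intro w w' h1 h2
    have := norm_sub_le w w'
    linarith
  have hP1 : ∀ x ∈ P, 0 ≤ x ∧ x ≤ 11 / 5 * |t - s| := by
    intro x hx
    rw [hP] at hx
    obtain ⟨w, ⟨hw, h1, h2⟩, rfl⟩ := hx
    have h3 := (abs_le.1 (hlip (w - p) (hnorm w p hw hp))).2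
    refine ⟨h1.le, ?_⟩
    show pr s (w - p) ≤ _
    linarith
  have hQ1 : ∀ x ∈ Q, 0 ≤ x ∧ x ≤ 11 / 5 * |t - s| := by
    intro x hx
    rw [hQ] at hx
    obtain ⟨w, ⟨hw, h1, h2⟩, rfl⟩ := hx
    have h3 := (abs_le.1 (hlip (w - p) (hnorm w p hw hp))).1
    refine ⟨by show 0 ≤ - pr s (w - p); linarith, ?_⟩
    show - pr s (w - p) ≤ _
    linarith
  have hPQ : ∀ x ∈ P, ∀ y ∈ Q, x + y ≤ 11 / 5 * |t - s| := by
    intro x hx y hy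
    rw [hP] at hx
    rw [hQ] at hy
    obtain ⟨w, ⟨hw, h1, h2⟩, rfl⟩ := hx
    obtain ⟨w', ⟨hw', h1', h2'⟩, rfl⟩ := hy
    have h3 := (abs_le.1 (hlip (w - w') (hnorm w w' hw hw'))).2
    have e : w - w' = (w - p) - (w' - p) := by ring
    rw [e, pr_sub s, pr_sub t] at h3
    show pr s (w - p) + - pr s (w' - p) ≤ _
    linarith
  have hbP : BddAbove P := ⟨_, fun x hx => (hP1 x hx).2⟩
  have hbQ : BddAbove Q := ⟨_, fun x hx => (hQ1 x hx).2⟩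
  have hD0 : 0 ≤ sSup P := Real.sSup_nonneg fun x hx => (hP1 x hx).1
  have hD0' : 0 ≤ sSup Q := Real.sSup_nonneg fun x hx => (hQ1 x hx).1
  have hsum : sSup P + sSup Q ≤ 11 / 5 * |t - s| :=
    K.sSup_add_le hc (fun x hx => (hP1 x hx).2) (fun x hx => (hQ1 x hx).2) hPQ
  have hsub : {z : ℂ × ℂ | ‖z.1‖ ≤ 11 / 10 ∧ pr s (z.1 - p) * pr t (z.1 - p) < 0} ⊆
      {z : ℂ × ℂ | pr s (z.1 - p) ∈ Ioc 0 (sSup P)} ∪
      {z : ℂ × ℂ | pr s (z.1 - p) ∈ Ico (-(sSup Q)) 0} := by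
    rintro z ⟨hz, hlt⟩
    rcases mul_neg_iff.1 hlt with ⟨h1, h2⟩ | ⟨h1, h2⟩
    · left
      refine ⟨h1, le_csSup hbP ?_⟩
      rw [hP]
      exact ⟨z.1, ⟨hz, h1, h2⟩, rfl⟩
    · right
      refine ⟨?_, h1⟩
      have : - pr s (z.1 - p) ≤ sSup Q := by
        apply le_csSup hbQ
        rw [hQ]
        exact ⟨z.1, ⟨hz, h1, h2⟩, rfl⟩
      linarith
  calc ∫⁻ z in {z : ℂ × ℂ | ‖z.1‖ ≤ 11 / 10 ∧ pr s (z.1 - p) * pr t (z.1 - p) < 0},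
        ENNReal.ofReal |pr s z.2| ∂μ
      ≤ ∫⁻ z in {z : ℂ × ℂ | pr s (z.1 - p) ∈ Ioc 0 (sSup P)} ∪
        {z : ℂ × ℂ | pr s (z.1 - p) ∈ Ico (-(sSup Q)) 0}, ENNReal.ofReal |pr s z.2| ∂μ :=
        lintegral_mono_set hsub
    _ ≤ ∫⁻ z in {z : ℂ × ℂ | pr s (z.1 - p) ∈ Ioc 0 (sSup P)}, ENNReal.ofReal |pr s z.2| ∂μ
        + ∫⁻ z in {z : ℂ × ℂ | pr s (z.1 - p) ∈ Ico (-(sSup Q)) 0},
          ENNReal.ofReal |pr s z.2| ∂μ := lintegral_union_le _ _ _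
    _ ≤ ENNReal.ofReal (199 / 100 * sSup P) + ENNReal.ofReal (199 / 100 * sSup Q) :=
        add_le_add (hG _ hD0).1 (hG _ hD0').2
    _ = ENNReal.ofReal (199 / 100 * sSup P + 199 / 100 * sSup Q) :=
        (ENNReal.ofReal_add (by positivity) (by positivity)).symm
    _ ≤ ENNReal.ofReal (2189 / 500 * |t - s|) := ENNReal.ofReal_le_ofReal (by linarith)

end Pool.Agent.Work.MP_655153_lb
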