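import Pool.Agent.Work.MP_655153_lb.Interface

/-!
# Block KER: the kernel inequality
-/

open MeasureTheory Set

namespace Pool.Agent.Work.MP_655153_lb

namespace KER

theorem phi_small {X : ℝ} (h : X ≤ 1) : phi X = 1 / 6 - (1 - X) ^ 3 / 3 := by
  unfold phi; rw [max_eq_right (by linarith)]

theorem phi_big {X : ℝ} (h : 1 ≤ X) : phi X = 1 / 6 := by
  unfold phi; rw [max_eq_left (by linarith)]; norm_num

theorem small {X Y : ℝ} (hX : 0 ≤ X) (hY : 0 ≤ Y) (hX1 : X ≤ 1) (hY1 : Y ≤ 1) :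
    (X + Y) * (phi X + phi Y) ≤ X * Y := by
  rw [phi_small hX1, phi_small hY1]
  have h1 : X ^ 2 ≤ X := by
    have := mul_le_mul_of_nonneg_left hX1 hX
    rw [mul_one] at this
    linarith [sq X]
  have h2 : Y ^ 2 ≤ Y := by
    have := mul_le_mul_of_nonneg_left hY1 hY
    rw [mul_one] at this
    linarith [sq Y]
  have h3 : 0 ≤ X * Y := mul_nonneg hX hY
  have h4 : 0 ≤ 3 * X * Y - (X + Y) * (X + Y - 1) := by
    have e : (X + Y) * (X + Y - 1) = X ^ 2 + Y ^ 2 + 2 * (X * Y) - X - Y := by ring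
    rw [e]; linarith
  have h5 : 3 * (X * Y - (X + Y) * (1 / 6 - (1 - X) ^ 3 / 3 + (1 / 6 - (1 - Y) ^ 3 / 3)))
      = (1 - (X + Y)) ^ 2 * (3 * X * Y - (X + Y) * (X + Y - 1)) := by ring
  have h6 := mul_nonneg (sq_nonneg (1 - (X + Y))) h4
  linarith

theorem mid {X Y : ℝ} (hY : 0 ≤ Y) (hX1 : 1 ≤ X) (hY1 : Y ≤ 1) :
    (X + Y) * (phi X + phi Y) ≤ X * Y := by
  have h1 := small (X := 1) (Y := Y) (by norm_num) hY le_rfl hY1
  rw [phi_big le_rfl] at h1
  rw [phi_big hX1]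
  have h2 : 1 / 6 + phi Y ≤ Y := by
    by_cases h : 0 ≤ 1 / 6 + phi Y
    · have := mul_nonneg hY h
      linarith
    · linarith
  have h3 := mul_le_mul_of_nonneg_left h2 (by linarith : (0 : ℝ) ≤ X - 1)
  linarith

theorem all {X Y : ℝ} (hX : 0 ≤ X) (hY : 0 ≤ Y) :
    (X + Y) * (phi X + phi Y) ≤ X * Y := by
  rcases le_total X 1 with hX1 | hX1 <;> rcases le_total Y 1 with hY1 | hY1
  · exact small hX hY hX1 hY1
  · have := mid hX hY1 hX1
    linarith
  · exact mid hY hX1 hY1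
  · rw [phi_big hX1, phi_big hY1]
    have h1 := mul_nonneg (sub_nonneg.2 hX1) (sub_nonneg.2 hY1)
    have h2 := mul_le_mul_of_nonneg_left hY1 hX
    have h3 := mul_le_mul_of_nonneg_left hX1 hY
    linarith

/-- the plane identity -/
theorem det_le (f g v : ℂ) : |det f g| * ‖v‖ ≤ |det f v| * ‖g‖ + |det g v| * ‖f‖ := by
  have h : ((det f g : ℝ) : ℂ) * v = ((det f v : ℝ) : ℂ) * g - ((det g v : ℝ) : ℂ) * f := by
    apply Complex.ext
    · rw [Complex.sub_re, Complex.re_ofReal_mul, Complex.re_ofReal_mul, Complex.re_ofReal_mul]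
      unfold det; ring
    · rw [Complex.sub_im, Complex.im_ofReal_mul, Complex.im_ofReal_mul, Complex.im_ofReal_mul]
      unfold det; ring
  have h2 := norm_sub_le (((det f v : ℝ) : ℂ) * g) (((det g v : ℝ) : ℂ) * f)
  rw [← h, norm_mul, norm_mul, norm_mul, Complex.norm_real, Complex.norm_real, Complex.norm_real,
    Real.norm_eq_abs, Real.norm_eq_abs, Real.norm_eq_abs] at h2
  exact h2

end KER

/-- **KER** -/
theorem blk_KER : Stmt_KER := by
  intro f g v hv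
  have hk := ker_nonneg f v g
  by_cases hd : det f g = 0
  · rw [hd, abs_zero, zero_mul]; positivity
  have hf : 0 < ‖f‖ := by
    rw [norm_pos_iff]; rintro rfl; apply hd; unfold det; simp
  have hg : 0 < ‖g‖ := by
    rw [norm_pos_iff]; rintro rfl; apply hd; unfold det; simp
  obtain ⟨X, hX⟩ : ∃ X, X = |det f v| / ‖f‖ := ⟨_, rfl⟩
  obtain ⟨Y, hY⟩ : ∃ Y, Y = |det g v| / ‖g‖ := ⟨_, rfl⟩
  have hX0 : 0 ≤ X := by rw [hX]; positivity
  have hY0 : 0 ≤ Y := by rw [hY]; positivity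
  have eX : |det f v| = X * ‖f‖ := by rw [hX]; field_simp
  have eY : |det g v| = Y * ‖g‖ := by rw [hY]; field_simp
  rw [← hX, ← hY]
  by_cases hP : phi X + phi Y ≤ 0
  · have := mul_nonpos_of_nonneg_of_nonpos (abs_nonneg (det f g)) hP
    linarith
  push Not at hP
  have hv0 : v ≠ 0 := by
    rintro rfl
    have e1 : X = 0 := by rw [hX]; unfold det; simp
    have e2 : Y = 0 := by rw [hY]; unfold det; simp
    rw [e1, e2, KER.phi_small (by norm_num)] at hP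
    norm_num at hP
  have hr : 0 < ‖v‖ := norm_pos_iff.2 hv0
  have h1 := KER.det_le f g v
  rw [eX, eY] at h1
  have h2 := mul_le_mul_of_nonneg_right h1 hP.le
  have h3 := mul_le_mul_of_nonneg_left (KER.all hX0 hY0) (mul_pos hf hg).le
  have h4 : |det f g| * (phi X + phi Y) * ‖v‖ ≤ X * ‖f‖ * (Y * ‖g‖) := by
    calc |det f g| * (phi X + phi Y) * ‖v‖ = |det f g| * ‖v‖ * (phi X + phi Y) := by ring
      _ ≤ (X * ‖f‖ * ‖g‖ + Y * ‖g‖ * ‖f‖) * (phi X + phi Y) := h2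
      _ = ‖f‖ * ‖g‖ * ((X + Y) * (phi X + phi Y)) := by ring
      _ ≤ ‖f‖ * ‖g‖ * (X * Y) := h3
      _ = X * ‖f‖ * (Y * ‖g‖) := by ring
  unfold ker
  rw [eX, eY, ← mul_div_assoc, le_div_iff₀ (by positivity)]
  have h5 : 0 ≤ X * ‖f‖ * (Y * ‖g‖) := by positivity
  calc |det f g| * (phi X + phi Y) * ‖v‖ ^ 2
      = (|det f g| * (phi X + phi Y) * ‖v‖) * ‖v‖ := by ring
    _ ≤ (X * ‖f‖ * (Y * ‖g‖)) * ‖v‖ := mul_le_mul_of_nonneg_right h4 hr.le
    _ ≤ (X * ‖f‖ * (Y * ‖g‖)) * (11 / 5) := mul_le_mul_of_nonneg_left hv h5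
    _ = _ := by ring

end Pool.Agent.Work.MP_655153_lb
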