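import Pool.Agent.Work.MP_655153_lb.Interface

/-!
# Block LAY: layer cake comparison
-/

open MeasureTheory Set
open scoped ENNReal

namespace Pool.Agent.Work.MP_655153_lb

/-- **LAY** -/
theorem blk_LAY : Stmt_LAY := by
  intro κ C T Ψ hC hT hκ hanti hnn
  have hantio : AntitoneOn Ψ (Ioo 0 T) := hanti.mono Ioo_subset_Icc_self
  have hms : MeasurableSet (Ioo (0 : ℝ) T) := measurableSet_Ioo
  have h1 : ∀ ν : Measure ℝ, ∫⁻ t in Ioo 0 T, ENNReal.ofReal (Ψ t) ∂ν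
      = ∫⁻ l in Ioi (0 : ℝ), (ν.restrict (Ioo 0 T)) {a : ℝ | l < Ψ a} := by
    intro ν
    apply lintegral_eq_lintegral_meas_lt
    · exact (ae_restrict_iff' hms).2 (Filter.Eventually.of_forall fun t ht =>
        hnn t (Ioo_subset_Icc_self ht))
    · exact aemeasurable_restrict_of_antitoneOn hms hantio
  rw [h1 κ, h1 volume, ← lintegral_const_mul' _ _ ENNReal.ofReal_ne_top]
  refine lintegral_mono fun l => ?_
  show (κ.restrict (Ioo 0 T)) {a : ℝ | l < Ψ a}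
    ≤ ENNReal.ofReal C * (volume.restrict (Ioo 0 T)) {a : ℝ | l < Ψ a}
  rw [Measure.restrict_apply' hms, Measure.restrict_apply' hms]
  obtain ⟨U, hU⟩ : ∃ U : Set ℝ, U = {a : ℝ | l < Ψ a} ∩ Ioo 0 T := ⟨_, rfl⟩
  rw [← hU]
  rcases U.eq_empty_or_nonempty with hE | hne
  · rw [hE, measure_empty, measure_empty, mul_zero]
  have hUm : ∀ t, t ∈ U ↔ l < Ψ t ∧ 0 < t ∧ t < T := by
    intro t; rw [hU]; exact Iff.rfl
  have hini : ∀ t ∈ U, ∀ u, 0 < u → u ≤ t → u ∈ U := by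
    intro t ht u hu hut
    obtain ⟨a1, a2, a3⟩ := (hUm t).1 ht
    exact (hUm u).2 ⟨lt_of_lt_of_le a1 (hantio ⟨hu, by linarith⟩ ⟨a2, a3⟩ hut), hu, by linarith⟩
  have hbd : BddAbove U := ⟨T, fun t ht => ((hUm t).1 ht).2.2.le⟩
  obtain ⟨b, hb⟩ : ∃ b, b = sSup U := ⟨_, rfl⟩
  have hbT : b ≤ T := by rw [hb]; exact csSup_le hne fun t ht => ((hUm t).1 ht).2.2.le
  have hb0 : 0 < b := by
    obtain ⟨t, ht⟩ := hne
    exact lt_of_lt_of_le ((hUm t).1 ht).2.1 (by rw [hb]; exact le_csSup hbd ht)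
  have hsub1 : Ioo 0 b ⊆ U := by
    intro u hu
    have h2 : u < sSup U := by rw [← hb]; exact hu.2
    obtain ⟨t, ht, hut⟩ := exists_lt_of_lt_csSup hne h2
    exact hini t ht u hu.1 hut.le
  have hsub2 : U ⊆ Ioc 0 b := fun t ht => ⟨((hUm t).1 ht).2.1, by rw [hb]; exact le_csSup hbd ht⟩
  have hvol : ENNReal.ofReal b ≤ volume U := by
    calc ENNReal.ofReal b = volume (Ioo 0 b) := by rw [Real.volume_Ioo, sub_zero]
      _ ≤ volume U := measure_mono hsub1
  have hk : κ U ≤ ENNReal.ofReal (C * b) := by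
    rcases hbT.eq_or_lt with h | h
    · have hs : U ⊆ Ioo 0 T := fun t ht => ((hUm t).1 ht).2
      rw [h]
      exact (measure_mono hs).trans (hκ T ⟨hT, le_rfl⟩)
    · have hcont : Filter.Tendsto (fun t => ENNReal.ofReal (C * t)) (nhdsWithin b (Ioi b))
          (nhds (ENNReal.ofReal (C * b))) := by
        apply Filter.Tendsto.mono_left _ nhdsWithin_le_nhds
        exact (ENNReal.continuous_ofReal.comp (continuous_const.mul continuous_id)).tendsto b
      refine ge_of_tendsto hcont ?_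
      have hev : ∀ᶠ t in nhdsWithin b (Ioi b), t ∈ Ioo b T := Ioo_mem_nhdsGT h
      filter_upwards [hev] with t ht
      have hs : U ⊆ Ioo 0 t := fun u hu => ⟨(hsub2 hu).1, lt_of_le_of_lt (hsub2 hu).2 ht.1⟩
      exact (measure_mono hs).trans (hκ t ⟨hb0.trans ht.1, ht.2.le⟩)
  calc κ U ≤ ENNReal.ofReal (C * b) := hk
    _ = ENNReal.ofReal C * ENNReal.ofReal b := ENNReal.ofReal_mul hC
    _ ≤ ENNReal.ofReal C * volume U := mul_le_mul_right hvol _

end Pool.Agent.Work.MP_655153_lb
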