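import Pool.Agent.Work.MP_655153_lb.Interface

open MeasureTheory Set

namespace Pool.Agent.Work.MP_655153_lb

theorem blk_LEN : Stmt_LEN := by
  intro n e
  unfold wid len
  rw [intervalIntegral.integral_finsetSum]
  · simp only [integral_abs_pr]
    rw [Finset.mul_sum]
  · intro i _
    exact ((continuous_pr_left (e i)).abs).intervalIntegrable _ _

end Pool.Agent.Work.MP_655153_lb
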