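import Pool.Agent.Work.MP_655153_lb.Interface

/-!
# Block LGX: a long excursion
-/

open MeasureTheory Set
open scoped ENNReal

namespace Pool.Agent.Work.MP_655153_lb

theorem blk_LGX (h : Stmt_LONG) : Stmt_LGX := by
  intro μ p f s T hf hT hμ
  set I : ℝ := ∫ θ in s..(s + T), |pr θ f| with hI
  have hI0 : 0 ≤ I := by
    rw [hI]
    apply intervalIntegral.integral_nonneg (by linarith)
    intro θ _
    exact abs_nonneg _
  obtain ⟨c, hc⟩ := exists_polar f
  have hpr : ∀ θ, |pr θ f| = |Real.sin (θ - c)| := by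
    intro θ; rw [hc, hf, one_mul]
  have hint : ∫ x in (0 : ℝ)..T, |Real.sin (x - (c - s))| = I := by
    rw [hI]
    simp only [hpr]
    have h1 := intervalIntegral.integral_comp_add_left (fun θ => |Real.sin (θ - c)|) s
      (a := 0) (b := T)
    rw [add_zero] at h1
    rw [← h1]
    apply intervalIntegral.integral_congr
    intro x _
    simp only
    congr 2
    ring
  have hlong : ∀ θ ∈ Ioo s (s + T), |pr θ f| ≤ 123 / 50 * I := by
    intro θ hθ
    have := h (c - s) T hT (θ - s) ⟨by linarith [hθ.1], by linarith [hθ.2]⟩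
    rw [hint] at this
    rw [hpr]
    have e : θ - c = θ - s - (c - s) := by ring
    rw [e]; exact this
  set S : Set (ℂ × ℂ) :=
    {z : ℂ × ℂ | ‖z.1‖ ≤ 11 / 10 ∧ pr s (z.1 - p) * pr (s + T) (z.1 - p) < 0} with hS
  have hSm : MeasurableSet S := by
    have h1 : Continuous fun z : ℂ × ℂ => pr s (z.1 - p) :=
      (continuous_pr_right s).comp (by fun_prop)
    have h2 : Continuous fun z : ℂ × ℂ => pr (s + T) (z.1 - p) :=
      (continuous_pr_right (s + T)).comp (by fun_prop)
    have h3 : Measurable fun z : ℂ × ℂ => ‖z.1‖ := by fun_prop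
    exact (measurableSet_le h3 measurable_const).inter
      (measurableSet_lt (h1.mul h2).measurable measurable_const)
  calc ∫⁻ z in S, ENNReal.ofReal (ker f (z.1 - p) z.2) ∂μ
      ≤ ∫⁻ z in S, ENNReal.ofReal (123 / 50 * I) * ENNReal.ofReal ‖z.2‖ ∂μ := by
        refine setLIntegral_mono' hSm ?_
        intro z hz
        obtain ⟨θ, hθ, hθ0⟩ := exists_zero (by linarith) hz.2
        have hv : z.1 - p ≠ 0 := by
          intro h0
          have := hz.2
          rw [h0, pr_zero, zero_mul] at this
          exact lt_irrefl _ this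
        rw [← ENNReal.ofReal_mul (by positivity), ker_eq hv hθ0]
        apply ENNReal.ofReal_le_ofReal
        exact mul_le_mul (hlong θ hθ) (abs_pr_le _ _) (abs_nonneg _) (by positivity)
    _ ≤ ∫⁻ z, ENNReal.ofReal (123 / 50 * I) * ENNReal.ofReal ‖z.2‖ ∂μ :=
        setLIntegral_le_lintegral _ _
    _ = ENNReal.ofReal (123 / 50 * I) * ∫⁻ z, ENNReal.ofReal ‖z.2‖ ∂μ := by
        rw [lintegral_const_mul]
        exact ENNReal.measurable_ofReal.comp (by fun_prop)
    _ ≤ ENNReal.ofReal (123 / 50 * I) * ENNReal.ofReal (63 / 20) := by gcongr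
    _ = ENNReal.ofReal (123 / 50 * I * (63 / 20)) := by
        rw [← ENNReal.ofReal_mul (by positivity)]
    _ ≤ ENNReal.ofReal (31 / 4 * I) := by
        apply ENNReal.ofReal_le_ofReal
        nlinarith

end Pool.Agent.Work.MP_655153_lb
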