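import Pool.Agent.Work.MP_655153_lb.Interface

/-!
# Beam detection constant, block LOW: the lower bound for `DD`
-/

open MeasureTheory Set
open scoped ENNReal

namespace Pool.Agent.Work.MP_655153_lb

namespace LOW

/-- the part of the segment in the disc of radius `1.1` -/
def SS {n : ℕ} (a e : Fin n → ℂ) (i : Fin n) : Set ℝ :=
  {s : ℝ | s ∈ Icc 0 1 ∧ ‖pt a e i s‖ ≤ 11 / 10}

/-- the part of the segment outside the disc of radius `1.1` -/
def TT {n : ℕ} (a e : Fin n → ℂ) (i : Fin n) : Set ℝ :=
  {s : ℝ | s ∈ Icc 0 1 ∧ 11 / 10 < ‖pt a e i s‖}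

theorem measurable_SS {n : ℕ} (a e : Fin n → ℂ) (i : Fin n) : MeasurableSet (SS a e i) := by
  have h : SS a e i = Icc 0 1 ∩ (fun s => ‖pt a e i s‖) ⁻¹' (Iic (11 / 10)) := rfl
  rw [h]
  exact measurableSet_Icc.inter ((continuous_pt a e i).norm.measurable measurableSet_Iic)

theorem measurable_TT {n : ℕ} (a e : Fin n → ℂ) (i : Fin n) : MeasurableSet (TT a e i) := by
  have h : TT a e i = Icc 0 1 ∩ (fun s => ‖pt a e i s‖) ⁻¹' (Ioi (11 / 10)) := rfl
  rw [h]
  exact measurableSet_Icc.inter ((continuous_pt a e i).norm.measurable measurableSet_Ioi)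

theorem union_ST {n : ℕ} (a e : Fin n → ℂ) (i : Fin n) : SS a e i ∪ TT a e i = Icc 0 1 := by
  ext s
  simp only [SS, TT, mem_union, mem_setOf_eq]
  constructor
  · rintro (h | h)
    · exact h.1
    · exact h.1
  · intro h
    rcases le_or_gt ‖pt a e i s‖ (11 / 10) with h1 | h1
    · exact Or.inl ⟨h, h1⟩
    · exact Or.inr ⟨h, h1⟩

theorem disj_ST {n : ℕ} (a e : Fin n → ℂ) (i : Fin n) : Disjoint (SS a e i) (TT a e i) := by
  rw [Set.disjoint_left]
  intro s h1 h2
  exact absurd h1.2 (not_le.2 h2.2)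

theorem vol_SS_lt {n : ℕ} (a e : Fin n → ℂ) (i : Fin n) : volume (SS a e i) < ⊤ := by
  refine (measure_mono (fun s hs => hs.1 : SS a e i ⊆ Icc 0 1)).trans_lt ?_
  rw [Real.volume_Icc]; exact ENNReal.ofReal_lt_top

theorem vol_TT_lt {n : ℕ} (a e : Fin n → ℂ) (i : Fin n) : volume (TT a e i) < ⊤ := by
  refine (measure_mono (fun s hs => hs.1 : TT a e i ⊆ Icc 0 1)).trans_lt ?_
  rw [Real.volume_Icc]; exact ENNReal.ofReal_lt_top

theorem real_SS {n : ℕ} (a e : Fin n → ℂ) (i : Fin n) :
    (volume (SS a e i)).toReal = 1 - (volume (TT a e i)).toReal := by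
  have h1 := measure_union (disj_ST a e i) (measurable_TT a e i) (μ := volume)
  rw [union_ST, Real.volume_Icc] at h1
  have h2 := congrArg ENNReal.toReal h1
  rw [ENNReal.toReal_add (vol_SS_lt a e i).ne (vol_TT_lt a e i).ne,
    ENNReal.toReal_ofReal (by norm_num)] at h2
  linarith

theorem ofReal_integral_le {α : Type*} [MeasurableSpace α] {μ : Measure α} {f : α → ℝ}
    (hf : Integrable f μ) : ENNReal.ofReal (∫ x, f x ∂μ) ≤ ∫⁻ x, ENNReal.ofReal (f x) ∂μ := by
  rw [integral_eq_lintegral_pos_part_sub_lintegral_neg_part hf]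
  refine (ENNReal.ofReal_le_ofReal (sub_le_self _ ENNReal.toReal_nonneg)).trans ?_
  exact ENNReal.ofReal_toReal_le

/-- the lower bound for the kernel -/
noncomputable def Ph {n : ℕ} (a e : Fin n → ℂ) (i j : Fin n) (s t : ℝ) : ℝ :=
  |det (e i) (e j)| * phi (|det (e i) (pt a e j t - pt a e i s)| / ‖e i‖)

theorem continuous_Ph {n : ℕ} (a e : Fin n → ℂ) (i j : Fin n) :
    Continuous (fun p : ℝ × ℝ => Ph a e i j p.1 p.2) := by
  have h1 : Continuous (fun p : ℝ × ℝ => det (e i) (pt a e j p.2 - pt a e i p.1)) := by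
    unfold det pt; fun_prop
  unfold Ph
  exact continuous_const.mul (continuous_phi.comp (h1.abs.div_const _))

theorem abs_Ph_le {n : ℕ} (a e : Fin n → ℂ) (i j : Fin n) (s t : ℝ) :
    |Ph a e i j s t| ≤ |det (e i) (e j)| * (1 / 6) := by
  unfold Ph
  rw [abs_mul, abs_abs]
  exact mul_le_mul_of_nonneg_left (abs_phi_le (by positivity)) (abs_nonneg _)

theorem Ph_le {n : ℕ} (a e : Fin n → ℂ) (i j : Fin n) (s t : ℝ) :
    Ph a e i j s t ≤ |det (e i) (e j)| * (1 / 6) := by
  unfold Ph
  exact mul_le_mul_of_nonneg_left (phi_le _) (abs_nonneg _)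

theorem Ph_symm {n : ℕ} (a e : Fin n → ℂ) (i j : Fin n) (s t : ℝ) :
    Ph a e j i t s = |det (e i) (e j)| * phi (|det (e j) (pt a e j t - pt a e i s)| / ‖e j‖) := by
  unfold Ph
  rw [det_comm (e j) (e i), abs_neg]
  congr 3
  rw [det_sub_right, det_sub_right, abs_sub_comm]

theorem integrable_Ph {n : ℕ} (a e : Fin n → ℂ) (i j : Fin n) (μ ν : Measure ℝ)
    [IsFiniteMeasure μ] [IsFiniteMeasure ν] :
    Integrable (fun p : ℝ × ℝ => Ph a e i j p.1 p.2) (μ.prod ν) := by
  refine Integrable.of_bound (continuous_Ph a e i j).aestronglyMeasurable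
    (|det (e i) (e j)| * (1 / 6)) (Filter.Eventually.of_forall fun p => ?_)
  rw [Real.norm_eq_abs]
  exact abs_Ph_le a e i j p.1 p.2

theorem integrable_Ph_right {n : ℕ} (a e : Fin n → ℂ) (i j : Fin n) (s : ℝ) (ν : Measure ℝ)
    [IsFiniteMeasure ν] : Integrable (fun t => Ph a e i j s t) ν := by
  refine Integrable.of_bound ((continuous_Ph a e i j).comp
    (continuous_const.prodMk continuous_id)).aestronglyMeasurable
    (|det (e i) (e j)| * (1 / 6)) (Filter.Eventually.of_forall fun p => ?_)
  rw [Real.norm_eq_abs]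
  exact abs_Ph_le a e i j s p

theorem integrable_Ph_left {n : ℕ} (a e : Fin n → ℂ) (i j : Fin n) (t : ℝ) (ν : Measure ℝ)
    [IsFiniteMeasure ν] : Integrable (fun s => Ph a e i j s t) ν := by
  refine Integrable.of_bound ((continuous_Ph a e i j).comp
    (continuous_id.prodMk continuous_const)).aestronglyMeasurable
    (|det (e i) (e j)| * (1 / 6)) (Filter.Eventually.of_forall fun p => ?_)
  rw [Real.norm_eq_abs]
  exact abs_Ph_le a e i j p t

end LOW

open LOW in
theorem blk_LOW (hKER : Stmt_KER) (hPHI2 : Stmt_PHI2) (hZON : Stmt_ZON) (hWID : Stmt_WID) :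
    Stmt_LOW := by
  intro n a e ε hε hcov
  have hfin : ∀ i, IsFiniteMeasure (volume.restrict (SS a e i)) := fun i =>
    ⟨by rw [Measure.restrict_apply_univ]; exact vol_SS_lt a e i⟩
  have hfinT : ∀ i, IsFiniteMeasure (volume.restrict (TT a e i)) := fun i =>
    ⟨by rw [Measure.restrict_apply_univ]; exact vol_TT_lt a e i⟩
  set J : Fin n → Fin n → ℝ := fun i j =>
    ∫ s in SS a e i, ∫ t in SS a e j, Ph a e i j s t with hJ
  set cc : Fin n → ℝ := fun i => (volume (TT a e i)).toReal with hcc
  have hcc0 : ∀ i, 0 ≤ cc i := fun i => ENNReal.toReal_nonneg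
  have hSS : ∀ i, (volume (SS a e i)).toReal = 1 - cc i := fun i => real_SS a e i
  have hcc1 : ∀ i, 0 ≤ 1 - cc i := fun i => by rw [← hSS]; exact ENNReal.toReal_nonneg
  -- (1) `DD ≥ (10/11) J`
  have hDD : ENNReal.ofReal (∑ i, ∑ j, (5 / 11 * (J i j + J j i))) ≤ DD a e := by
    have key : ∀ i j, ENNReal.ofReal (5 / 11 * (J i j + J j i)) ≤
        ∫⁻ s in SS a e i, ∫⁻ t in SS a e j,
          ENNReal.ofReal (ker (e i) (pt a e j t - pt a e i s) (e j)) := by
      intro i j
      have hI1 : Integrable (fun s => ∫ t in SS a e j, Ph a e i j s t)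
          (volume.restrict (SS a e i)) := (integrable_Ph a e i j (volume.restrict (SS a e i))
        (volume.restrict (SS a e j))).integral_prod_left
      have hI2' := (integrable_Ph a e j i (volume.restrict (SS a e j))
        (volume.restrict (SS a e i))).swap
      have hI2 : Integrable (fun s => ∫ t in SS a e j, Ph a e j i t s)
          (volume.restrict (SS a e i)) := hI2'.integral_prod_left
      have hswap : J j i = ∫ s in SS a e i, ∫ t in SS a e j, Ph a e j i t s := by
        simp only [hJ]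
        exact integral_integral_swap (integrable_Ph a e j i (volume.restrict (SS a e j))
          (volume.restrict (SS a e i)))
      have hsum : 5 / 11 * (J i j + J j i) = ∫ s in SS a e i, 5 / 11 *
          ((∫ t in SS a e j, Ph a e i j s t) + ∫ t in SS a e j, Ph a e j i t s) := by
        rw [hswap]
        simp only [hJ]
        rw [← integral_add hI1 hI2, ← integral_const_mul]
      rw [hsum]
      refine (ofReal_integral_le ((hI1.add hI2).const_mul (5 / 11))).trans ?_
      refine setLIntegral_mono' (measurable_SS a e i) fun s hs => ?_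
      have h1 : 5 / 11 * ((∫ t in SS a e j, Ph a e i j s t) + ∫ t in SS a e j, Ph a e j i t s)
          = ∫ t in SS a e j, 5 / 11 * (Ph a e i j s t + Ph a e j i t s) := by
        rw [integral_const_mul, integral_add (integrable_Ph_right a e i j s _)
          (integrable_Ph_left a e j i s _)]
      simp only [Pi.add_apply]
      rw [h1]
      refine (ofReal_integral_le (((integrable_Ph_right a e i j s _).add
        (integrable_Ph_left a e j i s _)).const_mul (5 / 11))).trans ?_
      refine setLIntegral_mono' (measurable_SS a e j) fun t ht => ?_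
      apply ENNReal.ofReal_le_ofReal
      have hn : ‖pt a e j t - pt a e i s‖ ≤ 11 / 5 := by
        refine (norm_sub_le _ _).trans ?_
        linarith [hs.2, ht.2]
      have h2 := hKER (e i) (e j) (pt a e j t - pt a e i s) hn
      simp only [Pi.add_apply]
      rw [Ph_symm a e i j s t]
      unfold Ph
      rw [← mul_add]
      linarith
    have hsub : ∀ (ι : Type) (u : Finset ι) (g : ι → ℝ),
        ENNReal.ofReal (∑ i ∈ u, g i) ≤ ∑ i ∈ u, ENNReal.ofReal (g i) := fun ι u g =>
      Finset.le_sum_of_subadditive ENNReal.ofReal ENNReal.ofReal_zero.le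
        (fun _ _ => ENNReal.ofReal_add_le) u g
    refine (hsub _ _ _).trans ?_
    refine (Finset.sum_le_sum fun i _ => (hsub _ _ _).trans
      (Finset.sum_le_sum fun j _ => key i j)).trans ?_
    exact le_of_eq rfl
  refine le_trans (ENNReal.ofReal_le_ofReal ?_) hDD
  -- (2) rewrite the double sum
  have hsumJ : ∑ i, ∑ j, (5 / 11 * (J i j + J j i)) = 10 / 11 * ∑ i, ∑ j, J i j := by
    have h1 : ∑ i, ∑ j, J j i = ∑ i, ∑ j, J i j := Finset.sum_comm
    have h2 : ∑ i, ∑ j, (5 / 11 * (J i j + J j i))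
        = 5 / 11 * (∑ i, ∑ j, J i j + ∑ i, ∑ j, J j i) := by
      rw [← Finset.sum_add_distrib, Finset.mul_sum]
      refine Finset.sum_congr rfl fun i _ => ?_
      rw [← Finset.sum_add_distrib, Finset.mul_sum]
    rw [h2, h1]; ring
  rw [hsumJ]
  -- (3) the lower bound for each `i`
  set D : Fin n → ℝ := fun i => ∑ j, |det (e i) (e j)| with hD
  have houter : outer a e = ∑ i, ‖e i‖ * cc i := rfl
  have hout0 : 0 ≤ outer a e := by
    rw [houter]; exact Finset.sum_nonneg fun i _ => mul_nonneg (norm_nonneg _) (hcc0 i)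
  have hpoint : ∀ i s, ((3 - 2 * ε) * ‖e i‖ - D i - ‖e i‖ * outer a e) / 6 ≤
      ∑ j, ∫ t in SS a e j, Ph a e i j s t := by
    intro i s
    have h1 := hPHI2 n a e ε (pt a e i s) (e i) hε hcov
    have h2 : ∀ j, ∫ t in (0 : ℝ)..1, |det (e i) (e j)| *
        phi (|det (e i) (pt a e j t - pt a e i s)| / ‖e i‖)
        = (∫ t in SS a e j, Ph a e i j s t) + ∫ t in TT a e j, Ph a e i j s t := by
      intro j
      rw [intervalIntegral.integral_of_le zero_le_one, ← integral_Icc_eq_integral_Ioc,
        ← union_ST a e j]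
      exact setIntegral_union (disj_ST a e j) (measurable_TT a e j)
          (integrable_Ph_right a e i j s _) (integrable_Ph_right a e i j s _)
    have h3 : ∀ j, ∫ t in TT a e j, Ph a e i j s t ≤ |det (e i) (e j)| * (1 / 6) * cc j := by
      intro j
      calc ∫ t in TT a e j, Ph a e i j s t
          ≤ ∫ t in TT a e j, |det (e i) (e j)| * (1 / 6) :=
            integral_mono (integrable_Ph_right a e i j s _) (integrable_const _)
              (fun t => Ph_le a e i j s t)
        _ = |det (e i) (e j)| * (1 / 6) * cc j := by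
            rw [integral_const, smul_eq_mul, measureReal_restrict_apply_univ]
            simp only [hcc, Measure.real]; ring
    have h4 : ∑ j, |det (e i) (e j)| * (1 / 6) * cc j ≤ ‖e i‖ * outer a e / 6 := by
      rw [houter, Finset.mul_sum, Finset.sum_div]
      refine Finset.sum_le_sum fun j _ => ?_
      have := mul_le_mul_of_nonneg_right (abs_det_le (e i) (e j)) (hcc0 j)
      linarith
    have h5 : ∑ j, ∫ t in (0 : ℝ)..1, |det (e i) (e j)| *
        phi (|det (e i) (pt a e j t - pt a e i s)| / ‖e i‖)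
        = ∑ j, (∫ t in SS a e j, Ph a e i j s t) + ∑ j, ∫ t in TT a e j, Ph a e i j s t := by
      rw [← Finset.sum_add_distrib]
      exact Finset.sum_congr rfl fun j _ => h2 j
    rw [h5] at h1
    have h6 := Finset.sum_le_sum (s := Finset.univ) fun j _ => h3 j
    simp only [hD]
    linarith
  have hrow : ∀ i, (1 - cc i) * (((3 - 2 * ε) * ‖e i‖ - D i - ‖e i‖ * outer a e) / 6) ≤
      ∑ j, J i j := by
    intro i
    have h1 : ∑ j, J i j = ∫ s in SS a e i, ∑ j, ∫ t in SS a e j, Ph a e i j s t := by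
      rw [integral_finset_sum]
      intro j _
      exact (integrable_Ph a e i j (volume.restrict (SS a e i))
        (volume.restrict (SS a e j))).integral_prod_left
    rw [h1]
    calc (1 - cc i) * (((3 - 2 * ε) * ‖e i‖ - D i - ‖e i‖ * outer a e) / 6)
        = ∫ s in SS a e i, ((3 - 2 * ε) * ‖e i‖ - D i - ‖e i‖ * outer a e) / 6 := by
          rw [integral_const, smul_eq_mul, measureReal_restrict_apply_univ, Measure.real, hSS]
      _ ≤ _ := by
          apply integral_mono (integrable_const _) _ (fun s => hpoint i s)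
          exact integrable_finset_sum _ fun j _ => (integrable_Ph a e i j
            (volume.restrict (SS a e i)) (volume.restrict (SS a e j))).integral_prod_left
  have hDi : ∀ i, (2 - ε) * ‖e i‖ ≤ D i := by
    intro i
    obtain ⟨θ, hθ⟩ := exists_det_eq (e i)
    have h1 := hWID n a e ε hε hcov θ
    have h2 : D i = ‖e i‖ * wid e θ := by
      simp only [hD, wid, hθ, abs_mul, abs_norm, Finset.mul_sum]
    rw [h2, mul_comm]
    exact mul_le_mul_of_nonneg_left h1 (norm_nonneg _)
  have hz := hZON n e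
  have hlen : len e = ∑ i, ‖e i‖ := rfl
  have hlen0 : 0 ≤ len e := by rw [hlen]; exact Finset.sum_nonneg fun i _ => norm_nonneg _
  have htot := Finset.sum_le_sum (s := Finset.univ) fun i _ => hrow i
  have hexp : ∑ i, (1 - cc i) * (((3 - 2 * ε) * ‖e i‖ - D i - ‖e i‖ * outer a e) / 6)
      = ((3 - 2 * ε - outer a e) * (len e - outer a e) - ∑ i, D i + ∑ i, cc i * D i) / 6 := by
    have h1 : ∀ i, (1 - cc i) * (((3 - 2 * ε) * ‖e i‖ - D i - ‖e i‖ * outer a e) / 6)
        = ((3 - 2 * ε - outer a e) * ‖e i‖ - (3 - 2 * ε - outer a e) * (‖e i‖ * cc i)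
          - D i + cc i * D i) / 6 := by
      intro i; ring
    simp_rw [h1]
    rw [← Finset.sum_div, Finset.sum_add_distrib, Finset.sum_sub_distrib, Finset.sum_sub_distrib,
      ← Finset.mul_sum, ← Finset.mul_sum, ← hlen, ← houter]
    ring
  rw [hexp] at htot
  have hcD : (2 - ε) * outer a e ≤ ∑ i, cc i * D i := by
    rw [houter, Finset.mul_sum]
    refine Finset.sum_le_sum fun i _ => ?_
    have := mul_le_mul_of_nonneg_left (hDi i) (hcc0 i)
    linarith
  have hDs : ∑ i, D i ≤ 2 / Real.pi * (len e) ^ 2 := hz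
  nlinarith [mul_nonneg hout0 hout0]

end Pool.Agent.Work.MP_655153_lb
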