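import Pool.Agent.Work.MP_655153_lb.MajBasic

/-! # MAJ1 (helper77) -/

open MeasureTheory Set
open scoped ENNReal

namespace Pool.Agent.Work.MP_655153_lb

private lemma int_sq_left (A c : ℝ) :
    ∫ t in (0 : ℝ)..c, (A - t) ^ 2 = (A ^ 3 - (A - c) ^ 3) / 3 := by
  have h : ∀ x ∈ uIcc 0 c, HasDerivAt (fun t : ℝ => -((A - t) ^ 3) / 3) ((A - x) ^ 2) x := by
    intro x _
    have h1 : HasDerivAt (fun t : ℝ => A - t) (-1) x := by
      simpa using (hasDerivAt_id x).const_sub A
    exact (((h1.fun_pow 3).neg).div_const 3).congr_deriv (by norm_num)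
  rw [intervalIntegral.integral_eq_sub_of_hasDerivAt h
    ((by fun_prop : Continuous fun t : ℝ => (A - t) ^ 2).intervalIntegrable _ _)]
  ring

private lemma int_sq_right (A c T : ℝ) :
    ∫ t in c..T, (t - A) ^ 2 = ((T - A) ^ 3 - (c - A) ^ 3) / 3 := by
  have h : ∀ x ∈ uIcc c T, HasDerivAt (fun t : ℝ => ((t - A) ^ 3) / 3) ((x - A) ^ 2) x := by
    intro x _
    have h1 : HasDerivAt (fun t : ℝ => t - A) 1 x := by
      simpa using (hasDerivAt_id x).sub_const A
    exact ((h1.fun_pow 3).div_const 3).congr_deriv (by norm_num)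
  rw [intervalIntegral.integral_eq_sub_of_hasDerivAt h
    ((by fun_prop : Continuous fun t : ℝ => (t - A) ^ 2).intervalIntegrable _ _)]
  ring

private lemma int_psi1 {c T : ℝ} (hc : 0 ≤ c) (hcT : c ≤ T) :
    ∫ t in (0 : ℝ)..T, ((T - t + |t - c|) / 2) ^ 2
      = (((T + c) / 2) ^ 3 - ((T - c) / 2) ^ 3) / 3 + (T - c) ^ 3 / 4 := by
  have hcont : Continuous fun t : ℝ => ((T - t + |t - c|) / 2) ^ 2 := by fun_prop
  rw [← intervalIntegral.integral_add_adjacent_intervals (b := c)
    (hcont.intervalIntegrable _ _) (hcont.intervalIntegrable _ _)]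
  congr 1
  · rw [intervalIntegral.integral_congr (g := fun t => ((T + c) / 2 - t) ^ 2), int_sq_left]
    · ring
    · intro t ht
      rw [uIcc_of_le hc] at ht
      simp only
      rw [abs_of_nonpos (by linarith [ht.2])]
      ring
  · rw [intervalIntegral.integral_congr (g := fun _ => ((T - c) / 2) ^ 2)]
    · rw [intervalIntegral.integral_const, smul_eq_mul]
      ring
    · intro t ht
      rw [uIcc_of_le hcT] at ht
      simp only
      rw [abs_of_nonneg (by linarith [ht.1])]
      ring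

private lemma int_psi2 {c T : ℝ} (hc : 0 ≤ c) (hcT : c ≤ T) :
    ∫ t in (0 : ℝ)..T, ((t + |t - c|) / 2) ^ 2
      = c ^ 3 / 4 + ((T - c / 2) ^ 3 - (c / 2) ^ 3) / 3 := by
  have hcont : Continuous fun t : ℝ => ((t + |t - c|) / 2) ^ 2 := by fun_prop
  rw [← intervalIntegral.integral_add_adjacent_intervals (b := c)
    (hcont.intervalIntegrable _ _) (hcont.intervalIntegrable _ _)]
  congr 1
  · rw [intervalIntegral.integral_congr (g := fun _ => (c / 2) ^ 2)]
    · rw [intervalIntegral.integral_const, smul_eq_mul]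
      ring
    · intro t ht
      rw [uIcc_of_le hc] at ht
      simp only
      rw [abs_of_nonpos (by linarith [ht.2])]
      ring
  · rw [intervalIntegral.integral_congr (g := fun t => (t - c / 2) ^ 2), int_sq_right]
    · ring
    · intro t ht
      rw [uIcc_of_le hcT] at ht
      simp only
      rw [abs_of_nonneg (by linarith [ht.1])]
      ring

private lemma int_sin {c T : ℝ} (hc : 0 ≤ c) (hcT : c ≤ T) (hT : T ≤ 26 / 25) :
    ∫ t in (0 : ℝ)..T, |Real.sin (t - c)| = (1 - Real.cos c) + (1 - Real.cos (T - c)) := by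
  have hpi := Real.pi_gt_three
  have hcont : Continuous fun t : ℝ => |Real.sin (t - c)| := by fun_prop
  rw [← intervalIntegral.integral_add_adjacent_intervals (b := c)
    (hcont.intervalIntegrable _ _) (hcont.intervalIntegrable _ _)]
  congr 1
  · rw [intervalIntegral.integral_congr (g := fun t => Real.sin (c - t))]
    · rw [intervalIntegral.integral_comp_sub_left (fun x => Real.sin x) c]
      simp
    · intro t ht
      rw [uIcc_of_le hc] at ht
      simp only
      rw [show t - c = -(c - t) by ring, Real.sin_neg, abs_neg,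
        abs_of_nonneg (Real.sin_nonneg_of_nonneg_of_le_pi (by linarith [ht.2])
          (by linarith [ht.1]))]
  · rw [intervalIntegral.integral_congr (g := fun t => Real.sin (t - c))]
    · rw [intervalIntegral.integral_comp_sub_right (fun x => Real.sin x) c]
      simp
    · intro t ht
      rw [uIcc_of_le hcT] at ht
      simp only
      rw [abs_of_nonneg (Real.sin_nonneg_of_nonneg_of_le_pi (by linarith [ht.1])
          (by linarith [ht.2]))]

/-- The polynomial inequality of MAJ1. -/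
private lemma maj1_poly {c T : ℝ} (hc : 0 ≤ c) (hcT : c ≤ T) (hT : T ≤ 26 / 25) :
    7 / 12 * T ^ 2 - c * (T - c) ≤
      7 / 4 * (1 - T ^ 2 / 6) * ((c ^ 2 + (T - c) ^ 2) / 2 - (c ^ 4 + (T - c) ^ 4) / 24) := by
  have hT0 : 0 ≤ T := hc.trans hcT
  set u := c * (T - c) with hu
  have hu0 : 0 ≤ u := mul_nonneg hc (by linarith)
  have hu4 : u ≤ T ^ 2 / 4 := by nlinarith [sq_nonneg (T - 2 * c)]
  set S := T ^ 2 with hS
  have hS1 : S ≤ 1.0816 := by rw [hS]; nlinarith
  have hS0 : 0 ≤ S := sq_nonneg T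
  have e1 : c ^ 2 + (T - c) ^ 2 = S - 2 * u := by rw [hS, hu]; ring
  have e2 : c ^ 4 + (T - c) ^ 4 = S ^ 2 - 4 * u * S + 2 * u ^ 2 := by rw [hS, hu]; ring
  rw [e1, e2]
  have hA : 0.4549 * S - 0.8423 * u ≤
      (S - 2 * u) / 2 - (S ^ 2 - 4 * u * S + 2 * u ^ 2) / 24 := by
    nlinarith [mul_nonneg hS0 (sub_nonneg.2 hS1), mul_nonneg hu0 (sub_nonneg.2 hu4),
      mul_nonneg (sub_nonneg.2 hu4) (sub_nonneg.2 hS1)]
  have hB0 : 0 ≤ 0.4549 * S - 0.8423 * u := by linarith
  have hk : 1.4345 ≤ 7 / 4 * (1 - S / 6) := by linarith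
  calc 7 / 12 * S - u ≤ 1.4345 * (0.4549 * S - 0.8423 * u) := by linarith
    _ ≤ 7 / 4 * (1 - S / 6) * (0.4549 * S - 0.8423 * u) :=
      mul_le_mul_of_nonneg_right hk hB0
    _ ≤ _ := mul_le_mul_of_nonneg_left hA (by linarith)

theorem blk_MAJ1 : Stmt_MAJ1 := by
  intro c T hT0 hT hc hcT
  refine ⟨fun t => ((T - t + |t - c|) / 2) ^ 2, fun t => ((t + |t - c|) / 2) ^ 2, ?_, ?_, ?_, ?_⟩
  · intro s hs t ht hst
    have h1 : |t - c| ≤ |s - c| + (t - s) := by
      have := abs_sub_abs_le_abs_sub (t - c) (s - c)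
      rw [show t - c - (s - c) = t - s by ring, abs_of_nonneg (by linarith : 0 ≤ t - s)] at this
      linarith
    have h2 := abs_nonneg (t - c)
    have h3 : 0 ≤ T - t := by linarith [ht.2]
    simp only
    apply pow_le_pow_left₀ (by linarith)
    linarith
  · intro s hs t ht hst
    have h1 : |s - c| ≤ |t - c| + (t - s) := by
      have := abs_sub_abs_le_abs_sub (s - c) (t - c)
      rw [show s - c - (t - c) = -(t - s) by ring, abs_neg,
        abs_of_nonneg (by linarith : 0 ≤ t - s)] at this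
      linarith
    have h2 := abs_nonneg (s - c)
    have h3 : 0 ≤ s := hs.1
    simp only
    apply pow_le_pow_left₀ (by linarith)
    linarith
  · intro t ht
    have h1 : |Real.sin (t - c)| ≤ |t - c| := Real.abs_sin_le_abs
    have h3 : 0 ≤ T - t := by linarith [ht.2]
    have h4 : 0 ≤ t := ht.1
    constructor
    · calc (T - t) * |Real.sin (t - c)| ≤ (T - t) * |t - c| := by gcongr
        _ ≤ ((T - t + |t - c|) / 2) ^ 2 := by nlinarith [sq_nonneg (T - t - |t - c|)]
    · calc t * |Real.sin (t - c)| ≤ t * |t - c| := by gcongr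
        _ ≤ ((t + |t - c|) / 2) ^ 2 := by nlinarith [sq_nonneg (t - |t - c|)]
  · show (∫⁻ t in Ioo 0 T, ENNReal.ofReal (((T - t + |t - c|) / 2) ^ 2))
        + ∫⁻ t in Ioo 0 T, ENNReal.ofReal (((t + |t - c|) / 2) ^ 2)
        ≤ ENNReal.ofReal (7 / 4 * Real.sin T * ∫ t in (0 : ℝ)..T, |Real.sin (t - c)|)
    rw [maj_lint (Ψ := fun t => ((T - t + |t - c|) / 2) ^ 2) hT0.le (by fun_prop)
        (fun t _ => sq_nonneg _),
      maj_lint (Ψ := fun t => ((t + |t - c|) / 2) ^ 2) hT0.le (by fun_prop)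
        (fun t _ => sq_nonneg _), int_psi1 hc hcT, int_psi2 hc hcT,
      int_sin hc hcT hT, ← ENNReal.ofReal_add]
    · apply ENNReal.ofReal_le_ofReal
      have hs := maj_sin_lb hT0.le
      have h1 := maj_cos_ub hc
      have h2 := maj_cos_ub (show 0 ≤ T - c by linarith)
      have hp := maj1_poly hc hcT hT
      have hI : (c ^ 2 + (T - c) ^ 2) / 2 - (c ^ 4 + (T - c) ^ 4) / 24
          ≤ (1 - Real.cos c) + (1 - Real.cos (T - c)) := by linarith
      have hI0 : 0 ≤ (1 - Real.cos c) + (1 - Real.cos (T - c)) := by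
        linarith [Real.cos_le_one c, Real.cos_le_one (T - c)]
      have hk : 0 ≤ 7 / 4 * (1 - T ^ 2 / 6) := by nlinarith
      calc _ = T * (7 / 12 * T ^ 2 - c * (T - c)) := by ring
        _ ≤ T * (7 / 4 * (1 - T ^ 2 / 6) * ((1 - Real.cos c) + (1 - Real.cos (T - c)))) := by
          apply mul_le_mul_of_nonneg_left _ hT0.le
          exact hp.trans (mul_le_mul_of_nonneg_left hI hk)
        _ = 7 / 4 * (T - T ^ 3 / 6) * ((1 - Real.cos c) + (1 - Real.cos (T - c))) := by ring
        _ ≤ _ := by gcongr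
    · have a1 : 0 ≤ T - c := by linarith
      have : 0 ≤ ((T + c) / 2) ^ 3 - ((T - c) / 2) ^ 3 := by
        have := pow_le_pow_left₀ (show 0 ≤ (T - c) / 2 by linarith)
          (show (T - c) / 2 ≤ (T + c) / 2 by linarith) 3
        linarith
      positivity
    · have : 0 ≤ (T - c / 2) ^ 3 - (c / 2) ^ 3 := by
        have := pow_le_pow_left₀ (show 0 ≤ c / 2 by linarith)
          (show c / 2 ≤ T - c / 2 by linarith) 3
        linarith
      positivity

end Pool.Agent.Work.MP_655153_lb
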