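import Pool.Agent.Work.MP_655153_lb.MajBasic

/-! # MAJ2 (helper77) -/

open MeasureTheory Set
open scoped ENNReal

namespace Pool.Agent.Work.MP_655153_lb

/-- `sin (t + d) ≥ sin t ≥ (4/5) t`. -/
private lemma sin_add_lb {d T t : ℝ} (hT : T ≤ 26 / 25) (hd : 0 ≤ d)
    (h2 : 2 * d ≤ Real.pi - T) (ht : t ∈ Icc 0 T) : 4 / 5 * t ≤ Real.sin (t + d) := by
  have hpi := Real.pi_gt_d2
  have h1 : Real.sin t ≤ Real.sin (t + d) := by
    have e : Real.sin (t + d) - Real.sin t
        = 2 * Real.sin ((t + d - t) / 2) * Real.cos ((t + d + t) / 2) := Real.sin_sub_sin _ _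
    have s1 : 0 ≤ Real.sin ((t + d - t) / 2) :=
      Real.sin_nonneg_of_nonneg_of_le_pi (by linarith) (by linarith [ht.1, ht.2])
    have s2 : 0 ≤ Real.cos ((t + d + t) / 2) :=
      Real.cos_nonneg_of_neg_pi_div_two_le_of_le (by linarith [ht.1]) (by linarith [ht.2])
    have := mul_nonneg (mul_nonneg (by norm_num : (0 : ℝ) ≤ 2) s1) s2
    linarith
  have h3 := maj_sin_lb ht.1
  have h4 : t ^ 2 ≤ 6 / 5 := by nlinarith [ht.1, ht.2]
  have h5 : t ^ 3 / 6 ≤ t / 5 := by nlinarith [ht.1, mul_nonneg ht.1 (sub_nonneg.2 h4)]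
  linarith

private lemma omega_eq {d T t : ℝ} (hd : 0 ≤ d)
    (h2 : 2 * d ≤ Real.pi - T) (hT : T ≤ 26 / 25) (ht : t ∈ Icc 0 T) :
    |Real.sin (t + d)| = Real.sin (t + d) := by
  have hpi := Real.pi_gt_three
  exact abs_of_nonneg (Real.sin_nonneg_of_nonneg_of_le_pi (by linarith [ht.1])
    (by linarith [ht.2]))

private lemma psi2_mono {d T : ℝ} (hT : T ≤ 26 / 25) (hd : 0 ≤ d)
    (h2 : 2 * d ≤ Real.pi - T) : MonotoneOn (fun t => t * Real.sin (t + d)) (Icc 0 T) := by
  have hpi := Real.pi_gt_d2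
  apply monotoneOn_of_deriv_nonneg (convex_Icc 0 T)
  · fun_prop
  · exact fun x _ => (by fun_prop : DifferentiableAt ℝ _ x).differentiableWithinAt
  · intro t ht
    rw [interior_Icc] at ht
    have h : HasDerivAt (fun t : ℝ => t * Real.sin (t + d))
        (Real.sin (t + d) + t * Real.cos (t + d)) t := by
      have h1 : HasDerivAt (fun t : ℝ => Real.sin (t + d)) (Real.cos (t + d)) t := by
        simpa using ((hasDerivAt_id t).add_const d).sin
      exact ((hasDerivAt_id t).mul h1).congr_deriv (by simp)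
    rw [h.deriv]
    have ht0 : 0 < t := ht.1
    have htT : t < T := ht.2
    by_cases hc : t + d ≤ Real.pi / 2
    · have s1 : 0 ≤ Real.sin (t + d) :=
        Real.sin_nonneg_of_nonneg_of_le_pi (by linarith) (by linarith)
      have s2 : 0 ≤ Real.cos (t + d) :=
        Real.cos_nonneg_of_neg_pi_div_two_le_of_le (by linarith) (by linarith)
      positivity
    · push Not at hc
      set y := t + d - Real.pi / 2 with hy
      have hy0 : 0 < y := by rw [hy]; linarith
      have hy1 : y ≤ 0.52 := by rw [hy]; linarith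
      have e1 : Real.sin (t + d) = Real.cos y := by
        rw [show t + d = y + Real.pi / 2 by rw [hy]; ring, Real.sin_add_pi_div_two]
      have e2 : Real.cos (t + d) = -Real.sin y := by
        rw [show t + d = y + Real.pi / 2 by rw [hy]; ring, Real.cos_add_pi_div_two]
      rw [e1, e2]
      have hs : Real.sin y ≤ y := Real.sin_le hy0.le
      have hcos := Real.one_sub_sq_div_two_le_cos (x := y)
      have : t * Real.sin y ≤ 26 / 25 * y := by
        have hs0 : 0 ≤ Real.sin y := Real.sin_nonneg_of_nonneg_of_le_pi hy0.le (by linarith)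
        calc t * Real.sin y ≤ 26 / 25 * Real.sin y :=
              mul_le_mul_of_nonneg_right (by linarith) hs0
          _ ≤ 26 / 25 * y := mul_le_mul_of_nonneg_left hs (by norm_num)
      nlinarith

private lemma aux_anti_right {d T : ℝ} (hT : T ≤ 26 / 25) (hd : 0 ≤ d)
    (h2 : 2 * d ≤ Real.pi - T) :
    AntitoneOn (fun t => (T - t) * Real.sin (t + d)) (Icc (5 * T / 9) T) := by
  have hpi := Real.pi_gt_d2
  apply antitoneOn_of_deriv_nonpos (convex_Icc _ T)
  · fun_prop
  · exact fun x _ => (by fun_prop : DifferentiableAt ℝ _ x).differentiableWithinAt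
  · intro t ht
    rw [interior_Icc] at ht
    have hT0 : 0 ≤ T := by linarith [ht.1, ht.2]
    have h : HasDerivAt (fun t : ℝ => (T - t) * Real.sin (t + d))
        (-Real.sin (t + d) + (T - t) * Real.cos (t + d)) t := by
      have h1 : HasDerivAt (fun t : ℝ => Real.sin (t + d)) (Real.cos (t + d)) t := by
        simpa using ((hasDerivAt_id t).add_const d).sin
      have h3 : HasDerivAt (fun t : ℝ => T - t) (-1) t := by
        simpa using (hasDerivAt_id t).const_sub T
      exact (h3.mul h1).congr_deriv (by ring)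
    rw [h.deriv]
    have hlb := sin_add_lb hT hd h2 (t := t) ⟨by linarith [ht.1], ht.2.le⟩
    have hcos : Real.cos (t + d) ≤ 1 := Real.cos_le_one _
    have : (T - t) * Real.cos (t + d) ≤ (T - t) * 1 :=
      mul_le_mul_of_nonneg_left hcos (by linarith [ht.2])
    linarith [ht.1]

private lemma aux_anti_left {d T : ℝ} (hT0 : 0 < T) (hT : T ≤ 26 / 25) (hd : 0 ≤ d)
    (h2 : 2 * d ≤ Real.pi - T) :
    AntitoneOn (fun t => (T - t) * Real.sin (t + d) + (T - 9 / 5 * t) ^ 2 / (18 / 5))
      (Icc 0 (5 * T / 9)) := by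
  have hpi := Real.pi_gt_d2
  apply antitoneOn_of_deriv_nonpos (convex_Icc _ _)
  · fun_prop
  · exact fun x _ => (by fun_prop : DifferentiableAt ℝ _ x).differentiableWithinAt
  · intro t ht
    rw [interior_Icc] at ht
    have h : HasDerivAt (fun t : ℝ => (T - t) * Real.sin (t + d)
        + (T - 9 / 5 * t) ^ 2 / (18 / 5))
        (-Real.sin (t + d) + (T - t) * Real.cos (t + d) - (T - 9 / 5 * t)) t := by
      have h1 : HasDerivAt (fun t : ℝ => Real.sin (t + d)) (Real.cos (t + d)) t := by
        simpa using ((hasDerivAt_id t).add_const d).sin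
      have h3 : HasDerivAt (fun t : ℝ => T - t) (-1) t := by
        simpa using (hasDerivAt_id t).const_sub T
      have h4 : HasDerivAt (fun t : ℝ => T - 9 / 5 * t) (-(9 / 5)) t := by
        simpa using ((hasDerivAt_id t).const_mul (9 / 5)).const_sub T
      exact ((h3.mul h1).add ((h4.fun_pow 2).div_const (18 / 5))).congr_deriv (by
        norm_num; ring)
    rw [h.deriv]
    have hlb := sin_add_lb hT hd h2 (t := t) ⟨ht.1.le, by linarith [ht.2]⟩
    have hcos : Real.cos (t + d) ≤ 1 := Real.cos_le_one _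
    have : (T - t) * Real.cos (t + d) ≤ (T - t) * 1 :=
      mul_le_mul_of_nonneg_left hcos (by linarith [ht.2])
    linarith [ht.1]

private lemma psi1_anti {d T : ℝ} (hT0 : 0 < T) (hT : T ≤ 26 / 25) (hd : 0 ≤ d)
    (h2 : 2 * d ≤ Real.pi - T) :
    AntitoneOn (fun t => (T - t) * Real.sin (t + d) + (max (T - 9 / 5 * t) 0) ^ 2 / (18 / 5))
      (Icc 0 T) := by
  have hu : Icc (0 : ℝ) T = Icc 0 (5 * T / 9) ∪ Icc (5 * T / 9) T := by
    rw [Icc_union_Icc_eq_Icc (by linarith) (by linarith)]
  rw [hu]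
  apply AntitoneOn.union_right (c := 5 * T / 9)
  · refine (aux_anti_left hT0 hT hd h2).congr ?_
    intro t ht
    simp only
    rw [max_eq_left (by linarith [ht.2])]
  · refine (aux_anti_right hT hd h2).congr ?_
    intro t ht
    simp only
    rw [max_eq_right (by linarith [ht.1])]
    ring
  · exact ⟨⟨by linarith, le_rfl⟩, fun x hx => hx.2⟩
  · exact ⟨⟨le_rfl, by linarith⟩, fun x hx => hx.1⟩

private lemma int_max {T : ℝ} (hT0 : 0 < T) :
    ∫ t in (0 : ℝ)..T, (max (T - 9 / 5 * t) 0) ^ 2 / (18 / 5) = 25 / 486 * T ^ 3 := by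
  have hcont : Continuous fun t : ℝ => (max (T - 9 / 5 * t) 0) ^ 2 / (18 / 5) := by fun_prop
  rw [← intervalIntegral.integral_add_adjacent_intervals (b := 5 * T / 9)
    (hcont.intervalIntegrable _ _) (hcont.intervalIntegrable _ _)]
  have e2 : ∫ t in (5 * T / 9)..T, (max (T - 9 / 5 * t) 0) ^ 2 / (18 / 5) = 0 := by
    rw [intervalIntegral.integral_congr (g := fun _ => (0 : ℝ))]
    · simp
    · intro t ht
      rw [uIcc_of_le (by linarith)] at ht
      simp only
      rw [max_eq_right (by linarith [ht.1])]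
      ring
  have e1 : ∫ t in (0 : ℝ)..(5 * T / 9), (max (T - 9 / 5 * t) 0) ^ 2 / (18 / 5)
      = 25 / 486 * T ^ 3 := by
    rw [intervalIntegral.integral_congr (g := fun t => (T - 9 / 5 * t) ^ 2 / (18 / 5))]
    · have h : ∀ x ∈ uIcc 0 (5 * T / 9), HasDerivAt
          (fun t : ℝ => -(25 / 486) * (T - 9 / 5 * t) ^ 3)
          ((T - 9 / 5 * x) ^ 2 / (18 / 5)) x := by
        intro x _
        have h4 : HasDerivAt (fun t : ℝ => T - 9 / 5 * t) (-(9 / 5)) x := by
          simpa using ((hasDerivAt_id x).const_mul (9 / 5)).const_sub T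
        exact ((h4.fun_pow 3).const_mul (-(25 / 486))).congr_deriv (by norm_num; ring)
      rw [intervalIntegral.integral_eq_sub_of_hasDerivAt h
        ((by fun_prop : Continuous fun t : ℝ =>
          (T - 9 / 5 * t) ^ 2 / (18 / 5)).intervalIntegrable _ _)]
      ring
    · intro t ht
      rw [uIcc_of_le (by linarith)] at ht
      simp only
      rw [max_eq_left (by linarith [ht.2])]
  rw [e1, e2, add_zero]

theorem blk_MAJ2 : Stmt_MAJ2 := by
  intro d T hT0 hT hd h2
  have hpi := Real.pi_gt_d2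
  set I := ∫ t in (0 : ℝ)..T, Real.sin (t + d) with hI
  have hIlb : 2 / 5 * T ^ 2 ≤ I := by
    have h1 : ∫ t in (0 : ℝ)..T, 4 / 5 * t = 2 / 5 * T ^ 2 := by
      rw [intervalIntegral.integral_const_mul, integral_id]
      ring
    rw [← h1, hI]
    apply intervalIntegral.integral_mono_on hT0.le
    · exact (by fun_prop : Continuous fun t : ℝ => 4 / 5 * t).intervalIntegrable _ _
    · exact (by fun_prop : Continuous fun t : ℝ => Real.sin (t + d)).intervalIntegrable _ _
    · intro t ht
      exact sin_add_lb hT hd h2 ht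
  have hIabs : ∫ t in (0 : ℝ)..T, |Real.sin (t + d)| = I := by
    rw [hI]
    apply intervalIntegral.integral_congr
    intro t ht
    rw [uIcc_of_le hT0.le] at ht
    exact omega_eq hd h2 hT ht
  refine ⟨fun t => (T - t) * Real.sin (t + d) + (max (T - 9 / 5 * t) 0) ^ 2 / (18 / 5),
    fun t => t * Real.sin (t + d), psi1_anti hT0 hT hd h2, psi2_mono hT hd h2, ?_, ?_⟩
  · intro t ht
    simp only
    rw [omega_eq hd h2 hT ht]
    exact ⟨by nlinarith [sq_nonneg (max (T - 9 / 5 * t) 0)], le_rfl⟩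
  · show (∫⁻ t in Ioo 0 T, ENNReal.ofReal
          ((T - t) * Real.sin (t + d) + (max (T - 9 / 5 * t) 0) ^ 2 / (18 / 5)))
        + ∫⁻ t in Ioo 0 T, ENNReal.ofReal (t * Real.sin (t + d))
        ≤ ENNReal.ofReal (7 / 4 * Real.sin T * ∫ t in (0 : ℝ)..T, |Real.sin (t + d)|)
    have hs0 : ∀ t ∈ Icc 0 T, 0 ≤ Real.sin (t + d) := by
      intro t ht
      have := sin_add_lb hT hd h2 ht
      linarith [ht.1]
    have hp1 : ∀ t ∈ Icc 0 T,
        0 ≤ (T - t) * Real.sin (t + d) + (max (T - 9 / 5 * t) 0) ^ 2 / (18 / 5) := by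
      intro t ht
      have := mul_nonneg (sub_nonneg.2 ht.2) (hs0 t ht)
      positivity
    have hp2 : ∀ t ∈ Icc 0 T, 0 ≤ t * Real.sin (t + d) :=
      fun t ht => mul_nonneg ht.1 (hs0 t ht)
    rw [maj_lint (Ψ := fun t => (T - t) * Real.sin (t + d)
        + (max (T - 9 / 5 * t) 0) ^ 2 / (18 / 5)) hT0.le (by fun_prop) hp1,
      maj_lint (Ψ := fun t => t * Real.sin (t + d)) hT0.le (by fun_prop) hp2, hIabs,
      ← ENNReal.ofReal_add]
    · apply ENNReal.ofReal_le_ofReal
      rw [← intervalIntegral.integral_add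
        ((by fun_prop : Continuous _).intervalIntegrable _ _)
        ((by fun_prop : Continuous _).intervalIntegrable _ _)]
      have e : (∫ t in (0 : ℝ)..T, (T - t) * Real.sin (t + d)
          + (max (T - 9 / 5 * t) 0) ^ 2 / (18 / 5) + t * Real.sin (t + d))
          = T * I + 25 / 486 * T ^ 3 := by
        rw [← int_max hT0, hI, ← intervalIntegral.integral_const_mul,
          ← intervalIntegral.integral_add
            ((by fun_prop : Continuous _).intervalIntegrable _ _)
            ((by fun_prop : Continuous _).intervalIntegrable _ _)]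
        congr 1
        ext t
        ring
      rw [e]
      have hs := maj_sin_lb hT0.le
      have hT2 : T ^ 2 ≤ 1.0816 := by nlinarith
      have h3 : 25 / 486 * T ^ 3 ≤ 0.1287 * (T * I) := by
        have : T * (2 / 5 * T ^ 2) ≤ T * I := mul_le_mul_of_nonneg_left hIlb hT0.le
        nlinarith [pow_pos hT0 3]
      have hI0 : 0 ≤ I := by
        have := sq_nonneg T
        linarith
      have h4 : 1.1287 * T ≤ 7 / 4 * Real.sin T := by
        have : T ^ 3 ≤ 1.0816 * T := by nlinarith
        nlinarith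
      calc T * I + 25 / 486 * T ^ 3 ≤ (1.1287 * T) * I := by linarith
        _ ≤ _ := mul_le_mul_of_nonneg_right h4 hI0
    · exact intervalIntegral.integral_nonneg hT0.le hp1
    · exact intervalIntegral.integral_nonneg hT0.le hp2

end Pool.Agent.Work.MP_655153_lb
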