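import Pool.Agent.Work.MP_655153_lb.Interface

/-!
# Block MAJ3: reduction of the majorants by symmetry
-/

open MeasureTheory Set
open scoped ENNReal

namespace Pool.Agent.Work.MP_655153_lb

namespace MAJ3

theorem periodic_abs_sin : Function.Periodic (fun x => |Real.sin x|) Real.pi := by
  intro x; simp [Real.sin_add_pi]

theorem lintegral_reflect (g : ℝ → ℝ≥0∞) (T : ℝ) :
    ∫⁻ t in Ioo 0 T, g (T - t) = ∫⁻ t in Ioo 0 T, g t := by
  rw [← lintegral_indicator measurableSet_Ioo, ← lintegral_indicator measurableSet_Ioo,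
    ← lintegral_sub_left_eq_self (fun t => (Ioo 0 T).indicator g t) T]
  refine lintegral_congr fun t => ?_
  by_cases h : t ∈ Ioo 0 T
  · have h' : T - t ∈ Ioo 0 T := ⟨by linarith [h.2], by linarith [h.1]⟩
    rw [indicator_of_mem h, indicator_of_mem h']
  · have h' : T - t ∉ Ioo 0 T := fun h2 => h ⟨by linarith [h2.2], by linarith [h2.1]⟩
    rw [indicator_of_notMem h, indicator_of_notMem h']

/-- the reflection `t ↦ T - t` exchanges the two majorants -/
theorem maj_reflect {ω : ℝ → ℝ} {T : ℝ} (h : Maj ω T) : Maj (fun t => ω (T - t)) T := by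
  obtain ⟨Ψ₁, Ψ₂, h1, h2, h3, h4⟩ := h
  have hmem : ∀ t ∈ Icc 0 T, T - t ∈ Icc 0 T := fun t ht => ⟨by linarith [ht.2], by linarith [ht.1]⟩
  refine ⟨fun t => Ψ₂ (T - t), fun t => Ψ₁ (T - t), ?_, ?_, ?_, ?_⟩
  · intro x hx y hy hxy
    exact h2 (hmem y hy) (hmem x hx) (by linarith)
  · intro x hx y hy hxy
    exact h1 (hmem y hy) (hmem x hx) (by linarith)
  · intro t ht
    have := h3 (T - t) (hmem t ht)
    exact ⟨this.2, by have h5 := this.1; rwa [sub_sub_cancel] at h5⟩
  · have e1 := lintegral_reflect (fun t => ENNReal.ofReal (Ψ₂ t)) T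
    have e2 := lintegral_reflect (fun t => ENNReal.ofReal (Ψ₁ t)) T
    have e3 : ∫ t in (0 : ℝ)..T, ω (T - t) = ∫ t in (0 : ℝ)..T, ω t := by
      rw [intervalIntegral.integral_comp_sub_left (fun t => ω t) T]
      simp
    show (∫⁻ (t : ℝ) in Ioo 0 T, ENNReal.ofReal (Ψ₂ (T - t)))
      + ∫⁻ (t : ℝ) in Ioo 0 T, ENNReal.ofReal (Ψ₁ (T - t))
      ≤ ENNReal.ofReal (7 / 4 * Real.sin T * ∫ t in (0 : ℝ)..T, ω (T - t))
    rw [e1, e2, add_comm, e3]
    exact h4

end MAJ3

theorem blk_MAJ3 (h1 : Stmt_MAJ1) (h2 : Stmt_MAJ2) : Stmt_MAJ3 := by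
  intro c T hT0 hT
  have hpi := Real.pi_pos
  have hpi3 := Real.pi_gt_three
  set k : ℤ := ⌊c / Real.pi⌋ with hk
  set c' : ℝ := c - k * Real.pi with hc'
  have hc0 : 0 ≤ c' := by
    have := Int.floor_le (c / Real.pi)
    rw [le_div_iff₀ hpi] at this
    rw [hc']; linarith
  have hc1 : c' < Real.pi := by
    have := Int.lt_floor_add_one (c / Real.pi)
    rw [div_lt_iff₀ hpi] at this
    rw [hc']; linarith
  have hfun : (fun t => |Real.sin (t - c)|) = fun t => |Real.sin (t - c')| := by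
    funext t
    have : |Real.sin (t - c + k * Real.pi)| = |Real.sin (t - c)| :=
      (MAJ3.periodic_abs_sin.int_mul k) (t - c)
    rw [← this]
    congr 2
    rw [hc']; ring
  rw [hfun]
  rcases le_or_gt c' T with h | h
  · exact h1 c' T hT0 hT hc0 h
  · rcases le_or_gt (2 * (Real.pi - c')) (Real.pi - T) with h3 | h3
    · have := h2 (Real.pi - c') T hT0 hT (by linarith) h3
      convert this using 2 with t
      have h4 : |Real.sin (t - c' + Real.pi)| = |Real.sin (t - c')| :=
        MAJ3.periodic_abs_sin (t - c')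
      rw [← h4]
      congr 2
      ring
    · have := MAJ3.maj_reflect (h2 (c' - T) T hT0 hT (by linarith) (by linarith))
      convert this using 2 with t
      rw [← abs_neg, ← Real.sin_neg]
      congr 2
      ring

end Pool.Agent.Work.MP_655153_lb
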