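import Pool.Agent.Work.MP_655153_lb.Interface

/-!
# Beam detection constant, block MASS: integrals of the counting function
-/

open MeasureTheory Set
open scoped ENNReal

namespace Pool.Agent.Work.MP_655153_lb

namespace MASS

theorem lo_le_hi {n : ℕ} (a e : Fin n → ℂ) (θ : ℝ) (i : Fin n) : lo a e θ i ≤ hi a e θ i :=
  min_le_max

theorem hi_sub_lo {n : ℕ} (a e : Fin n → ℂ) (θ : ℝ) (i : Fin n) :
    hi a e θ i - lo a e θ i = |pr θ (e i)| := by
  unfold hi lo
  rw [max_sub_min_eq_abs', pr_add, ← abs_neg]
  congr 1; ring

theorem integrable_ind (l h : ℝ) :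
    Integrable ((Icc l h).indicator (fun _ => (1 : ℝ))) := by
  rw [integrable_indicator_iff measurableSet_Icc]
  exact (integrableOn_const (by simp [Real.volume_Icc]))

end MASS

open MASS in
theorem blk_MASS : Stmt_MASS := by
  intro n a e θ
  have hcnt : cnt a e θ = fun x =>
      ∑ i, (Icc (lo a e θ i) (hi a e θ i)).indicator (fun _ => (1 : ℝ)) x := rfl
  refine ⟨?_, ?_, ?_, ?_⟩
  · rw [hcnt]
    exact Finset.measurable_sum _ fun i _ => measurable_const.indicator measurableSet_Icc
  · rw [hcnt]
    exact integrable_finset_sum _ fun i _ => integrable_ind _ _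
  · simp only [cnt, wid]
    rw [integral_finset_sum _ fun i _ => integrable_ind _ _]
    refine Finset.sum_congr rfl fun i _ => ?_
    rw [integral_indicator measurableSet_Icc, integral_const, smul_eq_mul, mul_one,
      measureReal_restrict_apply_univ, Measure.real, Real.volume_Icc,
      ENNReal.toReal_ofReal (sub_nonneg.2 (lo_le_hi a e θ i)), hi_sub_lo]
  · intro x y hxy
    simp only [cnt, mass]
    rw [intervalIntegral.integral_finset_sum
      (f := fun i t => (Icc (lo a e θ i) (hi a e θ i)).indicator (fun _ => (1 : ℝ)) t)
      (fun i _ => (integrable_ind _ _).intervalIntegrable)]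
    refine Finset.sum_congr rfl fun i _ => ?_
    rw [intervalIntegral.integral_of_le hxy, ← integral_Icc_eq_integral_Ioc,
      integral_indicator measurableSet_Icc, Measure.restrict_restrict measurableSet_Icc,
      Icc_inter_Icc, integral_const, smul_eq_mul, mul_one,
      measureReal_restrict_apply_univ, Measure.real, Real.volume_Icc,
      ENNReal.toReal_ofReal', max_comm]

end Pool.Agent.Work.MP_655153_lb
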