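import Pool.Agent.Work.MP_655153_lb.Interface

/-!
# Block MU: integrals with respect to `mu`
-/

open MeasureTheory Set
open scoped ENNReal

namespace Pool.Agent.Work.MP_655153_lb

theorem continuous_ptpair {n : ℕ} (a e : Fin n → ℂ) (j : Fin n) :
    Continuous (fun t : ℝ => (pt a e j t, e j)) :=
  (continuous_pt a e j).prodMk continuous_const

theorem lintegral_mu {n : ℕ} (a e : Fin n → ℂ) (F : ℂ × ℂ → ℝ≥0∞) (hF : Measurable F) :
    ∫⁻ z, F z ∂(mu a e) = ∑ j, ∫⁻ t in Icc (0 : ℝ) 1, F (pt a e j t, e j) := by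
  unfold mu
  rw [lintegral_finsetSum_measure]
  apply Finset.sum_congr rfl
  intro j _
  rw [lintegral_map hF (continuous_ptpair a e j).measurable]

/-- the union of the open segments, as a countable union of compact sets -/
def ranIoo {n : ℕ} (a e : Fin n → ℂ) : Set (ℂ × ℂ) :=
  ⋃ j : Fin n, ⋃ k : ℕ, (fun t : ℝ => (pt a e j t, e j)) ''
    Icc (1 / ((k : ℝ) + 2)) (1 - 1 / ((k : ℝ) + 2))

theorem mem_ranIoo {n : ℕ} {a e : Fin n → ℂ} {z : ℂ × ℂ} : z ∈ ranIoo a e ↔
    ∃ j : Fin n, ∃ k : ℕ, ∃ t : ℝ, t ∈ Icc (1 / ((k : ℝ) + 2)) (1 - 1 / ((k : ℝ) + 2)) ∧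
      (pt a e j t, e j) = z := by
  unfold ranIoo
  simp only [mem_iUnion, mem_image]

theorem measurableSet_ranIoo {n : ℕ} (a e : Fin n → ℂ) : MeasurableSet (ranIoo a e) := by
  unfold ranIoo
  apply MeasurableSet.iUnion
  intro j
  apply MeasurableSet.iUnion
  intro k
  exact (isCompact_Icc.image (continuous_ptpair a e j)).isClosed.measurableSet

theorem mu_compl_ranIoo {n : ℕ} (a e : Fin n → ℂ) : mu a e (ranIoo a e)ᶜ = 0 := by
  unfold mu
  rw [Measure.finsetSum_apply, Finset.sum_eq_zero]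
  intro j _
  rw [Measure.map_apply (continuous_ptpair a e j).measurable (measurableSet_ranIoo a e).compl,
    Measure.restrict_apply ((continuous_ptpair a e j).measurable
      (measurableSet_ranIoo a e).compl)]
  apply measure_mono_null (t := ({0, 1} : Set ℝ))
  · rintro t ⟨ht, ht0, ht1⟩
    by_contra hne
    simp only [mem_insert_iff, mem_singleton_iff, not_or] at hne
    have h0 : 0 < t := lt_of_le_of_ne ht0 (Ne.symm hne.1)
    have h1 : t < 1 := lt_of_le_of_ne ht1 hne.2
    obtain ⟨k, hk⟩ := exists_nat_one_div_lt (lt_min h0 (sub_pos.2 h1))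
    apply ht
    refine mem_ranIoo.2 ⟨j, k, t, ?_, rfl⟩
    have h2 : 1 / ((k : ℝ) + 2) ≤ 1 / ((k : ℝ) + 1) := by
      apply one_div_le_one_div_of_le (by positivity) (by linarith)
    have h3 := hk.trans_le (min_le_left _ _)
    have h4 := hk.trans_le (min_le_right _ _)
    exact ⟨by linarith, by linarith⟩
  · exact (Set.toFinite _).measure_zero _

theorem blk_MU : Stmt_MU := by
  intro n a e
  refine ⟨?_, ?_, ?_, ?_⟩
  · constructor
    have h := lintegral_mu a e (fun _ => (1 : ℝ≥0∞)) measurable_const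
    rw [lintegral_one] at h
    rw [h]
    simp
  · intro F hF
    exact lintegral_mu a e F hF
  · intro P hP
    have hm : MeasurableSet (ranIoo a e) := measurableSet_ranIoo a e
    have h0 : mu a e (ranIoo a e)ᶜ = 0 := mu_compl_ranIoo a e
    rw [ae_iff]
    apply measure_mono_null _ h0
    intro z hz hzR
    apply hz
    obtain ⟨j, k, t, ht, rfl⟩ := mem_ranIoo.1 hzR
    apply hP
    have hk : (0 : ℝ) < 1 / ((k : ℝ) + 2) := by positivity
    exact ⟨by linarith [ht.1], by linarith [ht.2]⟩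
  · rw [lintegral_mu a e (fun z => ENNReal.ofReal ‖z.2‖) (by fun_prop)]
    simp only
    rw [len, ENNReal.ofReal_sum_of_nonneg (fun i _ => norm_nonneg _)]
    apply Finset.sum_congr rfl
    intro j _
    simp

end Pool.Agent.Work.MP_655153_lb
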