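import Pool.Agent.Work.MP_655153_lb.Interface

/-!
# Block OM: mass of the set `Ov` in a direction
-/

open MeasureTheory Set
open scoped ENNReal

namespace Pool.Agent.Work.MP_655153_lb

theorem om_cnt_nonneg {n : ℕ} (a e : Fin n → ℂ) (θ x : ℝ) : 0 ≤ cnt a e θ x := by
  unfold cnt
  exact Finset.sum_nonneg fun i _ => indicator_nonneg (fun _ _ => zero_le_one) _

theorem blk_OM (hMASS : Stmt_MASS) (hEXC : Stmt_EXC) (hRS : Stmt_RS) : Stmt_OM := by
  intro n a e ε θ hε hcov
  obtain ⟨hm, hi, -, hmass⟩ := hMASS n a e θ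
  have hE := hEXC n a e ε hε hcov θ
  have hR := hRS (cnt a e θ) hm (om_cnt_nonneg a e θ) hi
  set E : ℝ := ∫ x, max (cnt a e θ x - 1) 0 with hEdef
  have hE0 : 0 ≤ E := integral_nonneg fun x => le_max_right _ _
  have hset : {x : ℝ | (θ, x) ∈ Ov a e} =
      {x : ℝ | ∃ d : ℝ, 0 < d ∧ (199 / 100 * d < ∫ y in x..(x + d), cnt a e θ y ∨
        199 / 100 * d < ∫ y in (x - d)..x, cnt a e θ y)} := by
    ext x
    constructor
    · rintro ⟨d, hd, h⟩
      refine ⟨d, hd, ?_⟩
      rw [hmass x (x + d) (by linarith), hmass (x - d) x (by linarith)]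
      exact h
    · rintro ⟨d, hd, h⟩
      rw [hmass x (x + d) (by linarith), hmass (x - d) x (by linarith)] at h
      exact ⟨d, hd, h⟩
  rw [← hset] at hR
  have hint : Integrable (fun x => max (cnt a e θ x - 1) 0) := by
    apply hi.mono' ((hm.sub_const 1).max measurable_const).aestronglyMeasurable
    refine Filter.Eventually.of_forall fun x => ?_
    rw [Real.norm_eq_abs, abs_of_nonneg (le_max_right _ _)]
    exact max_le (by linarith) (om_cnt_nonneg a e θ x)
  have h1 : ∫⁻ x, ENNReal.ofReal (max (cnt a e θ x - 1) 0) = ENNReal.ofReal E := by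
    rw [hEdef, ofReal_integral_eq_lintegral_ofReal hint]
    exact Filter.Eventually.of_forall fun x => le_max_right _ _
  calc ∫⁻ x in {x : ℝ | (θ, x) ∈ Ov a e}, ENNReal.ofReal (cnt a e θ x)
      ≤ ∫⁻ x in {x : ℝ | (θ, x) ∈ Ov a e},
          (1 + ENNReal.ofReal (max (cnt a e θ x - 1) 0)) := by
        apply lintegral_mono
        intro x
        show ENNReal.ofReal (cnt a e θ x) ≤ 1 + ENNReal.ofReal (max (cnt a e θ x - 1) 0)
        rw [← ENNReal.ofReal_one, ← ENNReal.ofReal_add zero_le_one (le_max_right _ _)]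
        apply ENNReal.ofReal_le_ofReal
        have := le_max_left (cnt a e θ x - 1) 0
        linarith
    _ = volume {x : ℝ | (θ, x) ∈ Ov a e}
          + ∫⁻ x in {x : ℝ | (θ, x) ∈ Ov a e}, ENNReal.ofReal (max (cnt a e θ x - 1) 0) := by
        rw [lintegral_add_left measurable_const, lintegral_const, one_mul,
          Measure.restrict_apply_univ]
    _ ≤ ENNReal.ofReal (200 / 99 * E) + ENNReal.ofReal E := by
        apply add_le_add hR
        rw [← h1]
        exact setLIntegral_le_lintegral _ _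
    _ = ENNReal.ofReal (299 / 99 * E) := by
        rw [← ENNReal.ofReal_add (by positivity) hE0]
        congr 1
        ring
    _ ≤ ENNReal.ofReal (299 / 99 * (wid e θ - 2 + ε)) := by
        apply ENNReal.ofReal_le_ofReal
        linarith

end Pool.Agent.Work.MP_655153_lb
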