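import Pool.Agent.Work.MP_655153_lb.Interface

/-!
# Block ONE: the bound for one point
-/

open MeasureTheory Set
open scoped ENNReal

namespace Pool.Agent.Work.MP_655153_lb

namespace ONE

/-- a zero of `pr · v` in a period and the change of sign there -/
theorem sign (s0 : ℝ) {v : ℂ} (hv : v ≠ 0) : ∃ θ ∈ Ioc s0 (s0 + Real.pi), pr θ v = 0 ∧
    (θ < s0 + Real.pi → ∀ a b, s0 ≤ a → a < θ → θ < b → b ≤ s0 + Real.pi →
      pr a v * pr b v < 0) := by
  obtain ⟨c, hc⟩ := exists_polar v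
  obtain ⟨m, hm, -⟩ := existsUnique_add_zsmul_mem_Ioc Real.pi_pos c s0
  rw [zsmul_eq_mul] at hm
  refine ⟨c + m * Real.pi, hm, ?_, ?_⟩
  · rw [hc, add_sub_cancel_left, Real.sin_int_mul_pi, mul_zero]
  · intro h5 a b h1 h2 h3 h4
    obtain ⟨θ, hθ⟩ : ∃ θ, θ = c + m * Real.pi := ⟨_, rfl⟩
    rw [← hθ] at hm h5 h2 h3
    have key : ∀ x, pr x v = ‖v‖ * ((-1) ^ m * Real.sin (x - θ)) := by
      intro x
      rw [hc]
      have : x - c = (x - θ) + m * Real.pi := by rw [hθ]; ring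
      rw [this, Real.sin_add_int_mul_pi]
    have hq : ((-1 : ℝ) ^ m) * (-1) ^ m = 1 := by
      rw [← zpow_add₀ (by norm_num : (-1 : ℝ) ≠ 0), Even.neg_one_zpow ⟨m, rfl⟩]
    have ha : Real.sin (a - θ) < 0 :=
      Real.sin_neg_of_neg_of_neg_pi_lt (by linarith) (by linarith)
    have hb : 0 < Real.sin (b - θ) :=
      Real.sin_pos_of_pos_of_lt_pi (by linarith) (by linarith [hm.1])
    have hn : 0 < ‖v‖ := norm_pos_iff.2 hv
    rw [key a, key b]
    have e : ‖v‖ * ((-1) ^ m * Real.sin (a - θ)) * (‖v‖ * ((-1) ^ m * Real.sin (b - θ)))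
        = ‖v‖ ^ 2 * ((-1 : ℝ) ^ m * (-1) ^ m) * (Real.sin (a - θ) * Real.sin (b - θ)) := by ring
    rw [e, hq, mul_one]
    exact mul_neg_of_pos_of_neg (by positivity) (mul_neg_of_neg_of_pos ha hb)

theorem lint0 (f : ℂ) {a b : ℝ} (hab : a ≤ b) :
    ENNReal.ofReal (∫ θ in a..b, |pr θ f|) = ∫⁻ θ in Ioc a b, ENNReal.ofReal |pr θ f| := by
  rw [intervalIntegral.integral_of_le hab, ofReal_integral_eq_lintegral_ofReal]
  · exact (continuous_pr_left f).abs.integrableOn_Ioc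
  · exact Filter.Eventually.of_forall fun θ => abs_nonneg _

theorem lint (f : ℂ) {a b : ℝ} (hab : a ≤ b) :
    ENNReal.ofReal (31 / 4 * ∫ θ in a..b, |pr θ f|)
      = ENNReal.ofReal (31 / 4) * ∫⁻ θ in Ioo a b, ENNReal.ofReal |pr θ f| := by
  rw [ENNReal.ofReal_mul (by norm_num), lint0 f hab, restrict_Ioo_eq_restrict_Ioc]

theorem period (h : ℝ → ℝ≥0∞) (hper : ∀ x, h (x + Real.pi) = h x) (s : ℝ) :
    ∫⁻ x in Ioc s (s + Real.pi), h x = ∫⁻ x in Ioc 0 Real.pi, h x := by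
  have hP : Function.Periodic h Real.pi := hper
  have hT := Real.pi_pos
  have : VAddInvariantMeasure (AddSubgroup.zmultiples Real.pi) ℝ volume :=
    ⟨fun c s _ => measure_preimage_add _ _ _⟩
  have h0 : Ioc 0 Real.pi = Ioc (0 : ℝ) (0 + Real.pi) := by rw [zero_add]
  rw [h0]
  exact (isAddFundamentalDomain_Ioc hT s).setLIntegral_eq (isAddFundamentalDomain_Ioc hT 0) h
    hP.map_vadd_zmultiples

theorem measurable_prs (c : ℝ) (p : ℂ) : Measurable (fun z : ℂ × ℂ => pr c (z.1 - p)) :=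
  ((continuous_pr_right c).comp (continuous_fst.sub continuous_const)).measurable

theorem one (hSHX : Stmt_SHX) (hLGX : Stmt_LGX) (hGAPS : Stmt_GAPS) (μ : Measure (ℂ × ℂ))
    (p f : ℂ) (G : Set ℝ) (hp : ‖p‖ ≤ 11 / 10) (hf : ‖f‖ = 1)
    (hmass : ∫⁻ z, ENNReal.ofReal ‖z.2‖ ∂μ ≤ ENNReal.ofReal (63 / 20))
    (hG : IsClosed G) (hper : ∀ θ, θ ∈ G ↔ θ + Real.pi ∈ G) (hgood : ∀ θ ∈ G, Good μ p θ)
    (hae : ∀ᵐ z ∂μ, ‖z.1‖ ≤ 11 / 10 → ker f (z.1 - p) z.2 ≠ 0 →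
      ∀ θ, pr θ (z.1 - p) = 0 → θ ∉ G) :
    ∫⁻ z in {z : ℂ × ℂ | ‖z.1‖ ≤ 11 / 10}, ENNReal.ofReal (ker f (z.1 - p) z.2) ∂μ
      ≤ ENNReal.ofReal (31 / 4) *
        ∫⁻ θ in Ioc 0 Real.pi, Gᶜ.indicator (fun _ => (1 : ℝ≥0∞)) θ * ENNReal.ofReal |pr θ f| := by
  have hSm : MeasurableSet {z : ℂ × ℂ | ‖z.1‖ ≤ 11 / 10} :=
    measurableSet_le (by fun_prop) measurable_const
  rcases G.eq_empty_or_nonempty with hGe | ⟨s0, hs0⟩
  · -- no good angle
    have h1 : ∫⁻ z in {z : ℂ × ℂ | ‖z.1‖ ≤ 11 / 10}, ENNReal.ofReal (ker f (z.1 - p) z.2) ∂μ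
        ≤ ENNReal.ofReal (63 / 20) := by
      refine le_trans ?_ hmass
      refine (setLIntegral_le_lintegral _ _).trans (lintegral_mono fun z => ?_)
      refine ENNReal.ofReal_le_ofReal ?_
      have := ker_le f (z.1 - p) z.2
      rwa [hf, one_mul] at this
    have h2 : ∫⁻ θ in Ioc 0 Real.pi, Gᶜ.indicator (fun _ => (1 : ℝ≥0∞)) θ
        * ENNReal.ofReal |pr θ f| = ENNReal.ofReal 2 := by
      have h3 := lint0 f Real.pi_pos.le
      rw [integral_abs_pr, hf, mul_one] at h3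
      rw [h3]
      refine lintegral_congr fun θ => ?_
      rw [hGe, compl_empty, indicator_univ, one_mul]
    rw [h2, ← ENNReal.ofReal_mul (by norm_num)]
    exact h1.trans (ENNReal.ofReal_le_ofReal (by norm_num))
  · obtain ⟨C, hCc, hC, hCd, hU⟩ := hGAPS G s0 Real.pi Real.pi_pos hG hs0 ((hper s0).1 hs0)
    have hpiece : ∀ c ∈ C,
        ∫⁻ z in {z : ℂ × ℂ | ‖z.1‖ ≤ 11 / 10 ∧ pr c.1 (z.1 - p) * pr c.2 (z.1 - p) < 0},
          ENNReal.ofReal (ker f (z.1 - p) z.2) ∂μ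
        ≤ ENNReal.ofReal (31 / 4) * ∫⁻ θ in Ioo c.1 c.2, ENNReal.ofReal |pr θ f| := by
      intro c hc
      obtain ⟨h1, h2, h3, h4, h5, h6⟩ := hC c hc
      rw [← lint f h2.le]
      have e : c.1 + (c.2 - c.1) = c.2 := by ring
      rcases le_total (c.2 - c.1) (26 / 25) with h | h
      · have := hSHX μ p f c.1 (c.2 - c.1) hp hf (by linarith) h (hgood _ h4)
          (by rw [e]; exact hgood _ h5)
        rw [e] at this
        exact this
      · have := hLGX μ p f c.1 (c.2 - c.1) hf h hmass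
        rw [e] at this
        exact this
    have hUm : MeasurableSet (⋃ c ∈ C,
        {z : ℂ × ℂ | ‖z.1‖ ≤ 11 / 10 ∧ pr c.1 (z.1 - p) * pr c.2 (z.1 - p) < 0}) := by
      refine MeasurableSet.biUnion hCc fun c _ => hSm.inter ?_
      exact measurableSet_lt ((measurable_prs _ _).mul (measurable_prs _ _)) measurable_const
    have hfirst : ∫⁻ z in {z : ℂ × ℂ | ‖z.1‖ ≤ 11 / 10},
          ENNReal.ofReal (ker f (z.1 - p) z.2) ∂μ
        ≤ ∫⁻ z in ⋃ c ∈ C,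
          {z : ℂ × ℂ | ‖z.1‖ ≤ 11 / 10 ∧ pr c.1 (z.1 - p) * pr c.2 (z.1 - p) < 0},
          ENNReal.ofReal (ker f (z.1 - p) z.2) ∂μ := by
      rw [← lintegral_indicator hSm, ← lintegral_indicator hUm]
      refine lintegral_mono_ae (hae.mono fun z hz => ?_)
      by_cases hzS : z ∈ {z : ℂ × ℂ | ‖z.1‖ ≤ 11 / 10}
      · by_cases hF : ENNReal.ofReal (ker f (z.1 - p) z.2) = 0
        · rw [indicator_of_mem hzS, hF]; exact zero_le
        · have hker : ker f (z.1 - p) z.2 ≠ 0 := by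
            intro h
            rw [h, ENNReal.ofReal_zero] at hF
            exact hF rfl
          have hv : z.1 - p ≠ 0 := by
            intro h
            apply hker
            rw [h]
            unfold ker
            simp
          obtain ⟨θ, hθ, hθ0, hsign⟩ := sign s0 hv
          have hθG : θ ∉ G := hz hzS hker θ hθ0
          have hθlt : θ < s0 + Real.pi := by
            refine lt_of_le_of_ne hθ.2 ?_
            rintro rfl
            exact hθG ((hper s0).1 hs0)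
          have hθU : θ ∈ ⋃ c ∈ C, Ioo c.1 c.2 := by
            rw [← hU]
            exact ⟨⟨hθ.1, hθlt⟩, hθG⟩
          obtain ⟨c, hc, hcθ⟩ := mem_iUnion₂.1 hθU
          obtain ⟨h1, h2, h3, h4, h5, h6⟩ := hC c hc
          have hzU : z ∈ ⋃ c ∈ C,
              {z : ℂ × ℂ | ‖z.1‖ ≤ 11 / 10 ∧ pr c.1 (z.1 - p) * pr c.2 (z.1 - p) < 0} :=
            mem_iUnion₂.2 ⟨c, hc, hzS, hsign hθlt c.1 c.2 h1 hcθ.1 hcθ.2 h3⟩
          rw [indicator_of_mem hzS, indicator_of_mem hzU]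
      · rw [indicator_of_notMem hzS]; exact zero_le
    have hdis : C.PairwiseDisjoint (fun c : ℝ × ℝ => Ioo c.1 c.2) := fun c hc c' hc' hne =>
      hCd c hc c' hc' hne
    have hIper : ∀ x, Gᶜ.indicator (fun _ => (1 : ℝ≥0∞)) (x + Real.pi)
          * ENNReal.ofReal |pr (x + Real.pi) f|
        = Gᶜ.indicator (fun _ => (1 : ℝ≥0∞)) x * ENNReal.ofReal |pr x f| := by
      intro x
      rw [pr_add_pi, abs_neg]
      congr 1
      by_cases hx : x ∈ G
      · have h1 : x ∉ Gᶜ := fun h => h hx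
        have h2 : x + Real.pi ∉ Gᶜ := fun h => h ((hper x).1 hx)
        rw [indicator_of_notMem h1, indicator_of_notMem h2]
      · rw [indicator_of_mem (show x ∈ Gᶜ from hx),
          indicator_of_mem (show x + Real.pi ∈ Gᶜ from fun h => hx ((hper x).2 h))]
    have hCcount : Countable C := hCc.to_subtype
    calc ∫⁻ z in {z : ℂ × ℂ | ‖z.1‖ ≤ 11 / 10}, ENNReal.ofReal (ker f (z.1 - p) z.2) ∂μ
        ≤ ∫⁻ z in ⋃ c ∈ C,
          {z : ℂ × ℂ | ‖z.1‖ ≤ 11 / 10 ∧ pr c.1 (z.1 - p) * pr c.2 (z.1 - p) < 0},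
          ENNReal.ofReal (ker f (z.1 - p) z.2) ∂μ := hfirst
      _ ≤ ∑' c : C, ∫⁻ z in
          {z : ℂ × ℂ | ‖z.1‖ ≤ 11 / 10 ∧ pr c.1.1 (z.1 - p) * pr c.1.2 (z.1 - p) < 0},
          ENNReal.ofReal (ker f (z.1 - p) z.2) ∂μ := by
          rw [biUnion_eq_iUnion]
          exact lintegral_iUnion_le _ _
      _ ≤ ∑' c : C, ENNReal.ofReal (31 / 4) *
          ∫⁻ θ in Ioo c.1.1 c.1.2, ENNReal.ofReal |pr θ f| :=
          ENNReal.tsum_le_tsum fun c => hpiece c.1 c.2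
      _ = ENNReal.ofReal (31 / 4) * ∑' c : C,
          ∫⁻ θ in Ioo c.1.1 c.1.2, ENNReal.ofReal |pr θ f| := ENNReal.tsum_mul_left
      _ = ENNReal.ofReal (31 / 4) *
          ∫⁻ θ in ⋃ c ∈ C, Ioo c.1 c.2, ENNReal.ofReal |pr θ f| := by
          rw [lintegral_biUnion hCc (fun _ _ => measurableSet_Ioo) hdis]
      _ = ENNReal.ofReal (31 / 4) *
          ∫⁻ θ in Ioo s0 (s0 + Real.pi) \ G, Gᶜ.indicator (fun _ => (1 : ℝ≥0∞)) θ
            * ENNReal.ofReal |pr θ f| := by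
          rw [← hU]
          congr 1
          refine setLIntegral_congr_fun (measurableSet_Ioo.diff hG.measurableSet) fun θ hθ => ?_
          rw [indicator_of_mem (show θ ∈ Gᶜ from hθ.2), one_mul]
      _ ≤ ENNReal.ofReal (31 / 4) *
          ∫⁻ θ in Ioc s0 (s0 + Real.pi), Gᶜ.indicator (fun _ => (1 : ℝ≥0∞)) θ
            * ENNReal.ofReal |pr θ f| := by
          refine mul_le_mul_right (lintegral_mono_set ?_) _
          exact sdiff_subset.trans Ioo_subset_Ioc_self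
      _ = _ := by rw [period _ hIper s0]

end ONE

theorem blk_ONE (hSHX : Stmt_SHX) (hLGX : Stmt_LGX) (hGAPS : Stmt_GAPS) : Stmt_ONE := by
  intro μ p f G hp hmass hG hper hgood hae
  rcases eq_or_ne f 0 with rfl | hf
  · have h0 : ∀ z : ℂ × ℂ, ENNReal.ofReal (ker 0 (z.1 - p) z.2) = 0 := by
      intro z
      unfold ker det
      simp
    simp only [h0, lintegral_zero]
    exact zero_le
  · have hn : 0 < ‖f‖ := norm_pos_iff.2 hf
    obtain ⟨g, hg⟩ : ∃ g : ℂ, g = ((‖f‖⁻¹ : ℝ) : ℂ) * f := ⟨_, rfl⟩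
    have hg1 : ‖g‖ = 1 := by
      rw [hg, norm_mul, Complex.norm_real, Real.norm_eq_abs, abs_of_pos (inv_pos.2 hn),
        inv_mul_cancel₀ hn.ne']
    have hfg : f = ((‖f‖ : ℝ) : ℂ) * g := by
      rw [hg, ← mul_assoc, ← Complex.ofReal_mul, mul_inv_cancel₀ hn.ne', Complex.ofReal_one,
        one_mul]
    have hker : ∀ z : ℂ × ℂ, ker f (z.1 - p) z.2 = ‖f‖ * ker g (z.1 - p) z.2 := by
      intro z
      rw [show ker f (z.1 - p) z.2 = ker (((‖f‖ : ℝ) : ℂ) * g) (z.1 - p) z.2 by rw [← hfg],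
        ker_smul_left, abs_of_pos hn]
    have hpr : ∀ θ, |pr θ f| = ‖f‖ * |pr θ g| := by
      intro θ
      rw [show pr θ f = pr θ (((‖f‖ : ℝ) : ℂ) * g) by rw [← hfg], pr_smul, abs_mul,
        abs_of_pos hn]
    have hae' : ∀ᵐ z ∂μ, ‖z.1‖ ≤ 11 / 10 → ker g (z.1 - p) z.2 ≠ 0 →
        ∀ θ, pr θ (z.1 - p) = 0 → θ ∉ G := by
      refine hae.mono fun z hz h1 h2 => hz h1 ?_
      rw [hker z]
      exact mul_ne_zero hn.ne' h2
    have h := ONE.one hSHX hLGX hGAPS μ p g G hp hg1 hmass hG hper hgood hae'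
    have hl : ∫⁻ z in {z : ℂ × ℂ | ‖z.1‖ ≤ 11 / 10}, ENNReal.ofReal (ker f (z.1 - p) z.2) ∂μ
        = ENNReal.ofReal ‖f‖ *
          ∫⁻ z in {z : ℂ × ℂ | ‖z.1‖ ≤ 11 / 10}, ENNReal.ofReal (ker g (z.1 - p) z.2) ∂μ := by
      rw [← lintegral_const_mul' _ _ ENNReal.ofReal_ne_top]
      refine lintegral_congr fun z => ?_
      rw [hker z, ENNReal.ofReal_mul hn.le]
    have hr : ∫⁻ θ in Ioc 0 Real.pi, Gᶜ.indicator (fun _ => (1 : ℝ≥0∞)) θ
          * ENNReal.ofReal |pr θ f|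
        = ENNReal.ofReal ‖f‖ * ∫⁻ θ in Ioc 0 Real.pi, Gᶜ.indicator (fun _ => (1 : ℝ≥0∞)) θ
          * ENNReal.ofReal |pr θ g| := by
      rw [← lintegral_const_mul' _ _ ENNReal.ofReal_ne_top]
      refine lintegral_congr fun θ => ?_
      rw [hpr θ, ENNReal.ofReal_mul hn.le, mul_left_comm]
    rw [hl, hr, mul_left_comm]
    exact mul_le_mul_right h _

end Pool.Agent.Work.MP_655153_lb
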