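import Pool.Agent.Work.MP_655153_lb.Interface

open MeasureTheory Set

namespace Pool.Agent.Work.MP_655153_lb

namespace OPEN

variable {n : ℕ} (a e : Fin n → ℂ)

theorem continuous_lo (i : Fin n) : Continuous (fun θ => lo a e θ i) := by
  unfold lo
  exact (continuous_pr_left _).min (continuous_pr_left _)

theorem continuous_hi (i : Fin n) : Continuous (fun θ => hi a e θ i) := by
  unfold hi
  exact (continuous_pr_left _).max (continuous_pr_left _)

theorem continuous_mass {X : Type*} [TopologicalSpace X] {f g h : X → ℝ} (hf : Continuous f)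
    (hg : Continuous g) (hh : Continuous h) :
    Continuous (fun z => mass a e (f z) (g z) (h z)) := by
  unfold mass
  apply continuous_finset_sum
  intro i _
  exact continuous_const.max
    ((((continuous_hi a e i).comp hf).min hh).sub (((continuous_lo a e i).comp hf).max hg))

theorem lo_add_pi (θ : ℝ) (i : Fin n) : lo a e (θ + Real.pi) i = - hi a e θ i := by
  unfold lo hi
  rw [pr_add_pi, pr_add_pi, min_neg_neg]

theorem hi_add_pi (θ : ℝ) (i : Fin n) : hi a e (θ + Real.pi) i = - lo a e θ i := by
  unfold lo hi
  rw [pr_add_pi, pr_add_pi, max_neg_neg]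

theorem mass_add_pi (θ x y : ℝ) : mass a e (θ + Real.pi) (-y) (-x) = mass a e θ x y := by
  unfold mass
  apply Finset.sum_congr rfl
  intro i _
  rw [lo_add_pi, hi_add_pi, min_neg_neg, max_neg_neg]
  congr 1
  ring

end OPEN

theorem blk_OPEN : Stmt_OPEN := by
  intro n a e
  constructor
  · have h : Ov a e = ⋃ d : ℝ, ⋃ _ : 0 < d,
        ({z : ℝ × ℝ | 199 / 100 * d < mass a e z.1 z.2 (z.2 + d)} ∪
          {z : ℝ × ℝ | 199 / 100 * d < mass a e z.1 (z.2 - d) z.2}) := by
      ext z
      simp only [Ov, mem_setOf_eq, mem_iUnion, mem_union, exists_prop]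
    rw [h]
    apply isOpen_iUnion
    intro d
    apply isOpen_iUnion
    intro _
    apply IsOpen.union
    · exact isOpen_lt continuous_const
        (OPEN.continuous_mass a e continuous_fst continuous_snd
          (continuous_snd.add continuous_const))
    · exact isOpen_lt continuous_const
        (OPEN.continuous_mass a e continuous_fst (continuous_snd.sub continuous_const)
          continuous_snd)
  · intro θ x
    have h1 : ∀ d : ℝ, mass a e (θ + Real.pi) (-x) (-x + d) = mass a e θ (x - d) x := by
      intro d
      rw [← OPEN.mass_add_pi a e θ (x - d) x]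
      congr 1
      ring
    have h2 : ∀ d : ℝ, mass a e (θ + Real.pi) (-x - d) (-x) = mass a e θ x (x + d) := by
      intro d
      rw [← OPEN.mass_add_pi a e θ x (x + d)]
      congr 1
      ring
    simp only [Ov, mem_setOf_eq]
    constructor
    · rintro ⟨d, hd, h⟩
      refine ⟨d, hd, ?_⟩
      rw [h1, h2]
      exact h.symm
    · rintro ⟨d, hd, h⟩
      refine ⟨d, hd, ?_⟩
      rw [h1, h2] at h
      exact h.symm

end Pool.Agent.Work.MP_655153_lb
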