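import Pool.Agent.Work.MP_655153_lb.Interface
import Pool.Agent.Work.MP_655153_lb.Chg

/-!
# Block OUT: the length outside the disc of radius `1.1`
-/

open MeasureTheory Set
open scoped ENNReal

namespace Pool.Agent.Work.MP_655153_lb

namespace OUT

theorem cnt_nonneg {n : ℕ} (a e : Fin n → ℂ) (θ x : ℝ) : 0 ≤ cnt a e θ x :=
  Finset.sum_nonneg (fun _ _ => indicator_nonneg (fun _ _ => zero_le_one) _)

theorem one_le_cnt {n : ℕ} (a e : Fin n → ℂ) (θ x : ℝ) (h : cnt a e θ x ≠ 0) :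
    1 ≤ cnt a e θ x := by
  obtain ⟨i, _, hi⟩ := Finset.exists_ne_zero_of_sum_ne_zero h
  have h1 : (Icc (lo a e θ i) (Pool.Agent.Work.MP_655153_lb.hi a e θ i)).indicator
      (fun _ => (1 : ℝ)) x = 1 := by
    by_cases hx : x ∈ Icc (lo a e θ i) (Pool.Agent.Work.MP_655153_lb.hi a e θ i)
    · rw [indicator_of_mem hx]
    · exact absurd (indicator_of_notMem hx _) hi
  have h2 := Finset.single_le_sum (f := fun i => (Icc (lo a e θ i)
    (Pool.Agent.Work.MP_655153_lb.hi a e θ i)).indicator (fun _ => (1 : ℝ)) x)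
    (fun i _ => indicator_nonneg (fun _ _ => zero_le_one) _) (Finset.mem_univ i)
  change _ ≤ cnt a e θ x at h2
  exact h1.symm.le.trans h2

/-- the set of abscissas of modulus at least one -/
def Bs : Set ℝ := {x | 1 ≤ |x|}

theorem measurableSet_Bs : MeasurableSet Bs := measurableSet_le measurable_const (by fun_prop)

theorem compl_Bs : Bsᶜ = Ioo (-1) 1 := by
  ext x
  simp only [Bs, mem_compl_iff, mem_ofPred_eq, not_le, mem_Ioo, abs_lt]

/-- outside mass in one direction -/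
theorem dir (hM : Stmt_MASS) {n : ℕ} (a e : Fin n → ℂ) (ε θ : ℝ) (hε : 0 ≤ ε)
    (hC : Cov a e ε) :
    ∫⁻ x in Bs, ENNReal.ofReal (cnt a e θ x) ≤ ENNReal.ofReal (wid e θ - 2 + ε) ∧
      0 ≤ wid e θ - 2 + ε := by
  obtain ⟨hm, hi, hw, -⟩ := hM n a e θ
  have hwid : 0 ≤ wid e θ := Finset.sum_nonneg (fun i _ => abs_nonneg _)
  have h1 : ∫⁻ x, ENNReal.ofReal (cnt a e θ x) = ENNReal.ofReal (wid e θ) := by
    rw [← hw, ofReal_integral_eq_lintegral_ofReal hi]
    exact Filter.Eventually.of_forall (cnt_nonneg a e θ)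
  have h2 : (∫⁻ x in Bs, ENNReal.ofReal (cnt a e θ x)) +
      (∫⁻ x in Ioo (-1) 1, ENNReal.ofReal (cnt a e θ x)) = ENNReal.ofReal (wid e θ) := by
    rw [← h1, ← compl_Bs]
    exact lintegral_add_compl _ measurableSet_Bs
  have hmz : MeasurableSet {x : ℝ | cnt a e θ x = 0} := hm (measurableSet_singleton 0)
  have h3 : ENNReal.ofReal (2 - ε) ≤ ∫⁻ x in Ioo (-1) 1, ENNReal.ofReal (cnt a e θ x) := by
    have h4 : volume (Ioo (-1 : ℝ) 1 ∩ {x : ℝ | cnt a e θ x = 0}) +
        volume (Ioo (-1 : ℝ) 1 \ {x : ℝ | cnt a e θ x = 0}) = ENNReal.ofReal 2 := by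
      rw [measure_inter_add_sdiff _ hmz, Real.volume_Ioo]
      norm_num
    have h5 : volume (Ioo (-1 : ℝ) 1 ∩ {x : ℝ | cnt a e θ x = 0}) ≤ ENNReal.ofReal ε := hC θ
    have h6 : volume (Ioo (-1 : ℝ) 1 \ {x : ℝ | cnt a e θ x = 0}) ≤
        ∫⁻ x in Ioo (-1) 1, ENNReal.ofReal (cnt a e θ x) := by
      have hms : MeasurableSet (Ioo (-1 : ℝ) 1 \ {x : ℝ | cnt a e θ x = 0}) :=
        measurableSet_Ioo.diff hmz
      calc volume (Ioo (-1 : ℝ) 1 \ {x : ℝ | cnt a e θ x = 0})
          = ∫⁻ x in Ioo (-1 : ℝ) 1 \ {x : ℝ | cnt a e θ x = 0}, 1 := by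
            rw [setLIntegral_one]
        _ ≤ ∫⁻ x in Ioo (-1 : ℝ) 1 \ {x : ℝ | cnt a e θ x = 0},
            ENNReal.ofReal (cnt a e θ x) := by
            refine setLIntegral_mono' hms (fun x hx => ?_)
            rw [← ENNReal.ofReal_one]
            exact ENNReal.ofReal_le_ofReal (one_le_cnt a e θ x hx.2)
        _ ≤ _ := lintegral_mono_set sdiff_subset
    calc ENNReal.ofReal (2 - ε) = ENNReal.ofReal 2 - ENNReal.ofReal ε := ENNReal.ofReal_sub _ hε
      _ ≤ volume (Ioo (-1 : ℝ) 1 \ {x : ℝ | cnt a e θ x = 0}) := by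
          rw [tsub_le_iff_left, ← h4]
          exact add_le_add_left h5 _
      _ ≤ _ := h6
  have h7 : ENNReal.ofReal (2 - ε) ≤ ENNReal.ofReal (wid e θ) := by
    rw [← h2]
    exact h3.trans le_add_self
  have h8 : 2 - ε ≤ wid e θ := (ENNReal.ofReal_le_ofReal_iff hwid).mp h7
  refine ⟨?_, by linarith⟩
  have h9 : (∫⁻ x in Bs, ENNReal.ofReal (cnt a e θ x)) + ENNReal.ofReal (2 - ε) ≤
      ENNReal.ofReal (wid e θ) := by
    rw [← h2]
    exact add_le_add_right h3 _
  by_cases h10 : 0 ≤ 2 - ε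
  · have e1 : wid e θ - 2 + ε = wid e θ - (2 - ε) := by ring
    rw [e1, ENNReal.ofReal_sub _ h10]
    exact ENNReal.le_sub_of_add_le_right ENNReal.ofReal_ne_top h9
  · refine (le_self_add.trans h9).trans (ENNReal.ofReal_le_ofReal ?_)
    linarith

theorem abs_sin_add (m u : ℝ) : Real.sin (2 * u) ≤ |Real.sin (m - u)| + |Real.sin (m + u)| := by
  have h1 : Real.sin (2 * u) = Real.sin (m + u) * Real.cos (m - u) -
      Real.cos (m + u) * Real.sin (m - u) := by
    rw [← Real.sin_sub]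
    congr 1
    ring
  rw [h1]
  have h2 : Real.sin (m + u) * Real.cos (m - u) ≤ |Real.sin (m + u)| := by
    refine (le_abs_self _).trans ?_
    rw [abs_mul]
    exact mul_le_of_le_one_right (abs_nonneg _) (Real.abs_cos_le_one _)
  have h3 : -(Real.cos (m + u) * Real.sin (m - u)) ≤ |Real.sin (m - u)| := by
    refine (neg_le_abs _).trans ?_
    rw [abs_mul]
    exact mul_le_of_le_one_left (abs_nonneg _) (Real.abs_cos_le_one _)
  linarith

theorem sin_int (m : ℝ) : 4 / 25 ≤ ∫ x in (m - 21 / 50)..(m + 21 / 50), |Real.sin x| := by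
  have hc : Continuous (fun x : ℝ => |Real.sin x|) := by fun_prop
  have e1 : ∫ x in (m - 21 / 50)..m, |Real.sin x| = ∫ u in (0 : ℝ)..(21 / 50), |Real.sin (m - u)| := by
    rw [intervalIntegral.integral_comp_sub_left (fun x => |Real.sin x|) m, sub_zero]
  have e2 : ∫ x in m..(m + 21 / 50), |Real.sin x| = ∫ u in (0 : ℝ)..(21 / 50), |Real.sin (m + u)| := by
    rw [intervalIntegral.integral_comp_add_left (fun x => |Real.sin x|) m, add_zero]
  have e3 : ∫ x in (m - 21 / 50)..(m + 21 / 50), |Real.sin x| =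
      ∫ u in (0 : ℝ)..(21 / 50), (|Real.sin (m - u)| + |Real.sin (m + u)|) := by
    rw [intervalIntegral.integral_add, ← e1, ← e2,
      intervalIntegral.integral_add_adjacent_intervals]
    · exact hc.intervalIntegrable _ _
    · exact hc.intervalIntegrable _ _
    · exact Continuous.intervalIntegrable (by fun_prop) _ _
    · exact Continuous.intervalIntegrable (by fun_prop) _ _
  have e4 : ∫ u in (0 : ℝ)..(21 / 50), Real.sin (2 * u) = (1 - Real.cos (21 / 25)) / 2 := by
    rw [intervalIntegral.integral_comp_mul_left (fun x => Real.sin x) two_ne_zero, integral_sin]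
    norm_num
    ring
  have e5 : ∫ u in (0 : ℝ)..(21 / 50), Real.sin (2 * u) ≤
      ∫ u in (0 : ℝ)..(21 / 50), (|Real.sin (m - u)| + |Real.sin (m + u)|) := by
    apply intervalIntegral.integral_mono_on (by norm_num)
    · exact Continuous.intervalIntegrable (by fun_prop) _ _
    · exact Continuous.intervalIntegrable (by fun_prop) _ _
    · intro u _
      exact abs_sin_add m u
  have e6 : |Real.cos (21 / 25) - (1 - (21 / 25) ^ 2 / 2)| ≤ |(21 / 25 : ℝ)| ^ 4 * (5 / 96) :=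
    Real.cos_bound (by rw [abs_of_pos] <;> norm_num)
  rw [abs_of_pos (by norm_num : (0 : ℝ) < 21 / 25)] at e6
  have e7 := (abs_le.mp e6).2
  rw [e3]
  refine le_trans ?_ e5
  rw [e4]
  norm_num at e7 ⊢
  linarith

/-- lower bound for the angles at which the point `p` is seen outside -/
theorem angle (p f : ℂ) (hp : 11 / 10 < ‖p‖) :
    ENNReal.ofReal (4 / 25 * ‖f‖) ≤ ∫⁻ θ in Ioc 0 Real.pi,
      ENNReal.ofReal |pr θ f| * Bs.indicator (fun _ => (1 : ℝ≥0∞)) (pr θ p) := by
  obtain ⟨c, hc⟩ := exists_polar p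
  obtain ⟨c', hc'⟩ := exists_polar f
  let H : ℝ → ℝ≥0∞ := fun θ =>
    ENNReal.ofReal |pr θ f| * Bs.indicator (fun _ => (1 : ℝ≥0∞)) (pr θ p)
  have hH : Function.Periodic H Real.pi := by
    intro θ
    change ENNReal.ofReal |pr (θ + Real.pi) f| *
      Bs.indicator (fun _ => (1 : ℝ≥0∞)) (pr (θ + Real.pi) p) =
      ENNReal.ofReal |pr θ f| * Bs.indicator (fun _ => (1 : ℝ≥0∞)) (pr θ p)
    rw [pr_add_pi, pr_add_pi, abs_neg]
    congr 1
    have hb : (-pr θ p ∈ Bs) ↔ (pr θ p ∈ Bs) := by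
      change 1 ≤ |-pr θ p| ↔ 1 ≤ |pr θ p|
      rw [abs_neg]
    by_cases h : pr θ p ∈ Bs
    · rw [indicator_of_mem h, indicator_of_mem (hb.mpr h)]
    · rw [indicator_of_notMem h, indicator_of_notMem (fun h' => h (hb.mp h'))]
  let ψ : ℝ := c + Real.pi / 2
  have h1 : ∫⁻ θ in Ioc 0 Real.pi, H θ =
      ∫⁻ θ in Ioc (ψ - Real.pi / 2) (ψ - Real.pi / 2 + Real.pi), H θ := by
    haveI : VAddInvariantMeasure (AddSubgroup.zmultiples Real.pi) ℝ volume :=
      ⟨fun c s _ => measure_preimage_add _ _ _⟩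
    have h0 := (isAddFundamentalDomain_Ioc Real.pi_pos 0).setLIntegral_eq
      (isAddFundamentalDomain_Ioc Real.pi_pos (ψ - Real.pi / 2)) H
      (fun g x => hH.map_vadd_zmultiples g x)
    rwa [zero_add] at h0
  have hpi := Real.pi_gt_three
  have h2 : Ioc (ψ - 21 / 50) (ψ + 21 / 50) ⊆ Ioc (ψ - Real.pi / 2) (ψ - Real.pi / 2 + Real.pi) := by
    apply Ioc_subset_Ioc <;> linarith
  have h3 : ∀ θ ∈ Ioc (ψ - 21 / 50) (ψ + 21 / 50), ENNReal.ofReal |pr θ f| ≤ H θ := by
    intro θ hθ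
    have hB : pr θ p ∈ Bs := by
      change 1 ≤ |pr θ p|
      have e1 : θ - c = (θ - ψ) + Real.pi / 2 := by
        change θ - c = (θ - (c + Real.pi / 2)) + Real.pi / 2
        ring
      rw [hc, e1, Real.sin_add_pi_div_two]
      have h4 : 1 - (θ - ψ) ^ 2 / 2 ≤ Real.cos (θ - ψ) := Real.one_sub_sq_div_two_le_cos
      have h5 : (θ - ψ) ^ 2 ≤ (21 / 50) ^ 2 := by
        apply sq_le_sq'
        · linarith [hθ.1]
        · linarith [hθ.2]
      have h6 : 4559 / 5000 ≤ Real.cos (θ - ψ) := by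
        norm_num at h5
        linarith
      refine le_trans ?_ (le_abs_self _)
      calc (1 : ℝ) ≤ 11 / 10 * (4559 / 5000) := by norm_num
        _ ≤ ‖p‖ * Real.cos (θ - ψ) := mul_le_mul hp.le h6 (by norm_num) (norm_nonneg _)
    change _ ≤ ENNReal.ofReal |pr θ f| * Bs.indicator (fun _ => (1 : ℝ≥0∞)) (pr θ p)
    rw [indicator_of_mem hB, mul_one]
  change _ ≤ ∫⁻ θ in Ioc 0 Real.pi, H θ
  rw [h1]
  refine le_trans ?_ (lintegral_mono_set h2)
  refine le_trans ?_ (setLIntegral_mono' measurableSet_Ioc h3)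
  have hcont : Continuous (fun θ => |pr θ f|) := (continuous_pr_left f).abs
  have h7 : ∫⁻ θ in Ioc (ψ - 21 / 50) (ψ + 21 / 50), ENNReal.ofReal |pr θ f| =
      ENNReal.ofReal (∫ θ in (ψ - 21 / 50)..(ψ + 21 / 50), |pr θ f|) := by
    rw [intervalIntegral.integral_of_le (by linarith),
      ofReal_integral_eq_lintegral_ofReal
        ((hcont.integrableOn_Icc).mono_set Ioc_subset_Icc_self)]
    exact Filter.Eventually.of_forall (fun θ => abs_nonneg _)
  rw [h7]
  apply ENNReal.ofReal_le_ofReal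
  have h8 : ∫ θ in (ψ - 21 / 50)..(ψ + 21 / 50), |pr θ f| =
      ‖f‖ * ∫ x in (ψ - c' - 21 / 50)..(ψ - c' + 21 / 50), |Real.sin x| := by
    have h9 : ∀ θ, |pr θ f| = ‖f‖ * |Real.sin (θ - c')| := by
      intro θ
      rw [hc', abs_mul, abs_norm]
    simp only [h9]
    rw [intervalIntegral.integral_const_mul,
      intervalIntegral.integral_comp_sub_right (fun x => |Real.sin x|)]
    congr 2 <;> ring
  rw [h8, mul_comm]
  exact mul_le_mul_of_nonneg_left (sin_int _) (norm_nonneg _)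

end OUT

open OUT in
theorem blk_OUT (hMASS : Stmt_MASS) : Stmt_OUT := by
  intro n a e ε hε hC
  have hBm : Measurable (Bs.indicator (fun _ => (1 : ℝ≥0∞))) :=
    measurable_const.indicator measurableSet_Bs
  let K : Fin n → ℝ → ℝ → ℝ≥0∞ := fun i θ s =>
    ENNReal.ofReal |pr θ (e i)| * Bs.indicator (fun _ => (1 : ℝ≥0∞)) (pr θ (pt a e i s))
  have hKm : ∀ i, Measurable (Function.uncurry (K i)) := by
    intro i
    have c1 : Continuous (fun z : ℝ × ℝ => pr z.1 (pt a e i z.2)) :=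
      continuous_pr.comp (continuous_fst.prodMk ((continuous_pt a e i).comp continuous_snd))
    have c2 : Continuous (fun z : ℝ × ℝ => |pr z.1 (e i)|) :=
      ((continuous_pr_left (e i)).comp continuous_fst).abs
    exact (ENNReal.measurable_ofReal.comp c2.measurable).mul (hBm.comp c1.measurable)
  have hcm : ∀ θ, Measurable (cnt a e θ) := fun θ => (hMASS n a e θ).1
  -- one direction
  have hdir : ∀ θ, ∑ i, ∫⁻ s in Icc (0 : ℝ) 1, K i θ s ≤ ENNReal.ofReal (wid e θ - 2 + ε) := by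
    intro θ
    refine le_trans (le_of_eq ?_) (dir hMASS a e ε θ hε hC).1
    have h1 : ∀ i, ∫⁻ s in Icc (0 : ℝ) 1, K i θ s =
        ∫⁻ x, (Icc (lo a e θ i) (hi a e θ i)).indicator
          (Bs.indicator (fun _ => (1 : ℝ≥0∞))) x := by
      intro i
      rw [lintegral_indicator measurableSet_Icc]
      exact chg_lint a e i θ hBm
    rw [Finset.sum_congr rfl (fun i _ => h1 i), ← lintegral_finsetSum _
      (fun i _ => hBm.indicator measurableSet_Icc), ← lintegral_indicator measurableSet_Bs]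
    refine lintegral_congr (fun x => ?_)
    by_cases hx : x ∈ Bs
    · rw [indicator_of_mem hx, cnt, ENNReal.ofReal_sum_of_nonneg
        (fun i _ => indicator_nonneg (fun _ _ => zero_le_one) _)]
      refine Finset.sum_congr rfl (fun i _ => ?_)
      by_cases hi' : x ∈ Icc (lo a e θ i) (hi a e θ i)
      · rw [indicator_of_mem hi', indicator_of_mem hi', indicator_of_mem hx, ENNReal.ofReal_one]
      · rw [indicator_of_notMem hi', indicator_of_notMem hi', ENNReal.ofReal_zero]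
    · rw [indicator_of_notMem hx]
      refine Finset.sum_eq_zero (fun i _ => ?_)
      by_cases hi' : x ∈ Icc (lo a e θ i) (hi a e θ i)
      · rw [indicator_of_mem hi', indicator_of_notMem hx]
      · rw [indicator_of_notMem hi']
  -- integrate over the directions
  have hwc : Continuous (fun θ => wid e θ - 2 + ε) := by
    unfold wid
    have : Continuous (fun θ => ∑ i, |pr θ (e i)|) :=
      continuous_finsetSum _ (fun i _ => (continuous_pr_left (e i)).abs)
    fun_prop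
  have hint : ∫ θ in (0 : ℝ)..Real.pi, (wid e θ - 2 + ε) =
      2 * len e - 2 * Real.pi + Real.pi * ε := by
    have hw : ∫ θ in (0 : ℝ)..Real.pi, wid e θ = 2 * len e := by
      unfold wid len
      rw [intervalIntegral.integral_finsetSum
        (fun i _ => ((continuous_pr_left (e i)).abs).intervalIntegrable _ _), Finset.mul_sum]
      exact Finset.sum_congr rfl (fun i _ => integral_abs_pr (e i))
    have e1 : ∀ θ, wid e θ - 2 + ε = wid e θ + (ε - 2) := fun θ => by ring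
    have hwc' : Continuous (fun θ => wid e θ) := by
      have : (fun θ => wid e θ) = fun θ => (wid e θ - 2 + ε) + (2 - ε) := by
        funext θ
        ring
      rw [this]
      exact hwc.add continuous_const
    simp only [e1]
    rw [intervalIntegral.integral_add (hwc'.intervalIntegrable _ _)
      (continuous_const.intervalIntegrable _ _), hw, intervalIntegral.integral_const, smul_eq_mul]
    ring
  have hnn : ∀ θ, 0 ≤ wid e θ - 2 + ε := fun θ => (dir hMASS a e ε θ hε hC).2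
  have hnn2 : 0 ≤ 2 * len e - 2 * Real.pi + Real.pi * ε := by
    rw [← hint]
    exact intervalIntegral.integral_nonneg Real.pi_pos.le (fun θ _ => hnn θ)
  have hup : ∫⁻ θ in Ioc 0 Real.pi, ∑ i, ∫⁻ s in Icc (0 : ℝ) 1, K i θ s ≤
      ENNReal.ofReal (2 * len e - 2 * Real.pi + Real.pi * ε) := by
    rw [← hint, intervalIntegral.integral_of_le Real.pi_pos.le,
      ofReal_integral_eq_lintegral_ofReal
        ((hwc.integrableOn_Icc).mono_set Ioc_subset_Icc_self)
        (Filter.Eventually.of_forall hnn)]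
    exact lintegral_mono (fun θ => hdir θ)
  have hex : ∫⁻ θ in Ioc 0 Real.pi, ∑ i, ∫⁻ s in Icc (0 : ℝ) 1, K i θ s =
      ∑ i, ∫⁻ s in Icc (0 : ℝ) 1, ∫⁻ θ in Ioc 0 Real.pi, K i θ s := by
    rw [lintegral_finsetSum _ (fun i _ => (hKm i).lintegral_prod_right)]
    exact Finset.sum_congr rfl (fun i _ => lintegral_lintegral_swap (hKm i).aemeasurable)
  rw [hex] at hup
  apply (ENNReal.ofReal_le_ofReal_iff hnn2).mp
  refine le_trans ?_ hup
  unfold outer
  rw [Finset.mul_sum, ENNReal.ofReal_sum_of_nonneg (fun i _ => by positivity)]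
  refine Finset.sum_le_sum (fun i _ => ?_)
  have hSm : MeasurableSet {s : ℝ | s ∈ Icc (0 : ℝ) 1 ∧ 11 / 10 < ‖pt a e i s‖} :=
    measurableSet_Icc.inter (measurableSet_lt measurable_const
      (continuous_pt a e i).norm.measurable)
  have hfin : volume {s : ℝ | s ∈ Icc (0 : ℝ) 1 ∧ 11 / 10 < ‖pt a e i s‖} ≠ ⊤ := by
    refine ne_top_of_le_ne_top ?_ (measure_mono (fun s hs => hs.1 :
      {s : ℝ | s ∈ Icc (0 : ℝ) 1 ∧ 11 / 10 < ‖pt a e i s‖} ⊆ Icc (0 : ℝ) 1))
    rw [Real.volume_Icc]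
    exact ENNReal.ofReal_ne_top
  calc ENNReal.ofReal (4 / 25 * (‖e i‖ *
        (volume {s : ℝ | s ∈ Icc (0 : ℝ) 1 ∧ 11 / 10 < ‖pt a e i s‖}).toReal))
      = ENNReal.ofReal (4 / 25 * ‖e i‖) *
          volume {s : ℝ | s ∈ Icc (0 : ℝ) 1 ∧ 11 / 10 < ‖pt a e i s‖} := by
        rw [← mul_assoc, ENNReal.ofReal_mul (by positivity), ENNReal.ofReal_toReal hfin]
    _ = ∫⁻ _ in {s : ℝ | s ∈ Icc (0 : ℝ) 1 ∧ 11 / 10 < ‖pt a e i s‖},
          ENNReal.ofReal (4 / 25 * ‖e i‖) := by
        rw [setLIntegral_const]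
    _ ≤ ∫⁻ s in {s : ℝ | s ∈ Icc (0 : ℝ) 1 ∧ 11 / 10 < ‖pt a e i s‖},
          ∫⁻ θ in Ioc 0 Real.pi, K i θ s := by
        exact setLIntegral_mono' hSm (fun s hs => angle (pt a e i s) (e i) hs.2)
    _ ≤ ∫⁻ s in Icc (0 : ℝ) 1, ∫⁻ θ in Ioc 0 Real.pi, K i θ s :=
        lintegral_mono_set (fun s hs => hs.1)

end Pool.Agent.Work.MP_655153_lb
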