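import Pool.Agent.Work.MP_655153_lb.Interface
import Pool.Agent.Work.MP_655153_lb.Chg

/-!
# Block PHI: the projection integral with `phi`
-/

open MeasureTheory Set

namespace Pool.Agent.Work.MP_655153_lb

namespace PHI

theorem cnt_nonneg {n : ℕ} (a e : Fin n → ℂ) (θ x : ℝ) : 0 ≤ cnt a e θ x := by
  unfold cnt
  exact Finset.sum_nonneg fun i _ => indicator_nonneg (fun _ _ => zero_le_one) _

theorem one_le_cnt {n : ℕ} (a e : Fin n → ℂ) (θ x : ℝ) (h : cnt a e θ x ≠ 0) :
    1 ≤ cnt a e θ x := by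
  unfold cnt at h ⊢
  obtain ⟨i, hmi, hne⟩ := Finset.exists_ne_zero_of_sum_ne_zero h
  have hmem : x ∈ Icc (lo a e θ i) (hi a e θ i) := by
    by_contra hx
    exact hne (indicator_of_notMem hx _)
  have h1 : (Icc (lo a e θ i) (hi a e θ i)).indicator (fun _ => (1 : ℝ)) x = 1 :=
    indicator_of_mem hmem _
  calc (1 : ℝ) = (Icc (lo a e θ i) (hi a e θ i)).indicator (fun _ => (1 : ℝ)) x := h1.symm
    _ ≤ _ := Finset.single_le_sum
      (f := fun i => (Icc (lo a e θ i) (hi a e θ i)).indicator (fun _ => (1 : ℝ)) x)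
      (fun i _ => indicator_nonneg (fun _ _ => zero_le_one) _) hmi

/-- the sum of the integrals is the integral against `cnt` -/
theorem sum_eq {n : ℕ} (a e : Fin n → ℂ) (θ : ℝ) {g : ℝ → ℝ} (hg : Continuous g) :
    Integrable (fun x => cnt a e θ x * g x) ∧
      ∑ j, ∫ x in (lo a e θ j)..(hi a e θ j), g x = ∫ x, cnt a e θ x * g x := by
  have hint : ∀ j, Integrable ((Icc (lo a e θ j) (hi a e θ j)).indicator g) := fun j =>
    (integrable_indicator_iff measurableSet_Icc).2 hg.integrableOn_Icc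
  have heq : ∀ x, cnt a e θ x * g x =
      ∑ j, (Icc (lo a e θ j) (hi a e θ j)).indicator g x := by
    intro x
    unfold cnt
    rw [Finset.sum_mul]
    refine Finset.sum_congr rfl fun j _ => ?_
    by_cases hx : x ∈ Icc (lo a e θ j) (hi a e θ j)
    · rw [indicator_of_mem hx, indicator_of_mem hx, one_mul]
    · rw [indicator_of_notMem hx, indicator_of_notMem hx, zero_mul]
  constructor
  · have h1 : (fun x => cnt a e θ x * g x) =
        fun x => ∑ j, (Icc (lo a e θ j) (hi a e θ j)).indicator g x := funext heq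
    rw [h1]
    exact integrable_finsetSum _ fun j _ => hint j
  · rw [integral_congr_ae (Filter.Eventually.of_forall heq),
      integral_finsetSum _ fun j _ => hint j]
    refine Finset.sum_congr rfl fun j _ => ?_
    rw [intervalIntegral.integral_of_le (lo_le_hi a e θ j), integral_indicator measurableSet_Icc,
      integral_Icc_eq_integral_Ioc]

theorem tent : ∫ x in (-1 : ℝ)..1, (1 - |x|) ^ 3 = 1 / 2 := by
  have hc : Continuous (fun x : ℝ => (1 - |x|) ^ 3) := by fun_prop
  rw [← intervalIntegral.integral_add_adjacent_intervals (hc.intervalIntegrable (-1) 0)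
    (hc.intervalIntegrable 0 1)]
  have h1 : ∫ x in (-1 : ℝ)..0, (1 - |x|) ^ 3 = ∫ x in (-1 : ℝ)..0, (x + 1) ^ 3 := by
    refine intervalIntegral.integral_congr fun x hx => ?_
    rw [uIcc_of_le (by norm_num)] at hx
    rw [abs_of_nonpos hx.2]
    ring
  have h2 : ∫ x in (0 : ℝ)..1, (1 - |x|) ^ 3 = ∫ x in (0 : ℝ)..1, (1 - x) ^ 3 := by
    refine intervalIntegral.integral_congr fun x hx => ?_
    rw [uIcc_of_le (by norm_num)] at hx
    rw [abs_of_nonneg hx.1]
  rw [h1, h2, intervalIntegral.integral_comp_add_right (fun x => x ^ 3),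
    intervalIntegral.integral_comp_sub_left (fun x => x ^ 3), integral_pow, integral_pow]
  norm_num

/-- the integral of the cube of the tent function over an interval -/
theorem tent_le (b : ℝ) : ∫ x in (-1 : ℝ)..1, (max 0 (1 - |x - b|)) ^ 3 ≤ 1 / 2 := by
  have hc : Continuous (fun x : ℝ => (max 0 (1 - |x - b|)) ^ 3) := by fun_prop
  have hind : ∀ x, (Icc (b - 1) (b + 1)).indicator (fun x : ℝ => (max 0 (1 - |x - b|)) ^ 3) x =
      (max 0 (1 - |x - b|)) ^ 3 := by
    intro x
    by_cases hx : x ∈ Icc (b - 1) (b + 1)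
    · rw [indicator_of_mem hx]
    · rw [indicator_of_notMem hx]
      have h1 : 1 - |x - b| ≤ 0 := by
        by_contra h
        push Not at h
        have h2 := abs_lt.1 (by linarith : |x - b| < 1)
        exact hx ⟨by linarith, by linarith⟩
      rw [max_eq_left h1]
      norm_num
  have hint : Integrable (fun x : ℝ => (max 0 (1 - |x - b|)) ^ 3) := by
    have h1 : Integrable ((Icc (b - 1) (b + 1)).indicator
        (fun x : ℝ => (max 0 (1 - |x - b|)) ^ 3)) :=
      (integrable_indicator_iff measurableSet_Icc).2 hc.integrableOn_Icc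
    exact h1.congr (Filter.Eventually.of_forall hind)
  have h1 : ∫ x in (-1 : ℝ)..1, (max 0 (1 - |x - b|)) ^ 3 ≤
      ∫ x : ℝ, (max 0 (1 - |x - b|)) ^ 3 := by
    rw [intervalIntegral.integral_of_le (by norm_num)]
    exact setIntegral_le_integral hint (Filter.Eventually.of_forall fun x => by positivity)
  have h2 : ∫ x : ℝ, (max 0 (1 - |x - b|)) ^ 3 = 1 / 2 := by
    rw [← integral_congr_ae (Filter.Eventually.of_forall hind),
      integral_indicator measurableSet_Icc, integral_Icc_eq_integral_Ioc,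
      ← intervalIntegral.integral_of_le (by linarith)]
    have h3 : ∫ x in (b - 1)..(b + 1), (max 0 (1 - |x - b|)) ^ 3 =
        ∫ x in (b - 1)..(b + 1), (1 - |x - b|) ^ 3 := by
      refine intervalIntegral.integral_congr fun x hx => ?_
      rw [uIcc_of_le (by linarith)] at hx
      rw [max_eq_right]
      have : |x - b| ≤ 1 := abs_le.2 ⟨by linarith [hx.1], by linarith [hx.2]⟩
      linarith
    rw [h3, intervalIntegral.integral_comp_sub_right (fun x => (1 - |x|) ^ 3)]
    rw [show b - 1 - b = (-1 : ℝ) by ring, show b + 1 - b = (1 : ℝ) by ring]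
    exact tent
  linarith

/-- the integral of `phi` over `(-1, 1)` -/
theorem phi_int (b : ℝ) : 1 / 6 ≤ ∫ x in (-1 : ℝ)..1, phi |x - b| := by
  have h1 : ∀ x : ℝ, phi |x - b| = 1 / 6 - (max 0 (1 - |x - b|)) ^ 3 / 3 := fun x => rfl
  simp only [h1]
  have hc : Continuous (fun x : ℝ => (max 0 (1 - |x - b|)) ^ 3 / 3) := by fun_prop
  rw [intervalIntegral.integral_sub (continuous_const.intervalIntegrable _ _)
    (hc.intervalIntegrable _ _), intervalIntegral.integral_const,
    intervalIntegral.integral_div]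
  have := tent_le b
  rw [smul_eq_mul]
  linarith

end PHI

theorem blk_PHI (hM : Stmt_MASS) : Stmt_PHI := by
  intro n a e ε θ b hε hcov
  obtain ⟨hmeas, hcint, hcval, -⟩ := hM n a e θ
  set g : ℝ → ℝ := fun x => phi |x - b| with hg
  have hgc : Continuous g := continuous_phi.comp (by fun_prop)
  have hsum : ∑ j, ∫ t in (0 : ℝ)..1, |pr θ (e j)| * phi |pr θ (pt a e j t) - b| =
      ∫ x, cnt a e θ x * g x := by
    rw [← (PHI.sum_eq a e θ hgc).2]
    exact Finset.sum_congr rfl fun j _ => chg_real a e j θ g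
  rw [hsum]
  set S : Set ℝ := {x : ℝ | x ∈ Ioo (-1) 1 ∧ cnt a e θ x = 0} with hS
  have hSm : MeasurableSet S :=
    measurableSet_Ioo.inter (hmeas (measurableSet_singleton 0))
  have hSv : volume S ≤ ENNReal.ofReal ε := hcov θ
  have hSfin : volume S ≠ ⊤ := ne_top_of_le_ne_top ENNReal.ofReal_ne_top hSv
  have hSr : (volume S).toReal ≤ ε := ENNReal.toReal_le_of_le_ofReal hε hSv
  -- the four pieces
  have i1 : Integrable ((Ioo (-1 : ℝ) 1).indicator g) :=
    (integrable_indicator_iff measurableSet_Ioo).2 (hgc.integrableOn_Icc.mono_set Ioo_subset_Icc_self)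
  have i2 : Integrable ((Ioo (-1 : ℝ) 1).indicator (fun _ => (1 : ℝ))) :=
    (integrable_indicator_iff measurableSet_Ioo).2
      ((continuous_const (y := (1 : ℝ))).integrableOn_Icc.mono_set Ioo_subset_Icc_self)
  have i3 : Integrable (S.indicator (fun _ => (1 : ℝ))) :=
    (integrable_indicator_iff hSm).2 (integrableOn_const hSfin)
  have hpt : ∀ x, (Ioo (-1 : ℝ) 1).indicator g x -
      (1 / 6) * (cnt a e θ x - (Ioo (-1 : ℝ) 1).indicator (fun _ => (1 : ℝ)) x) -
      (1 / 3) * S.indicator (fun _ => (1 : ℝ)) x ≤ cnt a e θ x * g x := by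
    intro x
    have hg1 : -(1 / 6) ≤ g x := le_phi (abs_nonneg _)
    have hg2 : g x ≤ 1 / 6 := phi_le _
    have hc0 := PHI.cnt_nonneg a e θ x
    by_cases hx : x ∈ Ioo (-1 : ℝ) 1
    · rw [indicator_of_mem hx, indicator_of_mem hx]
      by_cases h0 : cnt a e θ x = 0
      · rw [indicator_of_mem (show x ∈ S from ⟨hx, h0⟩), h0]
        linarith
      · rw [indicator_of_notMem (show x ∉ S from fun h => h0 h.2)]
        have h1 := PHI.one_le_cnt a e θ x h0
        have h2 : 0 ≤ (cnt a e θ x - 1) * (g x + 1 / 6) :=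
          mul_nonneg (by linarith) (by linarith)
        linarith
    · rw [indicator_of_notMem hx, indicator_of_notMem hx,
        indicator_of_notMem (show x ∉ S from fun h => hx h.1)]
      have h2 : 0 ≤ cnt a e θ x * (g x + 1 / 6) := mul_nonneg hc0 (by linarith)
      linarith
  have hmono := integral_mono ((i1.sub ((hcint.sub i2).const_mul (1 / 6))).sub
    (i3.const_mul (1 / 3))) (PHI.sum_eq a e θ hgc).1 hpt
  have e1 : ∫ x, ((Ioo (-1 : ℝ) 1).indicator g x -
      (1 / 6) * (cnt a e θ x - (Ioo (-1 : ℝ) 1).indicator (fun _ => (1 : ℝ)) x) -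
      (1 / 3) * S.indicator (fun _ => (1 : ℝ)) x) =
      (∫ x in (-1 : ℝ)..1, g x) - (1 / 6) * (wid e θ - 2) - (1 / 3) * (volume S).toReal := by
    have k1 : ∫ x, (Ioo (-1 : ℝ) 1).indicator g x = ∫ x in (-1 : ℝ)..1, g x := by
      rw [integral_indicator measurableSet_Ioo, intervalIntegral.integral_of_le (by norm_num),
        integral_Ioc_eq_integral_Ioo]
    have k2 : ∫ x, (Ioo (-1 : ℝ) 1).indicator (fun _ => (1 : ℝ)) x = 2 := by
      rw [integral_indicator measurableSet_Ioo, setIntegral_const, smul_eq_mul, mul_one,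
        Measure.real, Real.volume_Ioo]
      norm_num
    have k3 : ∫ x, S.indicator (fun _ => (1 : ℝ)) x = (volume S).toReal := by
      rw [integral_indicator hSm, setIntegral_const, smul_eq_mul, mul_one, Measure.real]
    have j1 : Integrable (fun x => (1 / 6) * (cnt a e θ x -
        (Ioo (-1 : ℝ) 1).indicator (fun _ => (1 : ℝ)) x)) := (hcint.sub i2).const_mul (1 / 6)
    have j2 : Integrable (fun x => (1 / 3) * S.indicator (fun _ => (1 : ℝ)) x) :=
      i3.const_mul (1 / 3)
    have j0 : Integrable (fun x => (Ioo (-1 : ℝ) 1).indicator g x - (1 / 6) * (cnt a e θ x -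
        (Ioo (-1 : ℝ) 1).indicator (fun _ => (1 : ℝ)) x)) := i1.sub j1
    rw [integral_sub j0 j2, integral_sub i1 j1, integral_const_mul, integral_const_mul,
      integral_sub hcint i2, k1, k2, k3, hcval]
  have h6 : (1 : ℝ) / 6 ≤ ∫ x in (-1 : ℝ)..1, g x := PHI.phi_int b
  have hfin : (∫ x in (-1 : ℝ)..1, g x) - (1 / 6) * (wid e θ - 2) -
      (1 / 3) * (volume S).toReal ≤ ∫ x, cnt a e θ x * g x := by
    rw [← e1]
    exact hmono
  linarith

end Pool.Agent.Work.MP_655153_lb
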