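import Pool.Agent.Work.MP_655153_lb.Interface

set_option autoImplicit false

open MeasureTheory Set Filter Topology

namespace Pool.Agent.Work.MP_655153_lb

/-- the greedy covering argument -/
theorem rs_greedy {g : ℝ → ℝ} (hg : Integrable g)
    (hf : Integrable fun x => max (g x - 1) 0) {δ : ℝ} (hδ : 0 < δ) (m : ℕ) :
    ∀ (u : ℝ) (K : Set ℝ), IsCompact K → K ⊆ Icc u (u + m * δ) →
      (∀ x ∈ K, ∃ d : ℝ, δ < d ∧ 199 / 100 * d < ∫ y in x..(x + d), g y) →
      99 / 100 * volume.real K ≤ ∫ x in Ioi u, max (g x - 1) 0 := by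
  have hnn : ∀ s : Set ℝ, 0 ≤ ∫ x in s, max (g x - 1) 0 := fun s =>
    integral_nonneg fun x => le_max_right _ _
  induction m with
  | zero =>
    intro u K hK hKs hA
    have h1 : K ⊆ {u} := by
      intro x hx
      have := hKs hx
      simp only [Nat.cast_zero, zero_mul, add_zero, Set.Icc_self] at this
      exact this
    have h2 : volume K = 0 := measure_mono_null h1 (by simp)
    rw [Measure.real, h2]
    simpa using hnn _
  | succ m ih =>
    intro u K hK hKs hA
    rcases K.eq_empty_or_nonempty with rfl | hne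
    · simpa using hnn _
    have hx : sInf K ∈ K := hK.sInf_mem hne
    obtain ⟨d, hd, hdi⟩ := hA _ hx
    have hd0 : 0 < d := hδ.trans hd
    have hux : u ≤ sInf K := (hKs hx).1
    have hK' : IsCompact (K ∩ Ici (sInf K + d)) := hK.inter_right isClosed_Ici
    have h3 := ih (sInf K + d) (K ∩ Ici (sInf K + d)) hK' (by
      intro y hy
      refine ⟨hy.2, ?_⟩
      have h4 := (hKs hy.1).2
      push_cast at h4
      nlinarith) (fun y hy => hA y hy.1)
    have h5 : volume.real K ≤ d + volume.real (K ∩ Ici (sInf K + d)) := by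
      have h6 : K ⊆ Icc (sInf K) (sInf K + d) ∪ (K ∩ Ici (sInf K + d)) := by
        intro y hy
        rcases le_total y (sInf K + d) with h | h
        · exact Or.inl ⟨csInf_le hK.bddBelow hy, h⟩
        · exact Or.inr ⟨hy, h⟩
      have h7 : volume.real K ≤ volume.real (Icc (sInf K) (sInf K + d) ∪
          (K ∩ Ici (sInf K + d))) := by
        refine measureReal_mono h6 ?_
        refine (measure_union_lt_top ?_ hK'.measure_lt_top).ne
        exact isCompact_Icc.measure_lt_top
      refine h7.trans ((measureReal_union_le _ _).trans ?_)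
      rw [Real.volume_real_Icc_of_le (by linarith)]
      linarith
    have h8 : 99 / 100 * d ≤ ∫ x in (sInf K)..(sInf K + d), max (g x - 1) 0 := by
      have h9 : ∫ x in (sInf K)..(sInf K + d), (g x - 1) ≤
          ∫ x in (sInf K)..(sInf K + d), max (g x - 1) 0 := by
        refine intervalIntegral.integral_mono_on (by linarith) ?_ ?_ fun x _ => le_max_left _ _
        · exact (hg.intervalIntegrable).sub (by simp)
        · exact hf.intervalIntegrable
      rw [intervalIntegral.integral_sub hg.intervalIntegrable (by simp)] at h9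
      simp only [intervalIntegral.integral_const, smul_eq_mul, mul_one, add_sub_cancel_left] at h9
      linarith
    have h10 : ∫ x in (sInf K)..(sInf K + d), max (g x - 1) 0 =
        ∫ x in Ioc (sInf K) (sInf K + d), max (g x - 1) 0 :=
      intervalIntegral.integral_of_le (by linarith)
    have h11 : ∫ x in Ioi (sInf K), max (g x - 1) 0 =
        (∫ x in Ioc (sInf K) (sInf K + d), max (g x - 1) 0) +
          ∫ x in Ioi (sInf K + d), max (g x - 1) 0 := by
      rw [← setIntegral_union Ioc_disjoint_Ioi_same measurableSet_Ioi hf.integrableOn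
        hf.integrableOn, Ioc_union_Ioi_eq_Ioi (by linarith)]
    have h12 : ∫ x in Ioi (sInf K), max (g x - 1) 0 ≤ ∫ x in Ioi u, max (g x - 1) 0 := by
      refine setIntegral_mono_set hf.integrableOn ?_ ?_
      · exact Eventually.of_forall fun x => le_max_right _ _
      · exact (Ioi_subset_Ioi hux).eventuallyLE
    linarith

theorem rs_continuous {g : ℝ → ℝ} (hg : Integrable g) (d : ℝ) :
    Continuous fun x => ∫ y in x..(x + d), g y := by
  have h1 : Continuous fun x => ∫ y in (0 : ℝ)..x, g y :=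
    intervalIntegral.continuous_primitive (fun a b => hg.intervalIntegrable) 0
  have h2 : (fun x => ∫ y in x..(x + d), g y) =
      fun x => (∫ y in (0 : ℝ)..(x + d), g y) - ∫ y in (0 : ℝ)..x, g y := by
    funext x
    rw [intervalIntegral.integral_interval_sub_left hg.intervalIntegrable hg.intervalIntegrable]
  rw [h2]
  exact (h1.comp (continuous_id.add continuous_const)).sub h1

theorem rs_right {g : ℝ → ℝ} (hg : Integrable g) (hf : Integrable fun x => max (g x - 1) 0) :
    volume {x : ℝ | ∃ d : ℝ, 0 < d ∧ 199 / 100 * d < ∫ y in x..(x + d), g y} ≤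
      ENNReal.ofReal (100 / 99 * ∫ x, max (g x - 1) 0) := by
  have hopen : IsOpen {x : ℝ | ∃ d : ℝ, 0 < d ∧ 199 / 100 * d < ∫ y in x..(x + d), g y} := by
    have h1 : {x : ℝ | ∃ d : ℝ, 0 < d ∧ 199 / 100 * d < ∫ y in x..(x + d), g y} =
        ⋃ d ∈ Ioi (0 : ℝ), {x : ℝ | 199 / 100 * d < ∫ y in x..(x + d), g y} := by
      ext x
      simp
    rw [h1]
    exact isOpen_biUnion fun d _ => isOpen_lt continuous_const (rs_continuous hg d)
  rw [hopen.measure_eq_iSup_isCompact]
  refine iSup₂_le fun K hKA => iSup_le fun hK => ?_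
  have hδ : ∃ δ : ℝ, 0 < δ ∧ ∀ x ∈ K, ∃ d : ℝ, δ < d ∧ 199 / 100 * d < ∫ y in x..(x + d), g y := by
    refine hK.induction_on (p := fun S => ∃ δ : ℝ, 0 < δ ∧ ∀ x ∈ S, ∃ d : ℝ, δ < d ∧
      199 / 100 * d < ∫ y in x..(x + d), g y) ⟨1, one_pos, by simp⟩ ?_ ?_ ?_
    · rintro s t hst ⟨δ, h1, h2⟩
      exact ⟨δ, h1, fun x hx => h2 x (hst hx)⟩
    · rintro s t ⟨δ, h1, h2⟩ ⟨δ', h1', h2'⟩
      refine ⟨min δ δ', lt_min h1 h1', ?_⟩
      rintro x (hx | hx)
      · obtain ⟨d, h3, h4⟩ := h2 x hx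
        exact ⟨d, (min_le_left _ _).trans_lt h3, h4⟩
      · obtain ⟨d, h3, h4⟩ := h2' x hx
        exact ⟨d, (min_le_right _ _).trans_lt h3, h4⟩
    · intro x hx
      obtain ⟨d, hd, hdi⟩ := hKA hx
      refine ⟨{x : ℝ | 199 / 100 * d < ∫ y in x..(x + d), g y}, ?_, d / 2, by linarith, ?_⟩
      · exact mem_nhdsWithin_of_mem_nhds
          ((isOpen_lt continuous_const (rs_continuous hg d)).mem_nhds hdi)
      · intro y hy
        exact ⟨d, by linarith, hy⟩
  obtain ⟨δ, hδ0, hδK⟩ := hδ
  obtain ⟨u, hu⟩ := hK.bddBelow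
  obtain ⟨w, hw⟩ := hK.bddAbove
  obtain ⟨m, hm⟩ := exists_nat_ge ((w - u) / δ)
  have h1 := rs_greedy hg hf hδ0 m u K hK (by
    intro x hx
    refine ⟨hu hx, ?_⟩
    have h2 : x ≤ w := hw hx
    rw [div_le_iff₀ hδ0] at hm
    linarith) hδK
  have h2 : ∫ x in Ioi u, max (g x - 1) 0 ≤ ∫ x, max (g x - 1) 0 :=
    setIntegral_le_integral hf (Eventually.of_forall fun x => le_max_right _ _)
  rw [← ENNReal.ofReal_toReal hK.measure_lt_top.ne]
  refine ENNReal.ofReal_le_ofReal ?_
  have h3 : (volume K).toReal = volume.real K := rfl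
  rw [h3]
  linarith

theorem stmt_RS : Stmt_RS := by
  intro g hgm hg0 hg
  have hf : ∀ {g : ℝ → ℝ}, (∀ x, 0 ≤ g x) → Integrable g → Integrable fun x => max (g x - 1) 0 := by
    intro g hg0 hg
    refine Integrable.mono' hg ?_ ?_
    · exact (hg.aestronglyMeasurable.sub aestronglyMeasurable_const).sup
        aestronglyMeasurable_const
    · refine Eventually.of_forall fun x => ?_
      rw [Real.norm_of_nonneg (le_max_right _ _)]
      exact max_le (by linarith) (hg0 x)
  have hg' : Integrable fun x => g (-x) := hg.comp_neg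
  have h1 := rs_right hg (hf hg0 hg)
  have h2 := rs_right hg' (hf (fun x => hg0 (-x)) hg')
  have h3 : ∫ x, max (g (-x) - 1) 0 = ∫ x, max (g x - 1) 0 :=
    integral_neg_eq_self (fun x => max (g x - 1) 0) volume
  rw [h3] at h2
  have h4 : {x : ℝ | ∃ d : ℝ, 0 < d ∧ 199 / 100 * d < ∫ y in (x - d)..x, g y} =
      Neg.neg ⁻¹' {x : ℝ | ∃ d : ℝ, 0 < d ∧ 199 / 100 * d < ∫ y in x..(x + d), g (-y)} := by
    ext x
    simp only [mem_setOf_eq, mem_preimage]
    have h5 : ∀ d : ℝ, ∫ y in (-x)..(-x + d), g (-y) = ∫ y in (x - d)..x, g y := by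
      intro d
      rw [intervalIntegral.integral_comp_neg]
      congr 1 <;> ring
    simp only [h5]
  have h6 : volume {x : ℝ | ∃ d : ℝ, 0 < d ∧ 199 / 100 * d < ∫ y in (x - d)..x, g y} ≤
      ENNReal.ofReal (100 / 99 * ∫ x, max (g x - 1) 0) := by
    rw [h4, Measure.measure_preimage_neg]
    exact h2
  have h7 : {x : ℝ | ∃ d : ℝ, 0 < d ∧ (199 / 100 * d < ∫ y in x..(x + d), g y ∨
      199 / 100 * d < ∫ y in (x - d)..x, g y)} =
      {x : ℝ | ∃ d : ℝ, 0 < d ∧ 199 / 100 * d < ∫ y in x..(x + d), g y} ∪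
      {x : ℝ | ∃ d : ℝ, 0 < d ∧ 199 / 100 * d < ∫ y in (x - d)..x, g y} := by
    ext x
    constructor
    · rintro ⟨d, hd, h | h⟩
      · exact Or.inl ⟨d, hd, h⟩
      · exact Or.inr ⟨d, hd, h⟩
    · rintro (⟨d, hd, h⟩ | ⟨d, hd, h⟩)
      · exact ⟨d, hd, Or.inl h⟩
      · exact ⟨d, hd, Or.inr h⟩
  rw [h7]
  refine (measure_union_le _ _).trans ((add_le_add h1 h6).trans ?_)
  have h8 : 0 ≤ ∫ x, max (g x - 1) 0 := integral_nonneg fun x => le_max_right _ _
  rw [← ENNReal.ofReal_add (by positivity) (by positivity)]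
  refine ENNReal.ofReal_le_ofReal (le_of_eq ?_)
  ring

end Pool.Agent.Work.MP_655153_lb
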