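import Pool.Agent.Work.MP_655153_lb.Interface

open MeasureTheory Set

namespace Pool.Agent.Work.MP_655153_lb

theorem outer_nonneg {n : ℕ} (a e : Fin n → ℂ) : 0 ≤ outer a e := by
  unfold outer; positivity

theorem blk_SEG (hLOW : Stmt_LOW) (hUP : Stmt_UP) (hOUT : Stmt_OUT) : Stmt_SEG := by
  intro n a e hC
  by_contra hM
  rw [not_le] at hM
  have h0 : (0 : ℝ) ≤ 1 / 100000 := by norm_num
  have hL := hLOW n a e _ h0 hC
  have hU := hUP n a e _ h0 hC hM.le
  have hO := hOUT n a e _ h0 hC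
  have hm := outer_nonneg a e
  have hLU := hL.trans hU
  set M := len e with hMd
  set m := outer a e with hmd
  have hp1 := Real.pi_gt_d6
  have hp2 := Real.pi_lt_d6
  have hpi : 0 < Real.pi := Real.pi_pos
  -- bounds for `2 / π`
  have hq : 2 / Real.pi ≤ 2 / 3.141592 :=
    div_le_div_of_nonneg_left (by norm_num) (by norm_num) hp1.le
  have hM0 : 3.1415 ≤ M := by linarith
  have hX0 : 0 < 2 * M - 2 * Real.pi + Real.pi * (1 / 100000) ∨
      2 * M - 2 * Real.pi + Real.pi * (1 / 100000) = 0 := by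
    rcases (show (0:ℝ) ≤ 2 * M - 2 * Real.pi + Real.pi * (1 / 100000) by linarith).lt_or_eq with
      h | h
    · exact Or.inl h
    · exact Or.inr h.symm
  have hM2 : M ^ 2 ≤ 63 / 20 * M := by
    rw [sq]; exact mul_le_mul_of_nonneg_right hM.le (by linarith)
  have h1 : 2 / Real.pi * M ^ 2 ≤ 2 / 3.141592 * (63 / 20 * M) :=
    mul_le_mul hq hM2 (sq_nonneg _) (by norm_num)
  have h2 : M * m ≤ 63 / 20 * m := mul_le_mul_of_nonneg_right hM.le hm
  have hlow : (0.4 : ℝ) ≤ 5 / 33 * ((3 - 2 * (1 / 100000)) * (M - m) - 2 / Real.pi * M ^ 2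
    + (2 - 1 / 100000) * m - M * m) := by
    have h3 : m ≤ 25 / 4 * (2 * M - 2 * 3.141592 + 3.141593 * (1 / 100000)) := by
      linarith
    norm_num at h1 h3 ⊢
    linarith
  have hup : 31 / 4 * (299 / 99) * (2 * M - 2 * Real.pi + Real.pi * (1 / 100000)) ≤ 0.398 := by
    norm_num
    linarith
  have h4 := ENNReal.ofReal_le_ofReal hlow
  have h5 := ENNReal.ofReal_le_ofReal hup
  have h6 := (h4.trans hLU).trans h5
  rw [ENNReal.ofReal_le_ofReal_iff (by norm_num)] at h6
  norm_num at h6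

end Pool.Agent.Work.MP_655153_lb
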