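import Pool.Agent.Work.MP_655153_lb.Interface

/-!
# Block SHX (helper75): short excursions
-/

set_option autoImplicit false

open MeasureTheory Set
open scoped ENNReal

namespace Pool.Agent.Work.MP_655153_lb

/-- the parameter of the zero of `t ↦ pr (s + t) v` in `(0, π)` -/
noncomputable def tz (s : ℝ) (v : ℂ) : ℝ :=
  Real.arccos (-(pr s v * pr (s + Real.pi / 2) v) / (|pr s v| * ‖v‖))

theorem measurable_tz (s : ℝ) (p : ℂ) : Measurable (fun z : ℂ × ℂ => tz s (z.1 - p)) := by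
  have h1 : ∀ θ : ℝ, Measurable (fun z : ℂ × ℂ => pr θ (z.1 - p)) := fun θ =>
    ((continuous_pr_right θ).comp (continuous_fst.sub continuous_const)).measurable
  have h2 : Measurable (fun z : ℂ × ℂ => ‖z.1 - p‖) :=
    (continuous_fst.sub continuous_const).norm.measurable
  have h3 : Measurable (fun z : ℂ × ℂ => |pr s (z.1 - p)|) :=
    ((continuous_pr_right s).comp (continuous_fst.sub continuous_const)).abs.measurable
  exact Real.measurable_arccos.comp ((((h1 s).mul (h1 _)).neg).div (h3.mul h2))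

theorem tz_spec {s : ℝ} {v : ℂ} (h : pr s v ≠ 0) :
    0 < tz s v ∧ tz s v < Real.pi ∧ pr (s + tz s v) v = 0 := by
  obtain ⟨c, hc⟩ := exists_polar v
  have h0 : ‖v‖ * Real.sin (s - c) ≠ 0 := by rw [← hc]; exact h
  have hr : 0 < ‖v‖ := lt_of_le_of_ne (norm_nonneg _) (Ne.symm (left_ne_zero_of_mul h0))
  have hσ : Real.sin (s - c) ≠ 0 := right_ne_zero_of_mul h0
  have hσ1 : |Real.sin (s - c)| ≠ 0 := abs_ne_zero.2 hσ
  have hq : -(pr s v * pr (s + Real.pi / 2) v) / (|pr s v| * ‖v‖)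
      = -(Real.sin (s - c) * Real.cos (s - c)) / |Real.sin (s - c)| := by
    have e1 : s + Real.pi / 2 - c = (s - c) + Real.pi / 2 := by ring
    rw [hc, hc, e1, Real.sin_add_pi_div_two, abs_mul, abs_norm]
    field_simp
  obtain ⟨q, hqd⟩ : ∃ q, q = -(Real.sin (s - c) * Real.cos (s - c)) / |Real.sin (s - c)| :=
    ⟨_, rfl⟩
  have hq2 : q ^ 2 = Real.cos (s - c) ^ 2 := by
    rw [hqd, div_pow, neg_sq, mul_pow, sq_abs]
    field_simp
  have hcs := Real.sin_sq_add_cos_sq (s - c)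
  have hq3 : 1 - q ^ 2 = Real.sin (s - c) ^ 2 := by rw [hq2]; linarith
  have hqle : |q| ≤ 1 := by
    rw [← sq_le_one_iff_abs_le_one]
    nlinarith [sq_nonneg (Real.sin (s - c))]
  have htz : tz s v = Real.arccos q := by unfold tz; rw [hq, hqd]
  have hcos : Real.cos (tz s v) = q := by
    rw [htz]; exact Real.cos_arccos (abs_le.1 hqle).1 (abs_le.1 hqle).2
  have hsin : Real.sin (tz s v) = |Real.sin (s - c)| := by
    rw [htz, Real.sin_arccos, hq3, Real.sqrt_sq_eq_abs]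
  have hpos : 0 < Real.sin (tz s v) := by rw [hsin]; exact abs_pos.2 hσ
  have hge : 0 ≤ tz s v := by rw [htz]; exact Real.arccos_nonneg _
  have hle : tz s v ≤ Real.pi := by rw [htz]; exact Real.arccos_le_pi _
  refine ⟨lt_of_le_of_ne hge ?_, lt_of_le_of_ne hle ?_, ?_⟩
  · intro e
    rw [← e, Real.sin_zero] at hpos
    exact lt_irrefl _ hpos
  · intro e
    rw [e, Real.sin_pi] at hpos
    exact lt_irrefl _ hpos
  · have e1 : s + tz s v - c = (s - c) + tz s v := by ring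
    rw [hc, e1, Real.sin_add, hcos, hsin, hqd]
    have h5 : |Real.sin (s - c)| * |Real.sin (s - c)| = Real.sin (s - c) * Real.sin (s - c) :=
      abs_mul_abs_self _
    have h6 : Real.sin (s - c) * (-(Real.sin (s - c) * Real.cos (s - c)) / |Real.sin (s - c)|)
        + Real.cos (s - c) * |Real.sin (s - c)| = 0 := by
      rw [mul_div_assoc', div_add' _ _ _ hσ1, div_eq_zero_iff]
      left
      linear_combination Real.cos (s - c) * h5
    rw [h6, mul_zero]

/-- values at the other angles -/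
theorem zero_formula {s t : ℝ} {v : ℂ} (h : pr (s + t) v = 0) (τ : ℝ) :
    Real.sin t * pr (s + τ) v = - Real.sin (τ - t) * pr s v := by
  have := pr_comb s t τ v
  rw [h, mul_zero] at this
  linarith

theorem tz_lt {s τ : ℝ} {v : ℂ} (h : pr s v ≠ 0) (hτ : τ < Real.pi) (h0 : 0 < τ) :
    tz s v < τ ↔ pr s v * pr (s + τ) v < 0 := by
  obtain ⟨h1, h2, h3⟩ := tz_spec h
  have hf := zero_formula h3 τ
  have hsin : 0 < Real.sin (tz s v) := Real.sin_pos_of_pos_of_lt_pi h1 h2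
  have hsq : 0 < pr s v ^ 2 := by positivity
  have key : Real.sin (tz s v) * (pr s v * pr (s + τ) v)
      = - (Real.sin (τ - tz s v) * pr s v ^ 2) := by
    calc Real.sin (tz s v) * (pr s v * pr (s + τ) v)
        = (Real.sin (tz s v) * pr (s + τ) v) * pr s v := by ring
      _ = _ := by rw [hf]; ring
  constructor
  · intro hlt
    have h4 : 0 < Real.sin (τ - tz s v) := Real.sin_pos_of_pos_of_lt_pi (by linarith) (by linarith)
    have h5 : Real.sin (tz s v) * (pr s v * pr (s + τ) v) < 0 := by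
      rw [key]; have := mul_pos h4 hsq; linarith
    by_contra h6
    exact absurd (mul_nonneg hsin.le (not_lt.1 h6)) (not_le.2 h5)
  · intro hneg
    by_contra hge
    have h4 : Real.sin (τ - tz s v) ≤ 0 :=
      Real.sin_nonpos_of_nonpos_of_neg_pi_le (by linarith) (by linarith)
    have h5 : Real.sin (tz s v) * (pr s v * pr (s + τ) v) < 0 := mul_neg_of_pos_of_neg hsin hneg
    rw [key] at h5
    have := mul_nonneg (neg_nonneg.2 h4) hsq.le
    linarith

/-- one half of the estimate: transport to the line and layer cake -/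
theorem half (hLAY : Stmt_LAY) {μ : Measure (ℂ × ℂ)} {Q : Set (ℂ × ℂ)} (hQ : MeasurableSet Q)
    {g : ℂ × ℂ → ℝ} (hg : Measurable g) {ρ : ℂ × ℂ → ℝ≥0∞} (hρ : Measurable ρ) {C T : ℝ}
    (hC : 0 ≤ C) (hT : 0 < T) (hgQ : ∀ z ∈ Q, g z ∈ Ioo 0 T)
    (hmass : ∀ τ ∈ Ioc 0 T, ∫⁻ z in {z | z ∈ Q ∧ g z < τ}, ρ z ∂μ ≤ ENNReal.ofReal (C * τ))
    {Ψ : ℝ → ℝ} (hΨ : AntitoneOn Ψ (Icc 0 T)) (hΨ0 : ∀ t ∈ Icc 0 T, 0 ≤ Ψ t) :
    ∫⁻ z in Q, ENNReal.ofReal (Ψ (g z)) * ρ z ∂μ
      ≤ ENNReal.ofReal C * ∫⁻ t in Ioo 0 T, ENNReal.ofReal (Ψ t) := by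
  set ν : Measure (ℂ × ℂ) := (μ.restrict Q).withDensity ρ with hν
  set κ : Measure ℝ := ν.map g with hκ
  -- a measurable version of `Ψ`
  set Φ : ℝ → ℝ := fun t => Ψ (max 0 (min t T)) with hΦ
  have hcl : ∀ t : ℝ, max 0 (min t T) ∈ Icc 0 T := fun t =>
    ⟨le_max_left _ _, max_le hT.le (min_le_right _ _)⟩
  have hΦa : Antitone Φ := by
    intro x y hxy
    exact hΨ (hcl x) (hcl y) (max_le_max le_rfl (min_le_min hxy le_rfl))
  have hΦm : Measurable Φ := hΦa.measurable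
  have hΦeq : ∀ t ∈ Icc 0 T, Φ t = Ψ t := by
    intro t ht
    simp only [hΦ]
    rw [min_eq_left ht.2, max_eq_right ht.1]
  have h1 : ∫⁻ z in Q, ENNReal.ofReal (Ψ (g z)) * ρ z ∂μ
      = ∫⁻ t in Ioo 0 T, ENNReal.ofReal (Ψ t) ∂κ := by
    have e1 : ∫⁻ t in Ioo 0 T, ENNReal.ofReal (Ψ t) ∂κ
        = ∫⁻ t in Ioo 0 T, ENNReal.ofReal (Φ t) ∂κ := by
      refine setLIntegral_congr_fun measurableSet_Ioo (fun t ht => ?_)
      rw [hΦeq t (Ioo_subset_Icc_self ht)]
    rw [e1, hκ, setLIntegral_map measurableSet_Ioo hΦm.ennreal_ofReal hg, hν,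
      restrict_withDensity (hg measurableSet_Ioo), Measure.restrict_restrict (hg measurableSet_Ioo)]
    have e2 : g ⁻¹' Ioo 0 T ∩ Q = Q := inter_eq_right.2 hgQ
    have hm2 : Measurable (fun z => ENNReal.ofReal (Φ (g z))) := (hΦm.comp hg).ennreal_ofReal
    rw [e2, lintegral_withDensity_eq_lintegral_mul _ hρ hm2]
    refine setLIntegral_congr_fun hQ (fun z hz => ?_)
    simp only [Pi.mul_apply]
    rw [hΦeq _ (Ioo_subset_Icc_self (hgQ z hz)), mul_comm]
  rw [h1]
  refine hLAY κ C T Ψ hC hT (fun τ hτ => ?_) hΨ hΨ0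
  rw [hκ, Measure.map_apply hg measurableSet_Ioo, hν, withDensity_apply _ (hg measurableSet_Ioo),
    Measure.restrict_restrict (hg measurableSet_Ioo)]
  refine le_trans (lintegral_mono_set ?_) (hmass τ hτ)
  rintro z ⟨hz1, hz2⟩
  exact ⟨hz2, hz1.2⟩

theorem blk_SHX (hK : Stmt_K) (hLAY : Stmt_LAY) (hMAJ3 : Stmt_MAJ3) : Stmt_SHX := by
  intro μ p f s T hp hf hT hT1 hG1 hG2
  have hTpi : T < Real.pi := by
    have := Real.pi_gt_three
    linarith
  have hsinT : 0 < Real.sin T := Real.sin_pos_of_pos_of_lt_pi hT hTpi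
  have hmp : ∀ θ : ℝ, Measurable (fun z : ℂ × ℂ => pr θ (z.1 - p)) := fun θ =>
    ((continuous_pr_right θ).comp (continuous_fst.sub continuous_const)).measurable
  have hmd : ∀ θ : ℝ, Measurable (fun z : ℂ × ℂ => ENNReal.ofReal |pr θ z.2|) := fun θ =>
    ((continuous_pr_right θ).comp continuous_snd).abs.measurable.ennreal_ofReal
  set Q : Set (ℂ × ℂ) :=
    {z : ℂ × ℂ | ‖z.1‖ ≤ 11 / 10 ∧ pr s (z.1 - p) * pr (s + T) (z.1 - p) < 0} with hQd
  have hQ : MeasurableSet Q := by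
    refine MeasurableSet.inter ?_ ?_
    · exact measurableSet_le continuous_fst.norm.measurable measurable_const
    · exact measurableSet_lt ((hmp s).mul (hmp (s + T))) measurable_const
  set g : ℂ × ℂ → ℝ := fun z => tz s (z.1 - p) with hgd
  have hg : Measurable g := measurable_tz s p
  have hne : ∀ z ∈ Q, pr s (z.1 - p) ≠ 0 := by
    intro z hz e
    have := hz.2
    rw [e, zero_mul] at this
    exact lt_irrefl _ this
  have hgQ : ∀ z ∈ Q, g z ∈ Ioo 0 T := by
    intro z hz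
    exact ⟨(tz_spec (hne z hz)).1, (tz_lt (hne z hz) hTpi hT).2 hz.2⟩
  -- the majorants
  obtain ⟨c, hc⟩ := exists_polar f
  obtain ⟨Ψ₁, Ψ₂, hΨ₁, hΨ₂, hmaj, hint⟩ := hMAJ3 (c - s) T hT hT1
  have hω : ∀ t : ℝ, |pr (s + t) f| = |Real.sin (t - (c - s))| := by
    intro t
    rw [hc, hf, one_mul]
    congr 2
    ring
  have hΨ₁0 : ∀ t ∈ Icc 0 T, 0 ≤ Ψ₁ t := fun t ht =>
    le_trans (mul_nonneg (by linarith [ht.2]) (abs_nonneg _)) (hmaj t ht).1
  have hΨ₂0 : ∀ t ∈ Icc 0 T, 0 ≤ Ψ₂ t := fun t ht =>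
    le_trans (mul_nonneg ht.1 (abs_nonneg _)) (hmaj t ht).2
  -- first half
  have H1 : ∫⁻ z in Q, ENNReal.ofReal (Ψ₁ (g z)) * ENNReal.ofReal |pr s z.2| ∂μ
      ≤ ENNReal.ofReal (2189 / 500) * ∫⁻ t in Ioo 0 T, ENNReal.ofReal (Ψ₁ t) := by
    refine half hLAY hQ hg (hmd s) (by norm_num) hT hgQ (fun τ hτ => ?_) hΨ₁ hΨ₁0
    have h1 := hK μ p s (s + τ) hp hG1
    rw [add_sub_cancel_left, abs_of_pos hτ.1] at h1
    refine le_trans (lintegral_mono_set ?_) h1
    rintro z ⟨hz1, hz2⟩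
    exact ⟨hz1.1, (tz_lt (hne z hz1) (lt_of_le_of_lt hτ.2 hTpi) hτ.1).1 hz2⟩
  -- second half
  have H2 : ∫⁻ z in Q, ENNReal.ofReal (Ψ₂ (T - (T - g z))) * ENNReal.ofReal |pr (s + T) z.2| ∂μ
      ≤ ENNReal.ofReal (2189 / 500) * ∫⁻ t in Ioo 0 T, ENNReal.ofReal (Ψ₂ (T - t)) := by
    refine half hLAY (g := fun z => T - g z) (Ψ := fun t => Ψ₂ (T - t)) hQ
      (measurable_const.sub hg) (hmd (s + T)) (by norm_num) hT
      (fun z hz => ⟨by linarith [(hgQ z hz).2], by linarith [(hgQ z hz).1]⟩) (fun τ hτ => ?_)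
      (fun x hx y hy hxy => hΨ₂ ⟨by linarith [hy.2], by linarith [hy.1]⟩
        ⟨by linarith [hx.2], by linarith [hx.1]⟩ (by linarith))
      (fun t ht => hΨ₂0 _ ⟨by linarith [ht.2], by linarith [ht.1]⟩)
    have h1 := hK μ p (s + T) (s + (T - τ)) hp hG2
    have e1 : |s + (T - τ) - (s + T)| = τ := by
      rw [show s + (T - τ) - (s + T) = -τ by ring, abs_neg, abs_of_pos hτ.1]
    rw [e1] at h1
    refine le_trans (lintegral_mono_set ?_) h1
    rintro z ⟨hz1, hz2⟩
    refine ⟨hz1.1, ?_⟩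
    obtain ⟨h2, h3, h4⟩ := tz_spec (hne z hz1)
    have h5 := zero_formula h4 T
    have h6 := zero_formula h4 (T - τ)
    have hsin : 0 < Real.sin (tz s (z.1 - p)) := Real.sin_pos_of_pos_of_lt_pi h2 h3
    have hgz := hgQ z hz1
    have hz2' : T - tz s (z.1 - p) < τ := hz2
    have hgz2 : tz s (z.1 - p) < T := hgz.2
    have h7 : 0 < Real.sin (T - tz s (z.1 - p)) :=
      Real.sin_pos_of_pos_of_lt_pi (by linarith) (by linarith)
    have h8 : 0 < Real.sin (tz s (z.1 - p) - (T - τ)) :=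
      Real.sin_pos_of_pos_of_lt_pi (by linarith) (by linarith [hτ.2])
    have h9 : Real.sin (T - τ - tz s (z.1 - p)) = - Real.sin (tz s (z.1 - p) - (T - τ)) := by
      rw [← Real.sin_neg]; congr 1; ring
    rw [h9] at h6
    have hsq : 0 < pr s (z.1 - p) ^ 2 := by have := hne z hz1; positivity
    have key : Real.sin (tz s (z.1 - p)) ^ 2 * (pr (s + T) (z.1 - p) * pr (s + (T - τ)) (z.1 - p))
        = - (Real.sin (T - tz s (z.1 - p)) * Real.sin (tz s (z.1 - p) - (T - τ))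
          * pr s (z.1 - p) ^ 2) := by
      calc Real.sin (tz s (z.1 - p)) ^ 2 * (pr (s + T) (z.1 - p) * pr (s + (T - τ)) (z.1 - p))
          = (Real.sin (tz s (z.1 - p)) * pr (s + T) (z.1 - p))
            * (Real.sin (tz s (z.1 - p)) * pr (s + (T - τ)) (z.1 - p)) := by ring
        _ = _ := by rw [h5, h6]; ring
    by_contra h10
    have h11 := mul_nonneg (sq_nonneg (Real.sin (tz s (z.1 - p)))) (not_lt.1 h10)
    rw [key] at h11
    have := mul_pos (mul_pos h7 h8) hsq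
    linarith
  -- reflection of the second integral
  have H3 : ∫⁻ t in Ioo 0 T, ENNReal.ofReal (Ψ₂ (T - t)) = ∫⁻ t in Ioo 0 T, ENNReal.ofReal (Ψ₂ t) := by
    rw [← lintegral_indicator measurableSet_Ioo, ← lintegral_indicator measurableSet_Ioo,
      ← lintegral_sub_left_eq_self _ T]
    congr 1
    ext t
    by_cases ht : t ∈ Ioo 0 T
    · rw [indicator_of_mem ht, indicator_of_mem (show T - t ∈ Ioo 0 T from
        ⟨by linarith [ht.2], by linarith [ht.1]⟩)]
      try simp only [sub_sub_cancel]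
    · rw [indicator_of_notMem ht, indicator_of_notMem]
      intro h
      exact ht ⟨by linarith [h.2], by linarith [h.1]⟩
  -- pointwise inequality
  have hpt : ∀ z ∈ Q, ENNReal.ofReal (Real.sin T) * ENNReal.ofReal (ker f (z.1 - p) z.2)
      ≤ ENNReal.ofReal (Ψ₁ (g z)) * ENNReal.ofReal |pr s z.2|
        + ENNReal.ofReal (Ψ₂ (T - (T - g z))) * ENNReal.ofReal |pr (s + T) z.2| := by
    intro z hz
    have hgz := hgQ z hz
    have hgI : g z ∈ Icc 0 T := Ioo_subset_Icc_self hgz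
    obtain ⟨_, _, h4⟩ := tz_spec (hne z hz)
    have hv : z.1 - p ≠ 0 := by
      intro e
      apply hne z hz
      rw [e]
      exact pr_zero s
    have hk := ker_eq hv h4 f z.2
    have hcomb := pr_comb s (g z) T z.2
    have hm := hmaj (g z) hgI
    simp only at hm
    rw [← hω] at hm
    have hs1 : Real.sin (T - g z) ≤ T - g z := Real.sin_le (by linarith [hgz.2])
    have hs2 : Real.sin (g z) ≤ g z := Real.sin_le (by linarith [hgz.1])
    have hs3 : 0 ≤ Real.sin (T - g z) :=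
      Real.sin_nonneg_of_nonneg_of_le_pi (by linarith [hgz.2]) (by linarith [hgz.1])
    have hs4 : 0 ≤ Real.sin (g z) :=
      Real.sin_nonneg_of_nonneg_of_le_pi (by linarith [hgz.1]) (by linarith [hgz.2])
    have hab : Real.sin T * |pr (s + g z) z.2|
        ≤ (T - g z) * |pr s z.2| + g z * |pr (s + T) z.2| := by
      calc Real.sin T * |pr (s + g z) z.2| = |Real.sin T * pr (s + g z) z.2| := by
            rw [abs_mul, abs_of_pos hsinT]
        _ = |Real.sin (T - g z) * pr s z.2 + Real.sin (g z) * pr (s + T) z.2| := by rw [hcomb]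
        _ ≤ |Real.sin (T - g z) * pr s z.2| + |Real.sin (g z) * pr (s + T) z.2| := abs_add_le _ _
        _ = Real.sin (T - g z) * |pr s z.2| + Real.sin (g z) * |pr (s + T) z.2| := by
            rw [abs_mul, abs_mul, abs_of_nonneg hs3, abs_of_nonneg hs4]
        _ ≤ _ := add_le_add (mul_le_mul_of_nonneg_right hs1 (abs_nonneg _))
            (mul_le_mul_of_nonneg_right hs2 (abs_nonneg _))
    have hreal : Real.sin T * ker f (z.1 - p) z.2
        ≤ Ψ₁ (g z) * |pr s z.2| + Ψ₂ (g z) * |pr (s + T) z.2| := by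
      have hk' : ker f (z.1 - p) z.2 = |pr (s + g z) f| * |pr (s + g z) z.2| := hk
      rw [hk']
      calc Real.sin T * (|pr (s + g z) f| * |pr (s + g z) z.2|)
          = |pr (s + g z) f| * (Real.sin T * |pr (s + g z) z.2|) := by ring
        _ ≤ |pr (s + g z) f| * ((T - g z) * |pr s z.2| + g z * |pr (s + T) z.2|) :=
            mul_le_mul_of_nonneg_left hab (abs_nonneg _)
        _ = ((T - g z) * |pr (s + g z) f|) * |pr s z.2|
            + (g z * |pr (s + g z) f|) * |pr (s + T) z.2| := by ring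
        _ ≤ _ := add_le_add (mul_le_mul_of_nonneg_right hm.1 (abs_nonneg _))
            (mul_le_mul_of_nonneg_right hm.2 (abs_nonneg _))
    rw [sub_sub_cancel, ← ENNReal.ofReal_mul hsinT.le, ← ENNReal.ofReal_mul (hΨ₁0 _ hgI),
      ← ENNReal.ofReal_mul (hΨ₂0 _ hgI),
      ← ENNReal.ofReal_add (mul_nonneg (hΨ₁0 _ hgI) (abs_nonneg _))
        (mul_nonneg (hΨ₂0 _ hgI) (abs_nonneg _))]
    exact ENNReal.ofReal_le_ofReal hreal
  -- measurability of one of the two terms
  have hmeas1 : AEMeasurable (fun z => ENNReal.ofReal (Ψ₁ (g z)) * ENNReal.ofReal |pr s z.2|)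
      (μ.restrict Q) := by
    have hcl : ∀ t : ℝ, max 0 (min t T) ∈ Icc 0 T := fun t =>
      ⟨le_max_left _ _, max_le hT.le (min_le_right _ _)⟩
    have hΦa : Antitone (fun t : ℝ => Ψ₁ (max 0 (min t T))) := by
      intro x y hxy
      exact hΨ₁ (hcl x) (hcl y) (max_le_max le_rfl (min_le_min hxy le_rfl))
    have hm : Measurable (fun z => ENNReal.ofReal (Ψ₁ (max 0 (min (g z) T)))
        * ENNReal.ofReal |pr s z.2|) :=
      ((hΦa.measurable.comp hg).ennreal_ofReal).mul (hmd s)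
    refine ⟨_, hm, ?_⟩
    refine (ae_restrict_iff' hQ).2 (Filter.Eventually.of_forall (fun z hz => ?_))
    have hgz := hgQ z hz
    simp only
    rw [min_eq_left hgz.2.le, max_eq_right hgz.1.le]
  -- conclusion
  have hω' : ∫ θ in s..(s + T), |pr θ f| = ∫ t in (0 : ℝ)..T, |Real.sin (t - (c - s))| := by
    have h1 : ∫ t in (0 : ℝ)..T, |Real.sin (t - (c - s))| = ∫ t in (0 : ℝ)..T, |pr (s + t) f| := by
      apply intervalIntegral.integral_congr
      intro t _
      simp only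
      rw [hω]
    rw [h1, intervalIntegral.integral_comp_add_left (fun θ => |pr θ f|), add_zero]
  have hI0 : 0 ≤ ∫ t in (0 : ℝ)..T, |Real.sin (t - (c - s))| :=
    intervalIntegral.integral_nonneg hT.le (fun _ _ => abs_nonneg _)
  have H4 : ENNReal.ofReal (Real.sin T) * ∫⁻ z in Q, ENNReal.ofReal (ker f (z.1 - p) z.2) ∂μ
      ≤ ENNReal.ofReal (Real.sin T) *
        ENNReal.ofReal (31 / 4 * ∫ t in (0 : ℝ)..T, |Real.sin (t - (c - s))|) := by
    calc ENNReal.ofReal (Real.sin T) * ∫⁻ z in Q, ENNReal.ofReal (ker f (z.1 - p) z.2) ∂μ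
        = ∫⁻ z in Q, ENNReal.ofReal (Real.sin T) * ENNReal.ofReal (ker f (z.1 - p) z.2) ∂μ :=
          (lintegral_const_mul _ (measurable_ker f p).ennreal_ofReal).symm
      _ ≤ ∫⁻ z in Q, (ENNReal.ofReal (Ψ₁ (g z)) * ENNReal.ofReal |pr s z.2|
            + ENNReal.ofReal (Ψ₂ (T - (T - g z))) * ENNReal.ofReal |pr (s + T) z.2|) ∂μ :=
          setLIntegral_mono' hQ hpt
      _ = (∫⁻ z in Q, ENNReal.ofReal (Ψ₁ (g z)) * ENNReal.ofReal |pr s z.2| ∂μ)
            + ∫⁻ z in Q, ENNReal.ofReal (Ψ₂ (T - (T - g z))) * ENNReal.ofReal |pr (s + T) z.2| ∂μ :=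
          lintegral_add_left' hmeas1 _
      _ ≤ ENNReal.ofReal (2189 / 500) * (∫⁻ t in Ioo 0 T, ENNReal.ofReal (Ψ₁ t))
            + ENNReal.ofReal (2189 / 500) * ∫⁻ t in Ioo 0 T, ENNReal.ofReal (Ψ₂ t) := by
          rw [H3] at H2
          exact add_le_add H1 H2
      _ = ENNReal.ofReal (2189 / 500) * ((∫⁻ t in Ioo 0 T, ENNReal.ofReal (Ψ₁ t))
            + ∫⁻ t in Ioo 0 T, ENNReal.ofReal (Ψ₂ t)) := (mul_add _ _ _).symm
      _ ≤ ENNReal.ofReal (2189 / 500) *
            ENNReal.ofReal (7 / 4 * Real.sin T * ∫ t in (0 : ℝ)..T, |Real.sin (t - (c - s))|) :=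
          mul_le_mul_right hint _
      _ = ENNReal.ofReal (2189 / 500 *
            (7 / 4 * Real.sin T * ∫ t in (0 : ℝ)..T, |Real.sin (t - (c - s))|)) :=
          (ENNReal.ofReal_mul (by norm_num)).symm
      _ ≤ ENNReal.ofReal (Real.sin T *
            (31 / 4 * ∫ t in (0 : ℝ)..T, |Real.sin (t - (c - s))|)) := by
          apply ENNReal.ofReal_le_ofReal
          have := mul_nonneg hsinT.le hI0
          nlinarith
      _ = _ := ENNReal.ofReal_mul hsinT.le
  rw [hω']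
  have hne0 : ENNReal.ofReal (Real.sin T) ≠ 0 := by
    rw [Ne, ENNReal.ofReal_eq_zero, not_le]
    exact hsinT
  exact (ENNReal.mul_le_mul_iff_right hne0 ENNReal.ofReal_ne_top).1 H4

end Pool.Agent.Work.MP_655153_lb
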