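import Pool.Agent.Work.MP_655153_lb.Interface

set_option autoImplicit false

open MeasureTheory Set

namespace Pool.Agent.Work.MP_655153_lb

/-- a subdivision of `[a, b]` whose polygon has almost full length -/
theorem sub_approx (γ : ℝ → ℂ) (a b δ : ℝ) (hab : a < b) (hδ : 0 < δ) :
    ∃ (m : ℕ) (t : ℕ → ℝ), Monotone t ∧ t 0 = a ∧ t m = b ∧
      (eVariationOn γ (Icc a b)).toReal - δ ≤
        ∑ k ∈ Finset.range m, ‖γ (t (k + 1)) - γ (t k)‖ := by
  obtain ⟨n, u, hu, hus, hsum⟩ : ∃ (n : ℕ) (u : ℕ → ℝ), Monotone u ∧ (∀ i, u i ∈ Icc a b) ∧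
      (eVariationOn γ (Icc a b)).toReal - δ ≤
        ∑ k ∈ Finset.range n, ‖γ (u (k + 1)) - γ (u k)‖ := by
    by_contra hcon
    push Not at hcon
    have h1 : eVariationOn γ (Icc a b) ≤
        ENNReal.ofReal ((eVariationOn γ (Icc a b)).toReal - δ) := by
      refine iSup_le fun p => ?_
      have h2 := hcon p.1 p.2.1 p.2.2.1 p.2.2.2
      have h3 : ∑ i ∈ Finset.range p.1, edist (γ (p.2.1 (i + 1))) (γ (p.2.1 i)) =
          ENNReal.ofReal (∑ i ∈ Finset.range p.1, ‖γ (p.2.1 (i + 1)) - γ (p.2.1 i)‖) := by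
        rw [ENNReal.ofReal_sum_of_nonneg fun i _ => norm_nonneg _]
        refine Finset.sum_congr rfl fun i _ => ?_
        rw [edist_dist, dist_eq_norm]
      rw [h3]
      exact ENNReal.ofReal_le_ofReal h2.le
    have h4 := ENNReal.toReal_mono ENNReal.ofReal_ne_top h1
    rcases le_or_gt 0 ((eVariationOn γ (Icc a b)).toReal - δ) with h5 | h5
    · rw [ENNReal.toReal_ofReal h5] at h4
      linarith
    · have h6 := hcon 0 (fun _ => a) monotone_const (fun _ => ⟨le_rfl, hab.le⟩)
      simp only [Finset.range_zero, Finset.sum_empty] at h6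
      linarith
  refine ⟨n + 2, fun k => if k = 0 then a else if k ≤ n + 1 then u (k - 1) else b, ?_, ?_, ?_, ?_⟩
  · refine monotone_nat_of_le_succ fun k => ?_
    rcases Nat.eq_zero_or_pos k with rfl | hk
    · simp only [if_true, zero_add, one_ne_zero, if_false]
      rw [if_pos (by omega)]
      exact (hus _).1
    · have e1 : (if k = 0 then a else if k ≤ n + 1 then u (k - 1) else b) =
          if k ≤ n + 1 then u (k - 1) else b := if_neg (by omega)
      have e2 : (if k + 1 = 0 then a else if k + 1 ≤ n + 1 then u (k + 1 - 1) else b) =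
          if k + 1 ≤ n + 1 then u (k + 1 - 1) else b := if_neg (by omega)
      show (if k = 0 then a else if k ≤ n + 1 then u (k - 1) else b) ≤
        (if k + 1 = 0 then a else if k + 1 ≤ n + 1 then u (k + 1 - 1) else b)
      rw [e1, e2]
      by_cases h1 : k + 1 ≤ n + 1
      · rw [if_pos (by omega), if_pos h1]
        exact hu (by omega)
      · rw [if_neg h1]
        split_ifs
        · exact (hus _).2
        · exact le_rfl
  · simp
  · simp only [Nat.add_eq_zero_iff, OfNat.ofNat_ne_zero, and_false, if_false]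
    rw [if_neg (by omega)]
  · refine hsum.trans ?_
    rw [Finset.sum_range_succ']
    rw [Finset.sum_range_succ]
    have h1 : ∑ k ∈ Finset.range n, ‖γ (u (k + 1)) - γ (u k)‖ =
        ∑ k ∈ Finset.range n, ‖γ ((fun k => if k = 0 then a else if k ≤ n + 1 then u (k - 1)
          else b) (k + 1 + 1)) - γ ((fun k => if k = 0 then a else if k ≤ n + 1 then u (k - 1)
          else b) (k + 1))‖ := by
      refine Finset.sum_congr rfl fun k hk => ?_
      have hk' := Finset.mem_range.1 hk
      have e1 : (fun k => if k = 0 then a else if k ≤ n + 1 then u (k - 1) else b) (k + 1 + 1) =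
          u (k + 1) := by
        show (if k + 1 + 1 = 0 then a else if k + 1 + 1 ≤ n + 1 then u (k + 1 + 1 - 1) else b) = _
        rw [if_neg (by omega), if_pos (by omega)]
        rfl
      have e2 : (fun k => if k = 0 then a else if k ≤ n + 1 then u (k - 1) else b) (k + 1) =
          u k := by
        show (if k + 1 = 0 then a else if k + 1 ≤ n + 1 then u (k + 1 - 1) else b) = _
        rw [if_neg (by omega), if_pos (by omega)]
        rfl
      rw [e1, e2]
    rw [h1]
    have h2 := norm_nonneg (γ ((fun k => if k = 0 then a else if k ≤ n + 1 then u (k - 1)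
      else b) (n + 1 + 1)) - γ ((fun k => if k = 0 then a else if k ≤ n + 1 then u (k - 1)
      else b) (n + 1)))
    have h3 := norm_nonneg (γ ((fun k => if k = 0 then a else if k ≤ n + 1 then u (k - 1)
      else b) (0 + 1)) - γ ((fun k => if k = 0 then a else if k ≤ n + 1 then u (k - 1)
      else b) 0))
    linarith

theorem stmt_SUB : Stmt_SUB := by
  intro γ a b η hab hη hV
  have hV0 : 0 ≤ (eVariationOn γ (Icc a b)).toReal := ENNReal.toReal_nonneg
  obtain ⟨V, hVd⟩ : ∃ V : ℝ, V = (eVariationOn γ (Icc a b)).toReal := ⟨_, rfl⟩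
  rw [← hVd] at hV0
  have hδ : 0 < η ^ 2 / (2 * V + 1) := by positivity
  obtain ⟨m, t, ht, h0, hm, hs⟩ := sub_approx γ a b _ hab hδ
  rw [← hVd] at hs
  have hsum := eVariationOn.sum' γ ht (n := m)
  rw [h0, hm] at hsum
  have hfin : ∀ k ∈ Finset.range m, eVariationOn γ (Icc (t k) (t (k + 1))) ≠ ⊤ := by
    intro k hk hk'
    apply hV
    rw [← hsum]
    exact ENNReal.sum_eq_top.2 ⟨k, hk, hk'⟩
  have hsumR : ∑ k ∈ Finset.range m, (eVariationOn γ (Icc (t k) (t (k + 1)))).toReal = V := by
    rw [← ENNReal.toReal_sum hfin, hsum, hVd]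
  have hle : ∀ k ∈ Finset.range m, ‖γ (t (k + 1)) - γ (t k)‖ ≤
      (eVariationOn γ (Icc (t k) (t (k + 1)))).toReal := by
    intro k hk
    have h1 : edist (γ (t (k + 1))) (γ (t k)) ≤ eVariationOn γ (Icc (t k) (t (k + 1))) :=
      eVariationOn.edist_le γ ⟨ht (Nat.le_succ k), le_rfl⟩ ⟨le_rfl, ht (Nat.le_succ k)⟩
    have h2 := ENNReal.toReal_mono (hfin k hk) h1
    rwa [edist_dist, ENNReal.toReal_ofReal dist_nonneg, dist_eq_norm] at h2
  refine ⟨m, t, ht, h0, hm, ?_, ?_⟩
  · have h1 : ∑ k ∈ Finset.range m, √((eVariationOn γ (Icc (t k) (t (k + 1)))).toReal ^ 2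
        - ‖γ (t (k + 1)) - γ (t k)‖ ^ 2) =
        ∑ k ∈ Finset.range m, √((eVariationOn γ (Icc (t k) (t (k + 1)))).toReal
          - ‖γ (t (k + 1)) - γ (t k)‖) * √((eVariationOn γ (Icc (t k) (t (k + 1)))).toReal
          + ‖γ (t (k + 1)) - γ (t k)‖) := by
      refine Finset.sum_congr rfl fun k hk => ?_
      rw [← Real.sqrt_mul (sub_nonneg.2 (hle k hk))]
      congr 1
      ring
    rw [h1]
    have hcs := Finset.sum_mul_sq_le_sq_mul_sq (Finset.range m)
      (fun k => √((eVariationOn γ (Icc (t k) (t (k + 1)))).toReal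
          - ‖γ (t (k + 1)) - γ (t k)‖))
      (fun k => √((eVariationOn γ (Icc (t k) (t (k + 1)))).toReal
          + ‖γ (t (k + 1)) - γ (t k)‖))
    have hA : ∑ k ∈ Finset.range m, √((eVariationOn γ (Icc (t k) (t (k + 1)))).toReal
          - ‖γ (t (k + 1)) - γ (t k)‖) ^ 2 ≤ η ^ 2 / (2 * V + 1) := by
      have e : ∑ k ∈ Finset.range m, √((eVariationOn γ (Icc (t k) (t (k + 1)))).toReal
          - ‖γ (t (k + 1)) - γ (t k)‖) ^ 2 =
          ∑ k ∈ Finset.range m, ((eVariationOn γ (Icc (t k) (t (k + 1)))).toReal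
          - ‖γ (t (k + 1)) - γ (t k)‖) := by
        refine Finset.sum_congr rfl fun k hk => ?_
        exact Real.sq_sqrt (sub_nonneg.2 (hle k hk))
      rw [e, Finset.sum_sub_distrib, hsumR]
      linarith
    have hB : ∑ k ∈ Finset.range m, √((eVariationOn γ (Icc (t k) (t (k + 1)))).toReal
          + ‖γ (t (k + 1)) - γ (t k)‖) ^ 2 ≤ 2 * V := by
      have e : ∑ k ∈ Finset.range m, √((eVariationOn γ (Icc (t k) (t (k + 1)))).toReal
          + ‖γ (t (k + 1)) - γ (t k)‖) ^ 2 =
          ∑ k ∈ Finset.range m, ((eVariationOn γ (Icc (t k) (t (k + 1)))).toReal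
          + ‖γ (t (k + 1)) - γ (t k)‖) := by
        refine Finset.sum_congr rfl fun k hk => ?_
        exact Real.sq_sqrt (add_nonneg ENNReal.toReal_nonneg (norm_nonneg _))
      have e2 := Finset.sum_le_sum hle
      rw [hsumR] at e2
      rw [e, Finset.sum_add_distrib, hsumR]
      linarith
    refine abs_le_of_sq_le_sq' (hcs.trans ?_) hη.le |>.2
    have hAB := mul_le_mul hA hB (Finset.sum_nonneg fun k _ => sq_nonneg _) hδ.le
    refine hAB.trans ?_
    rw [div_mul_eq_mul_div, div_le_iff₀ (by positivity)]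
    have : 0 ≤ η ^ 2 := sq_nonneg η
    nlinarith
  · rw [← hVd, ← hsumR]
    exact Finset.sum_le_sum hle

end Pool.Agent.Work.MP_655153_lb
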