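import Pool.Agent.Work.MP_655153_lb.Interface
import Pool.Agent.Work.MP_655153_lb.Chg

/-!
# Block TON
-/

open MeasureTheory Set
open scoped ENNReal

namespace Pool.Agent.Work.MP_655153_lb

theorem ton_meas {n : ℕ} (a e : Fin n → ℂ) (hO : IsOpen (Ov a e)) (i : Fin n) :
    Measurable (fun z : ℝ × ℝ =>
      (Ov a e).indicator (fun _ => (1 : ℝ≥0∞)) (z.2, pr z.2 (pt a e i z.1))
        * ENNReal.ofReal |pr z.2 (e i)|) := by
  have h1 : Continuous (fun z : ℝ × ℝ => (z.2, pr z.2 (pt a e i z.1))) := by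
    unfold pr pt; fun_prop
  have h2 : Measurable ((Ov a e).indicator (fun _ => (1 : ℝ≥0∞))) :=
    measurable_const.indicator hO.measurableSet
  have h3 : Continuous (fun z : ℝ × ℝ => |pr z.2 (e i)|) := by
    unfold pr; fun_prop
  exact (h2.comp h1.measurable).mul (ENNReal.measurable_ofReal.comp h3.measurable)

theorem blk_TON (hOPEN : Stmt_OPEN) : Stmt_TON := by
  intro n a e
  have hO := (hOPEN n a e).1
  have hm := ton_meas a e hO
  have h1 : ∀ i, ∫⁻ s in Icc (0 : ℝ) 1, ∫⁻ θ in Ioc 0 Real.pi,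
      (Ov a e).indicator (fun _ => (1 : ℝ≥0∞)) (θ, pr θ (pt a e i s))
        * ENNReal.ofReal |pr θ (e i)|
      = ∫⁻ θ in Ioc 0 Real.pi, ∫⁻ s in Icc (0 : ℝ) 1,
      (Ov a e).indicator (fun _ => (1 : ℝ≥0∞)) (θ, pr θ (pt a e i s))
        * ENNReal.ofReal |pr θ (e i)| := by
    intro i
    exact lintegral_lintegral_swap (hm i).aemeasurable
  have h2 : ∀ i, Measurable (fun θ : ℝ => ∫⁻ s in Icc (0 : ℝ) 1,
      (Ov a e).indicator (fun _ => (1 : ℝ≥0∞)) (θ, pr θ (pt a e i s))
        * ENNReal.ofReal |pr θ (e i)|) := by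
    intro i
    exact Measurable.lintegral_prod_left' (hm i)
  rw [Finset.sum_congr rfl (fun i _ => h1 i), ← lintegral_finsetSum _ (fun i _ => h2 i)]
  refine lintegral_congr fun θ => ?_
  have hS : MeasurableSet {x : ℝ | (θ, x) ∈ Ov a e} := by
    have : Continuous (fun x : ℝ => (θ, x)) := by fun_prop
    exact (hO.preimage this).measurableSet
  have hF : Measurable ({x : ℝ | (θ, x) ∈ Ov a e}.indicator (fun _ => (1 : ℝ≥0∞))) :=
    measurable_const.indicator hS
  have h3 : ∀ i, ∫⁻ s in Icc (0 : ℝ) 1,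
      (Ov a e).indicator (fun _ => (1 : ℝ≥0∞)) (θ, pr θ (pt a e i s))
        * ENNReal.ofReal |pr θ (e i)|
      = volume ({x : ℝ | (θ, x) ∈ Ov a e} ∩ Icc (lo a e θ i) (hi a e θ i)) := by
    intro i
    have h4 := chg_lint a e i θ hF
    rw [lintegral_indicator hS, setLIntegral_one, Measure.restrict_apply hS] at h4
    rw [← h4]
    refine lintegral_congr fun s => ?_
    rw [mul_comm]
    congr 1
  have h5 : ∀ x, ENNReal.ofReal (cnt a e θ x)
      = ∑ i, (Icc (lo a e θ i) (hi a e θ i)).indicator (fun _ => (1 : ℝ≥0∞)) x := by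
    intro x
    unfold cnt
    rw [ENNReal.ofReal_sum_of_nonneg]
    · refine Finset.sum_congr rfl fun i _ => ?_
      by_cases hx : x ∈ Icc (lo a e θ i) (hi a e θ i)
      · rw [indicator_of_mem hx, indicator_of_mem hx, ENNReal.ofReal_one]
      · rw [indicator_of_notMem hx, indicator_of_notMem hx, ENNReal.ofReal_zero]
    · intro i _
      exact indicator_nonneg (fun _ _ => zero_le_one) _
  rw [Finset.sum_congr rfl (fun i _ => h3 i), lintegral_congr h5,
    lintegral_finsetSum _ (fun i _ => measurable_const.indicator measurableSet_Icc)]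
  refine Finset.sum_congr rfl fun i _ => ?_
  rw [lintegral_indicator measurableSet_Icc, setLIntegral_one,
    Measure.restrict_apply measurableSet_Icc, inter_comm]

end Pool.Agent.Work.MP_655153_lb
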