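import Pool.Agent.Work.MP_655153_lb.Interface

/-!
# Block UP
-/

open MeasureTheory Set
open scoped ENNReal

namespace Pool.Agent.Work.MP_655153_lb

/-- parameters of the points of the segment `i` in the disc of radius `1.1` -/
def upS {n : ℕ} (a e : Fin n → ℂ) (i : Fin n) : Set ℝ :=
  {s : ℝ | s ∈ Icc 0 1 ∧ ‖pt a e i s‖ ≤ 11 / 10}

theorem upS_meas {n : ℕ} (a e : Fin n → ℂ) (i : Fin n) : MeasurableSet (upS a e i) := by
  have h1 : Continuous (fun s : ℝ => ‖pt a e i s‖) := (continuous_pt a e i).norm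
  exact measurableSet_Icc.inter (measurableSet_le h1.measurable measurable_const)

theorem up_meas {n : ℕ} (a e : Fin n → ℂ) (i j : Fin n) :
    Measurable (fun s : ℝ => ∫⁻ t in upS a e j,
      ENNReal.ofReal (ker (e i) (pt a e j t - pt a e i s) (e j))) := by
  have h1 : Measurable (fun z : ℝ × ℝ =>
      ENNReal.ofReal (ker (e i) (pt a e j z.2 - pt a e i z.1) (e j))) := by
    have h2 : Measurable (fun z : ℝ × ℝ => (e i, pt a e j z.2 - pt a e i z.1, e j)) := by
      have h3 : Continuous (fun z : ℝ × ℝ => (e i, pt a e j z.2 - pt a e i z.1, e j)) := by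
        unfold pt; fun_prop
      exact h3.measurable
    exact ENNReal.measurable_ofReal.comp (measurable_ker3.comp h2)
  exact Measurable.lintegral_prod_right' h1

/-- the inner sum as an integral over `mu` -/
theorem up_sum {n : ℕ} (a e : Fin n → ℂ) (hMU : Stmt_MU) (i : Fin n) (s : ℝ) :
    ∑ j, ∫⁻ t in upS a e j, ENNReal.ofReal (ker (e i) (pt a e j t - pt a e i s) (e j))
      = ∫⁻ z in {z : ℂ × ℂ | ‖z.1‖ ≤ 11 / 10},
          ENNReal.ofReal (ker (e i) (z.1 - pt a e i s) z.2) ∂(mu a e) := by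
  have hB : MeasurableSet {z : ℂ × ℂ | ‖z.1‖ ≤ 11 / 10} :=
    measurableSet_le (measurable_fst.norm) measurable_const
  have hk : Measurable (fun z : ℂ × ℂ => ENNReal.ofReal (ker (e i) (z.1 - pt a e i s) z.2)) :=
    ENNReal.measurable_ofReal.comp (measurable_ker (e i) (pt a e i s))
  rw [← lintegral_indicator hB, (hMU n a e).2.1 _ (hk.indicator hB)]
  refine Finset.sum_congr rfl fun j _ => ?_
  have h1 : MeasurableSet {t : ℝ | ‖pt a e j t‖ ≤ 11 / 10} :=
    measurableSet_le ((continuous_pt a e j).norm.measurable) measurable_const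
  have h2 : upS a e j = {t : ℝ | ‖pt a e j t‖ ≤ 11 / 10} ∩ Icc 0 1 := by
    ext t; unfold upS; exact and_comm
  rw [h2, ← Measure.restrict_restrict h1, ← lintegral_indicator h1]
  refine lintegral_congr fun t => ?_
  by_cases ht : ‖pt a e j t‖ ≤ 11 / 10
  · rw [indicator_of_mem (show t ∈ {t : ℝ | ‖pt a e j t‖ ≤ 11 / 10} from ht),
      indicator_of_mem (show (pt a e j t, e j) ∈ {z : ℂ × ℂ | ‖z.1‖ ≤ 11 / 10} from ht)]
  · rw [indicator_of_notMem (show t ∉ {t : ℝ | ‖pt a e j t‖ ≤ 11 / 10} from ht),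
      indicator_of_notMem (show (pt a e j t, e j) ∉ {z : ℂ × ℂ | ‖z.1‖ ≤ 11 / 10} from ht)]

/-- the estimate at one point -/
theorem up_point {n : ℕ} (a e : Fin n → ℂ) (hONE : Stmt_ONE) (hMU : Stmt_MU) (hGOOD : Stmt_GOOD)
    (hOPEN : Stmt_OPEN) (hCROSS : Stmt_CROSS) (hlen : len e ≤ 63 / 20) (i : Fin n) (s : ℝ)
    (hs : s ∈ Ioo (0 : ℝ) 1) (hp : ‖pt a e i s‖ ≤ 11 / 10) :
    ∑ j, ∫⁻ t in upS a e j, ENNReal.ofReal (ker (e i) (pt a e j t - pt a e i s) (e j))
      ≤ ENNReal.ofReal (31 / 4) * ∫⁻ θ in Ioc 0 Real.pi,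
        (Ov a e).indicator (fun _ => (1 : ℝ≥0∞)) (θ, pr θ (pt a e i s))
          * ENNReal.ofReal |pr θ (e i)| := by
  rw [up_sum a e hMU i s]
  have hcont : Continuous (fun θ : ℝ => (θ, pr θ (pt a e i s))) := by
    unfold pr; fun_prop
  have h1 := hONE (mu a e) (pt a e i s) (e i) {θ | (θ, pr θ (pt a e i s)) ∉ Ov a e} hp
    (by rw [(hMU n a e).2.2.2]; exact ENNReal.ofReal_le_ofReal hlen)
    (by
      have := ((hOPEN n a e).1.preimage hcont).isClosed_compl
      exact this)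
    (by
      intro θ
      have h2 := (hOPEN n a e).2 θ (pr θ (pt a e i s))
      rw [mem_ofPred_eq, mem_ofPred_eq, pr_add_pi]
      exact not_congr h2)
    (by
      intro θ hθ
      exact hGOOD n a e (pt a e i s) θ hθ)
    (by
      apply (hMU n a e).2.2.1
      intro j t ht _ hker θ hθ hG
      exact hG (hCROSS n a e i j s t hs ht hker θ hθ))
  refine h1.trans (le_of_eq ?_)
  congr 1
  refine lintegral_congr fun θ => ?_
  congr 1
  by_cases hθ : (θ, pr θ (pt a e i s)) ∈ Ov a e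
  · rw [indicator_of_mem hθ, indicator_of_mem]
    intro h; exact h hθ
  · rw [indicator_of_notMem hθ, indicator_of_notMem]
    intro h; exact h hθ

theorem blk_UP (hONE : Stmt_ONE) (hMU : Stmt_MU) (hGOOD : Stmt_GOOD) (hOPEN : Stmt_OPEN)
    (hCROSS : Stmt_CROSS) (hTON : Stmt_TON) (hOM : Stmt_OM) (hLEN : Stmt_LEN)
    (hWID : Stmt_WID) : Stmt_UP := by
  intro n a e ε hε hcov hlen
  have hstep : ∀ i, ∑ j, ∫⁻ s in upS a e i, ∫⁻ t in upS a e j,
      ENNReal.ofReal (ker (e i) (pt a e j t - pt a e i s) (e j))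
      ≤ ENNReal.ofReal (31 / 4) * ∫⁻ s in Icc (0 : ℝ) 1, ∫⁻ θ in Ioc 0 Real.pi,
        (Ov a e).indicator (fun _ => (1 : ℝ≥0∞)) (θ, pr θ (pt a e i s))
          * ENNReal.ofReal |pr θ (e i)| := by
    intro i
    rw [← lintegral_finsetSum _ (fun j _ => up_meas a e i j),
      ← lintegral_const_mul' _ _ ENNReal.ofReal_ne_top]
    have h1 : ∫⁻ s in upS a e i, ∑ j, ∫⁻ t in upS a e j,
        ENNReal.ofReal (ker (e i) (pt a e j t - pt a e i s) (e j))
        ≤ ∫⁻ s in upS a e i, ENNReal.ofReal (31 / 4) * ∫⁻ θ in Ioc 0 Real.pi,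
        (Ov a e).indicator (fun _ => (1 : ℝ≥0∞)) (θ, pr θ (pt a e i s))
          * ENNReal.ofReal |pr θ (e i)| := by
      refine lintegral_mono_ae ?_
      have h0 : ∀ᵐ s : ℝ ∂(volume.restrict (upS a e i)), s ∉ ({0, 1} : Set ℝ) := by
        refine ae_restrict_of_ae ?_
        rw [ae_iff]
        have : {s : ℝ | ¬ s ∉ ({0, 1} : Set ℝ)} = {0, 1} := by ext s; exact not_not
        rw [this]
        exact (Set.toFinite _).measure_zero _
      filter_upwards [h0, ae_restrict_mem (upS_meas a e i)] with s hs1 hs2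
      refine up_point a e hONE hMU hGOOD hOPEN hCROSS hlen i s ⟨?_, ?_⟩ hs2.2
      · refine lt_of_le_of_ne hs2.1.1 fun h => hs1 ?_
        rw [← h]; exact Or.inl rfl
      · refine lt_of_le_of_ne hs2.1.2 fun h => hs1 ?_
        rw [h]; exact Or.inr rfl
    refine h1.trans (lintegral_mono_set ?_)
    intro s hs
    exact hs.1
  have h2 : DD a e ≤ ENNReal.ofReal (31 / 4) * ∑ i, ∫⁻ s in Icc (0 : ℝ) 1,
      ∫⁻ θ in Ioc 0 Real.pi,
        (Ov a e).indicator (fun _ => (1 : ℝ≥0∞)) (θ, pr θ (pt a e i s))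
          * ENNReal.ofReal |pr θ (e i)| := by
    rw [Finset.mul_sum]
    exact Finset.sum_le_sum fun i _ => hstep i
  refine h2.trans ?_
  rw [hTON n a e]
  have h3 : ∫⁻ θ in Ioc 0 Real.pi, ∫⁻ x in {x : ℝ | (θ, x) ∈ Ov a e},
      ENNReal.ofReal (cnt a e θ x)
      ≤ ∫⁻ θ in Ioc 0 Real.pi, ENNReal.ofReal (299 / 99 * (wid e θ - 2 + ε)) :=
    lintegral_mono fun θ => hOM n a e ε θ hε hcov
  have hwc : Continuous (fun θ : ℝ => wid e θ) := by
    unfold wid pr; fun_prop
  have h4 : ∫⁻ θ in Ioc 0 Real.pi, ENNReal.ofReal (299 / 99 * (wid e θ - 2 + ε))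
      = ENNReal.ofReal (299 / 99 * (2 * len e - 2 * Real.pi + Real.pi * ε)) := by
    rw [← ofReal_integral_eq_lintegral_ofReal]
    · congr 1
      rw [← intervalIntegral.integral_of_le Real.pi_pos.le, intervalIntegral.integral_const_mul]
      congr 1
      have e1 : ∀ θ, wid e θ - 2 + ε = wid e θ + (ε - 2) := fun θ => by ring
      simp only [e1]
      rw [intervalIntegral.integral_add (hwc.intervalIntegrable _ _)
        (continuous_const.intervalIntegrable _ _), hLEN n e, intervalIntegral.integral_const,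
        smul_eq_mul]
      ring
    · have : Continuous (fun θ : ℝ => 299 / 99 * (wid e θ - 2 + ε)) := by fun_prop
      exact (this.integrableOn_Icc).mono_set Ioc_subset_Icc_self
    · refine Filter.Eventually.of_forall fun θ => ?_
      have := hWID n a e ε hε hcov θ
      simp only [Pi.zero_apply]
      have h5 : 0 ≤ wid e θ - 2 + ε := by linarith
      positivity
  refine (mul_le_mul_right (h3.trans (le_of_eq h4)) _).trans (le_of_eq ?_)
  rw [← ENNReal.ofReal_mul (by norm_num)]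
  congr 1
  ring

end Pool.Agent.Work.MP_655153_lb
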