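import Pool.Agent.Work.MP_655153_lb.Interface

/-! # Blocks WID and EXC -/

open MeasureTheory Set
open scoped ENNReal

namespace Pool.Agent.Work.MP_655153_lb

namespace WIDEXCw

theorem cnt_nonneg {n : ℕ} (a e : Fin n → ℂ) (θ x : ℝ) : 0 ≤ cnt a e θ x := by
  unfold cnt
  exact Finset.sum_nonneg (fun i _ => indicator_nonneg (fun _ _ => zero_le_one) x)

theorem one_le_cnt {n : ℕ} (a e : Fin n → ℂ) (θ x : ℝ) (h : cnt a e θ x ≠ 0) :
    1 ≤ cnt a e θ x := by
  unfold cnt at h ⊢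
  obtain ⟨i, _, hi⟩ := Finset.exists_ne_zero_of_sum_ne_zero h
  have hx : x ∈ Icc (lo a e θ i) (Pool.Agent.Work.MP_655153_lb.hi a e θ i) := by
    by_contra hx
    exact hi (indicator_of_notMem hx _)
  have h1 : (Icc (lo a e θ i) (Pool.Agent.Work.MP_655153_lb.hi a e θ i)).indicator
      (fun _ => (1 : ℝ)) x = 1 := indicator_of_mem hx _
  exact h1.symm.le.trans <| Finset.single_le_sum (f := fun j =>
    (Icc (lo a e θ j) (Pool.Agent.Work.MP_655153_lb.hi a e θ j)).indicator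
      (fun _ => (1 : ℝ)) x)
    (fun j _ => indicator_nonneg (fun _ _ => zero_le_one) x) (Finset.mem_univ i)

/-- the set of the lines next to the centre which meet the family -/
def hit {n : ℕ} (a e : Fin n → ℂ) (θ : ℝ) : Set ℝ := {x : ℝ | x ∈ Ioo (-1) 1 ∧ cnt a e θ x ≠ 0}

theorem hit_meas {n : ℕ} (a e : Fin n → ℂ) (θ : ℝ) (hm : Measurable (cnt a e θ)) :
    MeasurableSet (hit a e θ) := by
  have h1 : MeasurableSet {x : ℝ | cnt a e θ x ≠ 0} :=
    (hm (measurableSet_singleton 0)).compl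
  exact measurableSet_Ioo.inter h1

theorem hit_vol {n : ℕ} (a e : Fin n → ℂ) (θ ε : ℝ) (hm : Measurable (cnt a e θ)) (hε : 0 ≤ ε)
    (hc : Cov a e ε) : 2 - ε ≤ (volume (hit a e θ)).toReal := by
  have hb : MeasurableSet {x : ℝ | x ∈ Ioo (-1) 1 ∧ cnt a e θ x = 0} :=
    measurableSet_Ioo.inter (hm (measurableSet_singleton 0))
  have hu : Ioo (-1 : ℝ) 1 = hit a e θ ∪ {x : ℝ | x ∈ Ioo (-1) 1 ∧ cnt a e θ x = 0} := by
    ext x
    constructor
    · intro hx
      by_cases h : cnt a e θ x = 0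
      · exact Or.inr ⟨hx, h⟩
      · exact Or.inl ⟨hx, h⟩
    · rintro (h | h)
      · exact h.1
      · exact h.1
  have h2 : volume (Ioo (-1 : ℝ) 1) ≤ volume (hit a e θ) + ENNReal.ofReal ε := by
    calc volume (Ioo (-1 : ℝ) 1) = volume (hit a e θ ∪
          {x : ℝ | x ∈ Ioo (-1) 1 ∧ cnt a e θ x = 0}) := by rw [← hu]
      _ ≤ volume (hit a e θ) + volume {x : ℝ | x ∈ Ioo (-1) 1 ∧ cnt a e θ x = 0} :=
          measure_union_le _ _
      _ ≤ _ := add_le_add le_rfl (hc θ)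
  have hfin : volume (hit a e θ) ≠ ⊤ := by
    refine ne_top_of_le_ne_top ?_ (measure_mono (t := Ioo (-1 : ℝ) 1) (fun x hx => hx.1))
    rw [Real.volume_Ioo]
    exact ENNReal.ofReal_ne_top
  rw [Real.volume_Ioo] at h2
  have h3 := ENNReal.toReal_mono (ENNReal.add_ne_top.mpr ⟨hfin, ENNReal.ofReal_ne_top⟩) h2
  rw [ENNReal.toReal_add hfin ENNReal.ofReal_ne_top, ENNReal.toReal_ofReal (by norm_num),
    ENNReal.toReal_ofReal hε] at h3
  linarith

end WIDEXCw

theorem blk_EXC (hM : Stmt_MASS) : Stmt_EXC := by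
  intro n a e ε hε hc θ
  obtain ⟨hm, hi, hw, _⟩ := hM n a e θ
  have hS := WIDEXCw.hit_meas a e θ hm
  have hfin : volume (WIDEXCw.hit a e θ) ≠ ⊤ := by
    refine ne_top_of_le_ne_top ?_ (measure_mono (t := Ioo (-1 : ℝ) 1) (fun x hx => hx.1))
    rw [Real.volume_Ioo]
    exact ENNReal.ofReal_ne_top
  have hind : Integrable ((WIDEXCw.hit a e θ).indicator (fun _ => (1 : ℝ))) :=
    (integrable_indicator_iff hS).mpr (integrableOn_const hfin)
  have h1 : ∫ x, (WIDEXCw.hit a e θ).indicator (fun _ => (1 : ℝ)) x =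
      (volume (WIDEXCw.hit a e θ)).toReal := by
    rw [integral_indicator hS, setIntegral_const, smul_eq_mul, mul_one]
    rfl
  have h2 := WIDEXCw.hit_vol a e θ ε hm hε hc
  have h3 : ∫ x, max (cnt a e θ x - 1) 0 ≤
      ∫ x, (cnt a e θ x - (WIDEXCw.hit a e θ).indicator (fun _ => (1 : ℝ)) x) := by
    refine integral_mono_of_nonneg (Filter.Eventually.of_forall fun x => le_max_right _ _)
      (hi.sub hind) (Filter.Eventually.of_forall fun x => ?_)
    show max (cnt a e θ x - 1) 0 ≤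
      cnt a e θ x - (WIDEXCw.hit a e θ).indicator (fun _ => (1 : ℝ)) x
    by_cases hx : x ∈ WIDEXCw.hit a e θ
    · rw [indicator_of_mem hx]
      have := WIDEXCw.one_le_cnt a e θ x hx.2
      rw [max_eq_left (by linarith)]
    · rw [indicator_of_notMem hx, sub_zero]
      have := WIDEXCw.cnt_nonneg a e θ x
      exact max_le (by linarith) this
  rw [integral_sub hi hind, hw, h1] at h3
  linarith

theorem blk_WID (hM : Stmt_MASS) : Stmt_WID := by
  intro n a e ε hε hc θ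
  have h1 := blk_EXC hM n a e ε hε hc θ
  have h2 : 0 ≤ ∫ x, max (cnt a e θ x - 1) 0 := integral_nonneg (fun x => le_max_right _ _)
  linarith

end Pool.Agent.Work.MP_655153_lb
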