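import Pool.Agent.Work.MP_655153_lb.Interface

/-!
# Beam detection constant, block ZON: the isoperimetric inequality for zonogons
-/

open MeasureTheory Set

namespace Pool.Agent.Work.MP_655153_lb

namespace ZON

/-- the distance on the line is of negative type -/
theorem negtype {ι : Type} [Fintype ι] (c s : ι → ℝ) (hc : ∑ i, c i = 0) :
    ∑ i, ∑ j, c i * c j * |s i - s j| ≤ 0 := by
  obtain ⟨R, hR⟩ : ∃ R : ℝ, ∀ i, s i ≤ R := by
    refine ⟨∑ i, |s i|, fun i => ?_⟩
    exact (le_abs_self _).trans
      (Finset.single_le_sum (f := fun i => |s i|) (fun _ _ => abs_nonneg _) (Finset.mem_univ i))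
  have hint : ∀ m : ℝ, Integrable ((Icc m R).indicator (fun _ => (1 : ℝ))) := by
    intro m
    rw [integrable_indicator_iff measurableSet_Icc]
    exact (integrableOn_const (by simp [Real.volume_Icc]))
  have hval : ∀ i j, ∫ x, (Icc (max (s i) (s j)) R).indicator (fun _ => (1 : ℝ)) x
      = R - max (s i) (s j) := by
    intro i j
    rw [integral_indicator measurableSet_Icc]
    simp only [integral_const, MeasurableSet.univ, measureReal_restrict_apply, univ_inter,
      smul_eq_mul, mul_one]
    rw [Measure.real, Real.volume_Icc, ENNReal.toReal_ofReal]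
    exact sub_nonneg.2 (max_le (hR i) (hR j))
  have hsq : ∫ x, (∑ i, c i * (Icc (s i) R).indicator (fun _ => (1 : ℝ)) x) ^ 2
      = ∑ i, ∑ j, c i * c j * (R - max (s i) (s j)) := by
    have h1 : ∀ x, (∑ i, c i * (Icc (s i) R).indicator (fun _ => (1 : ℝ)) x) ^ 2
        = ∑ i, ∑ j, c i * c j * (Icc (max (s i) (s j)) R).indicator (fun _ => (1 : ℝ)) x := by
      intro x
      rw [sq, Finset.sum_mul_sum]
      refine Finset.sum_congr rfl fun i _ => Finset.sum_congr rfl fun j _ => ?_
      have h2 : (Icc (max (s i) (s j)) R).indicator (fun _ => (1 : ℝ)) x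
          = (Icc (s i) R).indicator (fun _ => (1 : ℝ)) x
            * (Icc (s j) R).indicator (fun _ => (1 : ℝ)) x := by
        simp only [indicator_apply, mem_Icc, max_le_iff]
        by_cases h3 : s i ≤ x <;> by_cases h4 : s j ≤ x <;> by_cases h5 : x ≤ R <;>
          simp [h3, h4, h5]
      rw [h2]; ring
    simp_rw [h1]
    rw [integral_finset_sum _ (fun i _ => integrable_finset_sum _
      (fun j _ => (hint _).const_mul _))]
    refine Finset.sum_congr rfl fun i _ => ?_
    rw [integral_finset_sum _ (fun j _ => (hint _).const_mul _)]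
    refine Finset.sum_congr rfl fun j _ => ?_
    rw [integral_const_mul, hval]
  have hpos : 0 ≤ ∑ i, ∑ j, c i * c j * (R - max (s i) (s j)) := by
    rw [← hsq]; exact integral_nonneg fun x => sq_nonneg _
  have h0 : ∀ f : ι → ℝ, ∑ i, ∑ j, c i * c j * f i = 0 := by
    intro f
    have : ∀ i, ∑ j, c i * c j * f i = (c i * f i) * ∑ j, c j := by
      intro i; rw [Finset.mul_sum]; refine Finset.sum_congr rfl fun j _ => by ring
    simp_rw [this, hc, mul_zero, Finset.sum_const_zero]
  have h0' : ∀ f : ι → ℝ, ∑ i, ∑ j, c i * c j * f j = 0 := by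
    intro f
    have : ∀ i, ∑ j, c i * c j * f j = c i * ∑ j, c j * f j := by
      intro i; rw [Finset.mul_sum]; refine Finset.sum_congr rfl fun j _ => by ring
    simp_rw [this]
    rw [← Finset.sum_mul, hc, zero_mul]
  have hfin : ∑ i, ∑ j, c i * c j * |s i - s j|
      = -2 * ∑ i, ∑ j, c i * c j * (R - max (s i) (s j)) := by
    have h1 : ∀ i j, c i * c j * |s i - s j| = -2 * (c i * c j * (R - max (s i) (s j)))
        + (c i * c j * (2 * R - s i)) - c i * c j * s j := by
      intro i j
      have : |s i - s j| = 2 * max (s i) (s j) - s i - s j := by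
        rcases le_total (s i) (s j) with h | h
        · rw [max_eq_right h, abs_of_nonpos (by linarith)]; ring
        · rw [max_eq_left h, abs_of_nonneg (by linarith)]; ring
      rw [this]; ring
    simp_rw [h1, Finset.sum_sub_distrib, Finset.sum_add_distrib]
    have e1 := h0 (fun i => 2 * R - s i)
    have e2 := h0' s
    rw [e1, e2, add_zero, sub_zero, Finset.mul_sum]
    refine Finset.sum_congr rfl fun i _ => ?_
    rw [Finset.mul_sum]
  rw [hfin]; linarith

theorem integral_abs_sin_sub (c : ℝ) : ∫ θ in (0 : ℝ)..Real.pi, |Real.sin (θ - c)| = 2 := by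
  have h := integral_abs_pr (⟨-Real.sin c, Real.cos c⟩ : ℂ)
  have h1 : ‖(⟨-Real.sin c, Real.cos c⟩ : ℂ)‖ = 1 := by
    have : ‖(⟨-Real.sin c, Real.cos c⟩ : ℂ)‖ ^ 2 = 1 := by
      rw [Complex.sq_norm, Complex.normSq_apply]
      have := Real.sin_sq_add_cos_sq c
      simp only
      nlinarith
    rw [← one_pow 2] at this
    exact (pow_left_inj₀ (norm_nonneg _) zero_le_one two_ne_zero).1 this
  rw [h1] at h
  rw [mul_one] at h
  rw [← h]
  refine intervalIntegral.integral_congr fun θ _ => ?_
  unfold pr
  simp only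
  rw [Real.sin_sub]
  congr 1; ring

theorem abs_sin_eq (x y : ℝ) :
    |Real.sin (x - y)| = 1 / 4 * ∫ θ in (0 : ℝ)..Real.pi,
      |Real.cos (2 * x - θ) - Real.cos (2 * y - θ)| := by
  have h1 : ∀ θ : ℝ, |Real.cos (2 * x - θ) - Real.cos (2 * y - θ)|
      = 2 * |Real.sin (x - y)| * |Real.sin (θ - (x + y))| := by
    intro θ
    rw [Real.cos_sub_cos, abs_mul, abs_mul]
    have e1 : (2 * x - θ + (2 * y - θ)) / 2 = -(θ - (x + y)) := by ring
    have e2 : (2 * x - θ - (2 * y - θ)) / 2 = x - y := by ring
    rw [e1, e2, Real.sin_neg, abs_neg, abs_neg, abs_of_pos (by norm_num : (0:ℝ) < 2)]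
    ring
  simp_rw [h1]
  rw [intervalIntegral.integral_const_mul, integral_abs_sin_sub]
  ring

/-- the function `|sin (x - y)|` is of negative type -/
theorem negtype_sin {ι : Type} [Fintype ι] (c x : ι → ℝ) (hc : ∑ i, c i = 0) :
    ∑ i, ∑ j, c i * c j * |Real.sin (x i - x j)| ≤ 0 := by
  have hci : ∀ i j, IntervalIntegrable
      (fun θ => c i * c j * |Real.cos (2 * x i - θ) - Real.cos (2 * x j - θ)|)
      volume 0 Real.pi := by
    intro i j
    apply Continuous.intervalIntegrable
    fun_prop
  have h1 : ∑ i, ∑ j, c i * c j * |Real.sin (x i - x j)|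
      = 1 / 4 * ∫ θ in (0 : ℝ)..Real.pi, ∑ i, ∑ j,
        c i * c j * |Real.cos (2 * x i - θ) - Real.cos (2 * x j - θ)| := by
    rw [intervalIntegral.integral_finset_sum (f := fun i θ => ∑ j,
        c i * c j * |Real.cos (2 * x i - θ) - Real.cos (2 * x j - θ)|)
      (fun i _ => Continuous.intervalIntegrable (by fun_prop) _ _), Finset.mul_sum]
    refine Finset.sum_congr rfl fun i _ => ?_
    rw [intervalIntegral.integral_finset_sum (fun j _ => hci i j), Finset.mul_sum]
    refine Finset.sum_congr rfl fun j _ => ?_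
    rw [intervalIntegral.integral_const_mul, abs_sin_eq]
    ring
  rw [h1]
  have h2 : ∫ θ in (0 : ℝ)..Real.pi, ∑ i, ∑ j,
        c i * c j * |Real.cos (2 * x i - θ) - Real.cos (2 * x j - θ)| ≤ 0 := by
    rw [intervalIntegral.integral_of_le Real.pi_pos.le]
    exact integral_nonpos fun θ => negtype c (fun i => Real.cos (2 * x i - θ)) hc
  linarith

end ZON

open ZON in
theorem blk_ZON : Stmt_ZON := by
  intro n e
  set m : Fin n → ℝ := fun i => ‖e i‖ with hm
  set τ : Fin n → ℝ := fun i => Complex.arg (e i) with hτ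
  have hdet : ∀ i j, |det (e i) (e j)| = m i * m j * |Real.sin (τ i - τ j)| := by
    intro i j
    have h1 := Complex.norm_mul_cos_arg (e i)
    have h2 := Complex.norm_mul_sin_arg (e i)
    have h3 := Complex.norm_mul_cos_arg (e j)
    have h4 := Complex.norm_mul_sin_arg (e j)
    have : det (e i) (e j) = -(m i * m j * Real.sin (τ i - τ j)) := by
      unfold det
      rw [Real.sin_sub]
      calc (e i).re * (e j).im - (e i).im * (e j).re
          = (‖e i‖ * Real.cos (Complex.arg (e i))) * (‖e j‖ * Real.sin (Complex.arg (e j)))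
            - (‖e i‖ * Real.sin (Complex.arg (e i))) * (‖e j‖ * Real.cos (Complex.arg (e j))) := by
              rw [h1, h2, h3, h4]
        _ = _ := by simp only [hm, hτ]; ring
    rw [this, abs_neg, abs_mul, abs_of_nonneg (by positivity)]
  -- the inequality for one shift
  have hshift : ∀ s : ℝ, 2 * ∑ i, ∑ j, m i * m j * |Real.sin (τ i - τ j)|
      ≤ ∑ i, ∑ j, m i * m j * (|Real.sin (s - (τ i - τ j))| + |Real.sin (s - (τ j - τ i))|) := by
    intro s
    have h := negtype_sin (ι := Fin n ⊕ Fin n) (Sum.elim m (fun i => - m i))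
      (Sum.elim τ (fun i => τ i + s)) (by
        rw [Fintype.sum_sum_type]; simp)
    rw [Fintype.sum_sum_type] at h
    simp only [Fintype.sum_sum_type, Sum.elim_inl, Sum.elim_inr] at h
    rw [Finset.sum_add_distrib, Finset.sum_add_distrib] at h
    have e1 : ∑ i, ∑ j, -m i * -m j * |Real.sin (τ i + s - (τ j + s))|
        = ∑ i, ∑ j, m i * m j * |Real.sin (τ i - τ j)| := by
      refine Finset.sum_congr rfl fun i _ => Finset.sum_congr rfl fun j _ => ?_
      rw [add_sub_add_right_eq_sub]; ring
    have e2 : ∑ i, ∑ j, m i * -m j * |Real.sin (τ i - (τ j + s))|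
        = - ∑ i, ∑ j, m i * m j * |Real.sin (s - (τ i - τ j))| := by
      rw [← Finset.sum_neg_distrib]
      refine Finset.sum_congr rfl fun i _ => ?_
      rw [← Finset.sum_neg_distrib]
      refine Finset.sum_congr rfl fun j _ => ?_
      have : τ i - (τ j + s) = -(s - (τ i - τ j)) := by ring
      rw [this, Real.sin_neg, abs_neg]; ring
    have e3 : ∑ i, ∑ j, -m i * m j * |Real.sin (τ i + s - τ j)|
        = - ∑ i, ∑ j, m i * m j * |Real.sin (s - (τ j - τ i))| := by
      rw [← Finset.sum_neg_distrib]
      refine Finset.sum_congr rfl fun i _ => ?_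
      rw [← Finset.sum_neg_distrib]
      refine Finset.sum_congr rfl fun j _ => ?_
      have : τ i + s - τ j = s - (τ j - τ i) := by ring
      rw [this]; ring
    rw [e1, e2, e3] at h
    have e4 : ∑ i, ∑ j, m i * m j *
        (|Real.sin (s - (τ i - τ j))| + |Real.sin (s - (τ j - τ i))|)
        = ∑ i, ∑ j, m i * m j * |Real.sin (s - (τ i - τ j))|
          + ∑ i, ∑ j, m i * m j * |Real.sin (s - (τ j - τ i))| := by
      simp_rw [mul_add, Finset.sum_add_distrib]
    rw [e4]; linarith
  -- integrate
  have hci : ∀ i j, IntervalIntegrable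
      (fun s => m i * m j * (|Real.sin (s - (τ i - τ j))| + |Real.sin (s - (τ j - τ i))|))
      volume 0 Real.pi := by
    intro i j
    apply Continuous.intervalIntegrable
    fun_prop
  have hint : ∫ s in (0 : ℝ)..Real.pi, ∑ i, ∑ j, m i * m j *
      (|Real.sin (s - (τ i - τ j))| + |Real.sin (s - (τ j - τ i))|)
      = ∑ i, ∑ j, m i * m j * 4 := by
    rw [intervalIntegral.integral_finset_sum (f := fun i s => ∑ j, m i * m j *
        (|Real.sin (s - (τ i - τ j))| + |Real.sin (s - (τ j - τ i))|))
      (fun i _ => Continuous.intervalIntegrable (by fun_prop) _ _)]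
    refine Finset.sum_congr rfl fun i _ => ?_
    rw [intervalIntegral.integral_finset_sum (fun j _ => hci i j)]
    refine Finset.sum_congr rfl fun j _ => ?_
    rw [intervalIntegral.integral_const_mul, intervalIntegral.integral_add
      (Continuous.intervalIntegrable (by fun_prop) _ _)
      (Continuous.intervalIntegrable (by fun_prop) _ _),
      integral_abs_sin_sub, integral_abs_sin_sub]
    norm_num
  have hmono : ∫ s in (0 : ℝ)..Real.pi, 2 * ∑ i, ∑ j, m i * m j * |Real.sin (τ i - τ j)|
      ≤ ∫ s in (0 : ℝ)..Real.pi, ∑ i, ∑ j, m i * m j *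
      (|Real.sin (s - (τ i - τ j))| + |Real.sin (s - (τ j - τ i))|) := by
    apply intervalIntegral.integral_mono_on Real.pi_pos.le
    · simp
    · exact Continuous.intervalIntegrable (by fun_prop) _ _
    · intro s _; exact hshift s
  rw [hint] at hmono
  rw [intervalIntegral.integral_const, sub_zero, smul_eq_mul] at hmono
  have hlen : ∑ i, ∑ j, m i * m j * 4 = 4 * (len e) ^ 2 := by
    unfold len
    rw [sq, Finset.sum_mul_sum, Finset.mul_sum]
    refine Finset.sum_congr rfl fun i _ => ?_
    rw [Finset.mul_sum]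
    refine Finset.sum_congr rfl fun j _ => ?_
    simp only [hm]; ring
  rw [hlen] at hmono
  simp_rw [hdet]
  have hpi := Real.pi_pos
  rw [div_mul_eq_mul_div, le_div_iff₀ hpi]
  linarith

end Pool.Agent.Work.MP_655153_lb
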