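import Pool.Agent.Work.MP_655153_lb.Main
import Pool.Agent.Work.MP_655153_lb.ARC
import Pool.Agent.Work.MP_655153_lb.CROSS
import Pool.Agent.Work.MP_655153_lb.ELL
import Pool.Agent.Work.MP_655153_lb.GAPS
import Pool.Agent.Work.MP_655153_lb.GOOD
import Pool.Agent.Work.MP_655153_lb.K
import Pool.Agent.Work.MP_655153_lb.KER
import Pool.Agent.Work.MP_655153_lb.LAY
import Pool.Agent.Work.MP_655153_lb.LEN
import Pool.Agent.Work.MP_655153_lb.LGX
import Pool.Agent.Work.MP_655153_lb.LONG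
import Pool.Agent.Work.MP_655153_lb.LOW
import Pool.Agent.Work.MP_655153_lb.MAJ1
import Pool.Agent.Work.MP_655153_lb.MAJ2
import Pool.Agent.Work.MP_655153_lb.MAJ3
import Pool.Agent.Work.MP_655153_lb.MASS
import Pool.Agent.Work.MP_655153_lb.MU
import Pool.Agent.Work.MP_655153_lb.OM
import Pool.Agent.Work.MP_655153_lb.ONE
import Pool.Agent.Work.MP_655153_lb.OPEN
import Pool.Agent.Work.MP_655153_lb.OUT
import Pool.Agent.Work.MP_655153_lb.PHI
import Pool.Agent.Work.MP_655153_lb.PHI2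
import Pool.Agent.Work.MP_655153_lb.RS
import Pool.Agent.Work.MP_655153_lb.SEG
import Pool.Agent.Work.MP_655153_lb.SHX
import Pool.Agent.Work.MP_655153_lb.SUB
import Pool.Agent.Work.MP_655153_lb.TON
import Pool.Agent.Work.MP_655153_lb.UP
import Pool.Agent.Work.MP_655153_lb.WIDEXC
import Pool.Agent.Work.MP_655153_lb.ZON

/-!
# `L ≥ 3.15`
-/

open Pool.Agent.Work.MP_655153_co

namespace Pool.Agent.Work.MP_655153_lb

theorem lower_bound (n : ℕ) : ENNReal.ofReal 3.15 ≤ detectorConstant n := by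
  have hEXC : Stmt_EXC := blk_EXC blk_MASS
  have hWID : Stmt_WID := blk_WID blk_MASS
  have hPHI : Stmt_PHI := blk_PHI blk_MASS
  have hLOW : Stmt_LOW := blk_LOW blk_KER (blk_PHI2 hPHI) blk_ZON hWID
  have hOUT : Stmt_OUT := blk_OUT blk_MASS
  have hOM : Stmt_OM := blk_OM blk_MASS hEXC stmt_RS
  have hSHX : Stmt_SHX := blk_SHX blk_K blk_LAY (blk_MAJ3 blk_MAJ1 blk_MAJ2)
  have hLGX : Stmt_LGX := blk_LGX blk_LONG
  have hONE : Stmt_ONE := blk_ONE hSHX hLGX stmt_GAPS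
  have hUP : Stmt_UP := blk_UP hONE blk_MU (blk_GOOD blk_MU) blk_OPEN blk_CROSS
    (blk_TON blk_OPEN) hOM blk_LEN hWID
  exact assembly (blk_ARC blk_ELL stmt_SUB) (blk_SEG hLOW hUP hOUT) n

end Pool.Agent.Work.MP_655153_lb
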