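import Pool.Agent.Work.MP_655153_lb.Basic
import Pool.Agent.Work.MP_655153_co.Defs

/-!
# Blueprint: the beam detection constant of the unit circle is at least 3.15

Families of segments `a e : Fin n → ℂ`, lines `(θ, x) = {z | pr θ z = x}`, `M = len e`.
`N = cnt`, `h(θ) = wid e θ = ∫ N(θ, ·)`, `∫_0^π h = 2 M`, `N ≥ 1` on `(-1, 1)` up to measure `ε`
(`Cov`). Waste `W = 2 M - 2 π (+ π ε)`. Two bounds for `DD = ∬ |sin α sin β|` over the pairs of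
points of the family in the disc of radius `1.1`:
* `Stmt_UP`: `DD ≤ 7.75 · (299/99) · W` (rising sun lemma and excursions),
* `Stmt_LOW`: `DD ≥ (5/33) (3 M - (2/π) M² - ...)` (kernel inequality).
For `M < 3.15` they contradict each other.
-/

open MeasureTheory Set
open scoped ENNReal

namespace Pool.Agent.Work.MP_655153_lb

/-! ## Lower bound for `DD` -/

/-- KER. Proof. If `f = 0` or `g = 0` or `v = 0` or `det f g = 0`: left side `≤ 0` (for `v = 0`: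
`phi 0 = -1/6`), right side `≥ 0` (`ker_nonneg`). Otherwise put `X = |det f v|/‖f‖`,
`Y = |det g v|/‖g‖`, `r = ‖v‖ > 0`, `D = |det f g|/(‖f‖‖g‖)`. From the identity
`det f g * v = det f v * g - det g v * f` (check re and im, up to sign) `D r ≤ X + Y`.
`ker f v g = ‖f‖‖g‖ X Y / r²`. (1) `(X + Y) (phi X + phi Y) ≤ X Y` for `X, Y ≥ 0`: for
`X, Y ≤ 1`, with `s = X + Y`: `3 X Y - s (3 phi X + 3 phi Y)
= (1 - s)² (3 X Y - s (s - 1))` (ring), and `3 X Y ≥ s (s - 1)` as `X² ≤ X`, `Y² ≤ Y`. If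
`X > 1` then `phi X = phi 1`, and `X Y/(X + Y)` is increasing in `X`; same for `Y`.
(2) If `phi X + phi Y ≤ 0` the claim is trivial. Else `X + Y > 0` (as `phi 0 + phi 0 < 0`) and
`D (phi X + phi Y) ≤ ((X+Y)/r) (X Y/(X+Y)) = X Y/r ≤ (11/5) X Y/r²` as `r ≤ 11/5`.
Multiply by `‖f‖‖g‖`. -/
def Stmt_KER : Prop := ∀ f g v : ℂ, ‖v‖ ≤ 11 / 5 →
  |det f g| * (phi (|det f v| / ‖f‖) + phi (|det g v| / ‖g‖)) ≤ 11 / 5 * ker f v g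

/-- MASS. Proof. `cnt` is a finite sum of indicators of the compact intervals `Icc (lo) (hi)` of
length `hi - lo = |pr θ (e i)|` (`lo`, `hi` are min, max of `u` and `u + pr θ (e i)`).
`∫ over [x, y]` of the indicator of `Icc l h` (`l ≤ h`) is
`max 0 (min h y - max l x)` (Icc_inter_Icc, Real.volume_Icc). -/
def Stmt_MASS : Prop := ∀ (n : ℕ) (a e : Fin n → ℂ) (θ : ℝ),
  Measurable (cnt a e θ) ∧ Integrable (cnt a e θ) ∧ (∫ x, cnt a e θ x = wid e θ) ∧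
    ∀ x y, x ≤ y → ∫ t in x..y, cnt a e θ t = mass a e θ x y

/-- WID. Uses MASS. Proof. `cnt ≥ 0`, `cnt ≥ 1` where it is not `0`, so
`wid = ∫ cnt ≥ volume {x ∈ (-1,1) | cnt x ≠ 0} ≥ 2 - ε`. -/
def Stmt_WID : Prop := ∀ (n : ℕ) (a e : Fin n → ℂ) (ε : ℝ), 0 ≤ ε → Cov a e ε → ∀ θ,
  2 - ε ≤ wid e θ

/-- EXC. Uses MASS. Proof. `∫ (cnt - 1)^+ = ∫ cnt - volume {x | cnt x ≥ 1} ≤ wid - (2 - ε)`:
pointwise `(cnt - 1)^+ ≤ cnt - 1_(S)`, `S = {x ∈ (-1,1) | cnt x ≠ 0}`, of measure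
`≥ 2 - ε` (`cnt x ≠ 0` implies `cnt x ≥ 1`). -/
def Stmt_EXC : Prop := ∀ (n : ℕ) (a e : Fin n → ℂ) (ε : ℝ), 0 ≤ ε → Cov a e ε → ∀ θ,
  ∫ x, max (cnt a e θ x - 1) 0 ≤ wid e θ - 2 + ε

/-- PHI. Uses MASS, EXC. Proof. (1) Change of variables `x = pr θ (pt j t) = u + t w`
(`w = pr θ (e j)`): `∫_0^1 |w| g(u + t w) dt = ∫_{Icc lo hi} g` (both sides `0` if `w = 0`), with
`g x = phi |x - b|`; the sum over `j` is `∫ g · cnt`. (2) `g ≥ -1/6`, `g ≤ 1/6`: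
`g cnt ≥ 1_(-1,1) g - (1/6) (cnt - 1)^+ - (1/6) 1_{x in (-1,1), cnt x = 0}` pointwise (outside
`(-1,1)`: `g cnt ≥ -(1/6) cnt`!! so use `cnt - 1_(-1,1)` instead of `(cnt-1)^+` there): precisely
`g cnt ≥ 1_(-1,1) g - (1/6)(cnt - 1_(-1,1)) - (1/3) 1_{x in (-1,1), cnt x = 0}` (three cases). So
`∫ g cnt ≥ ∫_{-1}^1 g - (1/6)(wid - 2) - ε/3`. (3) `∫_{-1}^1 phi |x - b| dx
= 1/3 - (1/3) ∫_{-1}^1 ((1 - |x-b|)^+)^3 ≥ 1/3 - (1/3) ∫_{b-1}^{b+1} (1 - |x-b|)^3 = 1/6`. -/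
def Stmt_PHI : Prop := ∀ (n : ℕ) (a e : Fin n → ℂ) (ε θ b : ℝ), 0 ≤ ε → Cov a e ε →
  (3 - wid e θ - 2 * ε) / 6 ≤
    ∑ j, ∫ t in (0 : ℝ)..1, |pr θ (e j)| * phi |pr θ (pt a e j t) - b|

/-- PHI2. Uses PHI. Proof. `f = 0`: both sides `0`. Else `exists_det_eq f` gives `θ` with
`det f v = ‖f‖ pr θ v`; `|det f (e j)| = ‖f‖ |pr θ (e j)|`,
`|det f (pt j t - p)|/‖f‖ = |pr θ (pt j t) - pr θ p|`; multiply PHI (with `b = pr θ p`) by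
`‖f‖`. -/
def Stmt_PHI2 : Prop := ∀ (n : ℕ) (a e : Fin n → ℂ) (ε : ℝ) (p f : ℂ), 0 ≤ ε → Cov a e ε →
  (3 * ‖f‖ - ∑ j, |det f (e j)| - 2 * ε * ‖f‖) / 6 ≤
    ∑ j, ∫ t in (0 : ℝ)..1, |det f (e j)| * phi (|det f (pt a e j t - p)| / ‖f‖)

/-- ZON (isoperimetric inequality for zonogons). Proof. (1) For reals `s_i` and weights `c_i`
with `∑ c_i = 0`: `∑∑ c_i c_j |s_i - s_j| ≤ 0`, as
`|s - t| = ∫ (1[s ≤ c] - 1[t ≤ c])² dc` and hence the sum is `-2 ∫ (∑ c_i 1[s_i ≤ c])² dc`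
(integrate over a large interval). (2) For plane vectors `z_i`: integrate (1) with
`s_i = pr θ z_i` over `θ ∈ [0, π]`: `∑∑ c_i c_j ‖z_i - z_j‖ ≤ 0` (`integral_abs_pr`).
(3) Take unit vectors `z_i = exp (2 i τ_i)`: `‖z_i - z_j‖ = 2 |sin (τ_i - τ_j)|`; so
`∑∑ c_i c_j |sin (τ_i - τ_j)| ≤ 0` if `∑ c_i = 0`. (4) Apply (3) to the `2 n` angles `τ_i`
(weight `m_i = ‖e_i‖`, `e_i = m_i exp (i τ_i)`) and `τ_i + s` (weight `- m_i`):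
`2 g(0) - 2 g(s) ≤ 0` (use also `s → -s` symmetric: the cross terms are
`∑∑ m_i m_j |sin (τ_i - τ_j - s)|` twice), with `g(s) = ∑∑ m_i m_j |sin (τ_i - τ_j - s)|`.
(5) Integrate over `s ∈ [0, π]`: `π g(0) ≤ ∑∑ m_i m_j · 2 = 2 M²`; `g(0) = ∑∑ |det e_i e_j|`. -/
def Stmt_ZON : Prop := ∀ (n : ℕ) (e : Fin n → ℂ),
  ∑ i, ∑ j, |det (e i) (e j)| ≤ 2 / Real.pi * (len e) ^ 2

/-- LEN. Proof: `integral_abs_pr`, sum. -/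
def Stmt_LEN : Prop := ∀ (n : ℕ) (e : Fin n → ℂ),
  ∫ θ in (0 : ℝ)..Real.pi, wid e θ = 2 * len e

/-- OUT. Uses MASS, WID-like estimate, LEN. Proof. For each `θ`:
`∫_{|x| ≥ 1} cnt = wid - ∫_{(-1,1)} cnt ≤ wid - 2 + ε`. By the change of variables of PHI (1)
`∫_{|x| ≥ 1} cnt = ∑_i ∫_0^1 |pr θ (e i)| 1[|pr θ (pt i t)| ≥ 1] dt`. Integrate over
`θ ∈ [0, π]` and exchange (Tonelli): `∑_i ∫_0^1 J_i(t) dt ≤ 2 M - 2 π + π ε`,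
`J_i(t) = ∫_0^π |pr θ (e i)| 1[|pr θ p| ≥ 1] dθ`, `p = pt i t`. If `‖p‖ > 11/10`: write
`pr θ p = ‖p‖ cos (θ - ψ)`; for `|θ - ψ| ≤ 21/50` it is `≥ 1.1 cos 0.42 ≥ 1`
(`cos x ≥ 1 - x²/2`: `1.1 · 0.9118 = 1.00298`). The integrand is `π`-periodic, so
`J ≥ ∫_{ψ-0.42}^{ψ+0.42} |pr θ (e i)| dθ = ‖e i‖ ∫_{m-0.42}^{m+0.42} |sin|
= ‖e i‖ ∫_0^{0.42} (|sin (m+u)| + |sin (m-u)|) du ≥ ‖e i‖ ∫_0^{0.42} sin (2u) du
= ‖e i‖ (1 - cos 0.84)/2 ≥ 0.16 ‖e i‖` (`|sin a| + |sin b| ≥ |sin (a - b)|`;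
`1 - cos x ≥ x²/2 - x⁴/24`: `0.3528 - 0.0208`). -/
def Stmt_OUT : Prop := ∀ (n : ℕ) (a e : Fin n → ℂ) (ε : ℝ), 0 ≤ ε → Cov a e ε →
  4 / 25 * outer a e ≤ 2 * len e - 2 * Real.pi + Real.pi * ε

/-- LOW. Uses KER, PHI2, ZON, WID. Proof. `S_i = {s ∈ [0,1] | ‖pt i s‖ ≤ 11/10}`,
`|S_i|` its measure, `M' = ∑ ‖e i‖ |S_i|`, `M'' = outer`, `M' + M'' = len = M`. For `s ∈ S_i`,
`t ∈ S_j` the distance of the points is `≤ 11/5`, so by KER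
`DD ≥ (5/11) ∑∑ ∫_{S_i} ∫_{S_j} |det e_i e_j| (phi X + phi Y)` with
`X = |det e_i (pt j t - pt i s)|/‖e_i‖`, `Y = |det e_j (pt j t - pt i s)|/‖e_j‖`. By symmetry
(exchange `(i,s)` and `(j,t)`; `|det e_j (p - q)| = |det e_j (q - p)|`) both terms are equal:
`DD ≥ (10/11) J`, `J = ∑_i ∫_{S_i} ∑_j ∫_{S_j} |det e_i e_j| phi X dt ds`. For `s ∈ S_i`,
`∑_j ∫_{S_j} = ∑_j ∫_0^1 - ∑_j ∫_{[0,1] \ S_j}`, the first is `≥` (PHI2 with `f = e_i`,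
`p = pt i s`), the second `≤ (1/6) ∑_j |det e_i e_j| (1 - |S_j|) ≤ (1/6) ‖e_i‖ M''`
(`phi ≤ 1/6`). So `6 J ≥ (3 - 2 ε) M' - ∑_i |S_i| ∑_j |det e_i e_j| - M' M''`. With
`∑_j |det e_i e_j| = ‖e_i‖ wid (θ_i) ≥ (2 - ε) ‖e_i‖` (exists_det_eq, WID):
`∑_i |S_i| ∑_j |det e_i e_j| = ∑_i ∑_j |det e_i e_j| - ∑_i (1 - |S_i|) ∑_j |det e_i e_j|
≤ (2/π) M² - (2 - ε) M''`. Finally `M' M'' ≤ M M''` (`M'' ≥ 0`). Work with real integrals of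
bounded measurable functions; `DD = ofReal (real version)`, `ker` is bounded (`ker_le`). -/
def Stmt_LOW : Prop := ∀ (n : ℕ) (a e : Fin n → ℂ) (ε : ℝ), 0 ≤ ε → Cov a e ε →
  ENNReal.ofReal (5 / 33 * ((3 - 2 * ε) * (len e - outer a e) - 2 / Real.pi * (len e) ^ 2
    + (2 - ε) * outer a e - len e * outer a e)) ≤ DD a e

/-! ## Upper bound for `DD` -/

/-- RS (rising sun, two sides). Proof. It is enough that the right set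
`A = {x | ∃ d > 0, γ d < ∫_x^{x+d} g}` has measure `≤ E/(γ - 1)`, `E = ∫ (g - 1)^+`,
`γ = 199/100` (the left set: reflect, `g (-x)`). `A` is open (the primitive is continuous), so
it is enough to bound `volume K` for compact `K ⊆ A` (inner regularity). `A` is the increasing
union of the open sets `A_δ = {x | ∃ d > δ, ...}`, so `K ⊆ A_δ` for some `δ > 0`. Greedy: `x_1 =
min K`, `y_1 = x_1 + d_1`, `x_2 = min (K ∩ [y_1, ∞))`, ...; each step advances by more than `δ`,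
so it stops; the disjoint intervals `[x_k, y_k)` cover `K` and
`(γ - 1) (y_k - x_k) < ∫_{x_k}^{y_k} (g - 1) ≤ ∫_{x_k}^{y_k} (g - 1)^+`. Sum up. (Formal version
of greedy: show by induction on `m` that for all `u` with `K ⊆ [u, u + m δ]`:
`(γ - 1) volume K ≤ ∫_u^∞ (g - 1)^+`; take `x = min K`, `y = x + d`, `K' = K ∩ [y, ∞)` is compact
in `[y, y + (m-1) δ]`.) -/
def Stmt_RS : Prop := ∀ g : ℝ → ℝ, Measurable g → (∀ x, 0 ≤ g x) → Integrable g →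
  volume {x : ℝ | ∃ d : ℝ, 0 < d ∧ (199 / 100 * d < ∫ y in x..(x + d), g y ∨
    199 / 100 * d < ∫ y in (x - d)..x, g y)} ≤ ENNReal.ofReal (200 / 99 * ∫ x, max (g x - 1) 0)

/-- OM. Uses MASS, EXC, RS. Proof. `A = {x | (θ, x) ∈ Ov}` is the set of RS for `g = cnt`
(MASS). `∫_A cnt ≤ ∫_A (1 + (cnt - 1)^+) ≤ |A| + E ≤ (200/99 + 1) E`, `E ≤ wid - 2 + ε` (EXC). -/
def Stmt_OM : Prop := ∀ (n : ℕ) (a e : Fin n → ℂ) (ε θ : ℝ), 0 ≤ ε → Cov a e ε →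
  ∫⁻ x in {x : ℝ | (θ, x) ∈ Ov a e}, ENNReal.ofReal (cnt a e θ x)
    ≤ ENNReal.ofReal (299 / 99 * (wid e θ - 2 + ε))

/-- OPEN. Proof. `Ov` is a union over `d > 0` of the sets where continuous functions of
`(θ, x)` are positive (`lo`, `hi` are continuous in `θ`). PER: `lo (θ + π) = - hi θ`,
`hi (θ + π) = - lo θ`, so `mass (θ + π) (-y) (-x) = mass θ x y`. -/
def Stmt_OPEN : Prop := ∀ (n : ℕ) (a e : Fin n → ℂ), IsOpen (Ov a e) ∧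
  ∀ θ x : ℝ, (θ, x) ∈ Ov a e ↔ (θ + Real.pi, -x) ∈ Ov a e

/-- CROSS. Proof. `v = pt j t - pt i s`. `ker ≠ 0` gives `v ≠ 0` and, by `ker_eq`,
`pr θ (e i) ≠ 0`, `pr θ (e j) ≠ 0`. `i ≠ j`: else `v = (t - s) e_i` and `det (e i) v = 0`. The
number `x = pr θ (pt i s) = pr θ (pt j t)` lies in the open intervals `(lo i, hi i)` and
`(lo j, hi j)` (as `0 < s, t < 1`), so for small `d > 0` both summands `i`, `j` of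
`mass θ x (x + d)` are `d` and all others are `≥ 0`: `mass ≥ 2 d > 1.99 d`. -/
def Stmt_CROSS : Prop := ∀ (n : ℕ) (a e : Fin n → ℂ) (i j : Fin n) (s t : ℝ),
  s ∈ Ioo (0 : ℝ) 1 → t ∈ Ioo (0 : ℝ) 1 → ker (e i) (pt a e j t - pt a e i s) (e j) ≠ 0 →
  ∀ θ, pr θ (pt a e j t - pt a e i s) = 0 → (θ, pr θ (pt a e i s)) ∈ Ov a e

/-- MU. Proof. `lintegral` of a finite sum of measures and of `Measure.map` of a continuous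
map. Third item: the set `R = ⋃ j, (fun t => (pt j t, e j)) '' Ioo 0 1` is measurable (`Ioo 0 1`
is a countable union of compact intervals, the images are compact) and `mu Rᶜ = 0` (the
preimage of `Rᶜ` in `Icc 0 1` is contained in `{0, 1}`). -/
def Stmt_MU : Prop := ∀ (n : ℕ) (a e : Fin n → ℂ),
  IsFiniteMeasure (mu a e) ∧
  (∀ F : ℂ × ℂ → ℝ≥0∞, Measurable F →
    ∫⁻ z, F z ∂(mu a e) = ∑ j, ∫⁻ t in Icc (0 : ℝ) 1, F (pt a e j t, e j)) ∧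
  (∀ P : ℂ × ℂ → Prop, (∀ j, ∀ t ∈ Ioo (0 : ℝ) 1, P (pt a e j t, e j)) →
    ∀ᵐ z ∂(mu a e), P z) ∧
  ∫⁻ z, ENNReal.ofReal ‖z.2‖ ∂(mu a e) = ENNReal.ofReal (len e)

/-- GOOD. Uses MU, MASS. Proof. By MU the left side is
`∑ j, ∫⁻ t in Icc 0 1, indicator (pr θ (pt j t - p) ∈ Ioc 0 d) · |pr θ (e j)|`, which by the
change of variables `x = pr θ (pt j t)` is `∑ j, volume (Icc (lo j) (hi j) ∩ Ioc x0 (x0 + d))
= mass θ x0 (x0 + d)`, `x0 = pr θ p`; it is `≤ 1.99 d` as `(θ, x0) ∉ Ov` (`d = 0`: both `0`).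
The same on the left. -/
def Stmt_GOOD : Prop := ∀ (n : ℕ) (a e : Fin n → ℂ) (p : ℂ) (θ : ℝ),
  (θ, pr θ p) ∉ Ov a e → Good (mu a e) p θ

/-- TON. Uses OPEN. Proof. Tonelli (everything is measurable: `Ov` open) and for each `θ` the
change of variables `x = pr θ (pt i s)`:
`∫⁻ s in Icc 0 1, 1_A (pr θ (pt i s)) |pr θ (e i)| = ∫⁻ x in Icc (lo i) (hi i), 1_A x`. -/
def Stmt_TON : Prop := ∀ (n : ℕ) (a e : Fin n → ℂ),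
  ∑ i, ∫⁻ s in Icc (0 : ℝ) 1, ∫⁻ θ in Ioc 0 Real.pi,
    (Ov a e).indicator (fun _ => (1 : ℝ≥0∞)) (θ, pr θ (pt a e i s))
      * ENNReal.ofReal |pr θ (e i)|
  = ∫⁻ θ in Ioc 0 Real.pi, ∫⁻ x in {x : ℝ | (θ, x) ∈ Ov a e}, ENNReal.ofReal (cnt a e θ x)

/-- K. Proof. Let `B = {z | ‖z.1‖ ≤ 1.1, pr s (z.1 - p) * pr t (z.1 - p) < 0}`, `B⁺`, `B⁻` the
parts with `pr s (z.1 - p) > 0`, `< 0`. For `z ∈ B⁺`, `z' ∈ B⁻` the vector `v = z.1 - z'.1` has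
`‖v‖ ≤ 2.2`, `pr s v > 0`, `pr t v < 0`, so `pr τ v = 0` for some `τ` between `s` and `t` and
`pr s v = pr s v - pr τ v ≤ 2.2 |t - s|` (`abs_pr_sub_le`). The same for `v = z.1 - p`. So with
`D = sup_{B⁺} pr s (z.1 - p)`, `D' = sup_{B⁻} - pr s (z.1 - p)` (`0` if empty):
`D + D' ≤ 2.2 |t - s|`; `B⁺ ⊆ {pr s (z.1 - p) ∈ Ioc 0 D}`, `B⁻ ⊆ {... ∈ Ico (-D') 0}` and
`Good` gives `≤ 1.99 D + 1.99 D' ≤ 4.378 |t - s|`. -/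
def Stmt_K : Prop := ∀ (μ : Measure (ℂ × ℂ)) (p : ℂ) (s t : ℝ), ‖p‖ ≤ 11 / 10 → Good μ p s →
  ∫⁻ z in {z : ℂ × ℂ | ‖z.1‖ ≤ 11 / 10 ∧ pr s (z.1 - p) * pr t (z.1 - p) < 0},
    ENNReal.ofReal |pr s z.2| ∂μ ≤ ENNReal.ofReal (2189 / 500 * |t - s|)

/-- LAY. Proof. Layer cake (`lintegral_eq_lintegral_meas_lt` or
`lintegral_comp_eq...`): both sides are integrals over `λ > 0` of `κ (U_λ)` and
`C · volume (U_λ)`, `U_λ = {t ∈ Ioo 0 T | Ψ t > λ}`. `U_λ` is an initial part of `Ioo 0 T`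
(`Ψ` antitone): with `b = sup U_λ`, `Ioo 0 b ⊆ U_λ ⊆ Ioc 0 b`; if `b < T`,
`κ (Ioc 0 b) ≤ inf_{b < t ≤ T} κ (Ioo 0 t) ≤ C b`; if `b = T`, `U_λ ⊆ Ioo 0 T`. -/
def Stmt_LAY : Prop := ∀ (κ : Measure ℝ) (C T : ℝ) (Ψ : ℝ → ℝ), 0 ≤ C → 0 < T →
  (∀ t ∈ Ioc 0 T, κ (Ioo 0 t) ≤ ENNReal.ofReal (C * t)) → AntitoneOn Ψ (Icc 0 T) →
  (∀ t ∈ Icc 0 T, 0 ≤ Ψ t) →
  ∫⁻ t in Ioo 0 T, ENNReal.ofReal (Ψ t) ∂κ
    ≤ ENNReal.ofReal C * ∫⁻ t in Ioo 0 T, ENNReal.ofReal (Ψ t)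

/-- majorants of `(T - t) ω(t)` and `t ω(t)` with small integral -/
def Maj (ω : ℝ → ℝ) (T : ℝ) : Prop := ∃ Ψ₁ Ψ₂ : ℝ → ℝ,
  AntitoneOn Ψ₁ (Icc 0 T) ∧ MonotoneOn Ψ₂ (Icc 0 T) ∧
  (∀ t ∈ Icc 0 T, (T - t) * ω t ≤ Ψ₁ t ∧ t * ω t ≤ Ψ₂ t) ∧
  (∫⁻ t in Ioo 0 T, ENNReal.ofReal (Ψ₁ t)) + (∫⁻ t in Ioo 0 T, ENNReal.ofReal (Ψ₂ t))
    ≤ ENNReal.ofReal (7 / 4 * Real.sin T * ∫ t in (0 : ℝ)..T, ω t)

/-- MAJ1. Proof. `Ψ₁ t = ((T - t + |t - c|)/2)²`, `Ψ₂ t = ((t + |t - c|)/2)²` (monotone as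
`|t - c|` is 1-Lipschitz and the brackets are `≥ 0`; AM-GM and `|sin x| ≤ |x|`).
`∫_0^T Ψ₁ = ∫_0^c ((T + c)/2 - t)² + (T - c) ((T - c)/2)²
= (((T + c)/2)³ - ((T - c)/2)³)/3 + (T - c)³/4`,
`∫_0^T Ψ₂ = c (c/2)² + ∫_c^T (t - c/2)² = c³/4 + ((T - c/2)³ - (c/2)³)/3`; the sum is
`(7/12) T³ - c (T - c) T`. `∫_0^T |sin (t - c)| = 2 - cos c - cos (T - c)
≥ (c² + (T-c)²)/2 - (c⁴ + (T-c)⁴)/24`, `sin T ≥ T - T³/6`. Remains, with `u = c (T - c)`,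
`0 ≤ u ≤ T²/4`, `T² ≤ 1.0816`: `(7/12) T² - u ≤ (7/4) (1 - T²/6) ((T² - 2 u)/2
- (T⁴ - 4 u T² + 2 u²)/24)`: true with room (worst ratio 1.665 instead of 1.75, at `u = T²/4`,
`T = 1.04`). -/
def Stmt_MAJ1 : Prop := ∀ c T : ℝ, 0 < T → T ≤ 26 / 25 → 0 ≤ c → c ≤ T →
  Maj (fun t => |Real.sin (t - c)|) T

/-- MAJ2. Proof. Here `0 ≤ t + d ≤ (π + T)/2 < π`, so `ω(t) = sin (t + d)`.
(1) `ω(t) ≥ sin t ≥ t - t³/6 ≥ (4/5) t`, as `sin (t+d) - sin t = 2 cos (t + d/2) sin (d/2)` and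
`t + d/2 ≤ (π + 3 T)/4 ≤ π/2` (`T ≤ 1.04 < π/3`). (2) `Ψ₂ t = t ω(t)` is monotone:
derivative `sin (t + d) + t cos (t + d) ≥ 0`: clear if `t + d ≤ π/2`; else, with
`y = t + d - π/2 ∈ [0, T/2]`, it is `cos y - t sin y ≥ (1 - y²/2) - 1.04 y > 0` for
`y ≤ 0.52`. (3) `Ψ₁ t = (T - t) ω(t) + ((T - (9/5) t)^+)²/(18/5)` is antitone: derivative
`- ω + (T - t) cos (t + d) - (T - (9/5) t)^+ ≤ - (4/5) t + (T - t) - (T - (9/5) t) = 0` (if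
`cos (t + d) ≥ 0`; else clear). (4) `∫ Ψ₁ + ∫ Ψ₂ = T I + T³/(3 · (9/5) · (18/5))`,
`I = ∫_0^T ω ≥ ∫_0^T (4/5) t = (2/5) T²`; better `I ≥ 1 - cos T ≥ T²/2 - T⁴/24 ≥ (9/20) T²`, so
the sum is `≤ T I (1 + 1/(19.44 · 0.45)) ≤ 1.1144 T I` and
`1.1144 T ≤ (7/4) (T - T³/6) ≤ (7/4) sin T`. -/
def Stmt_MAJ2 : Prop := ∀ d T : ℝ, 0 < T → T ≤ 26 / 25 → 0 ≤ d → 2 * d ≤ Real.pi - T →
  Maj (fun t => |Real.sin (t + d)|) T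

/-- MAJ3. Uses MAJ1, MAJ2. Proof. `|sin (t - c)|` is `π`-periodic in `c`: take `c ∈ [0, π)`. If
`c ≤ T`: MAJ1. If `T < c < π`: `d₁ = π - c > 0` (zero at `t = c - π = - d₁`) and
`d₂ = c - T > 0`, `d₁ + d₂ = π - T`. If `2 d₁ ≤ π - T`: MAJ2 with `d = d₁`
(`|sin (t - c)| = |sin (t + d₁)|`). Else `2 d₂ ≤ π - T` and `ω(T - t) = |sin (T - t - c)|
= |sin (t + d₂)|`: MAJ2 with `d = d₂` and the reflection `t ↦ T - t`, which exchanges the roles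
of `Ψ₁`, `Ψ₂`. -/
def Stmt_MAJ3 : Prop := ∀ c T : ℝ, 0 < T → T ≤ 26 / 25 → Maj (fun t => |Real.sin (t - c)|) T

/-- LONG. Proof. Put `L = 26/25`. (1) Claim: if `0 ≤ δ ≤ π/2` and `x ≤ δ ≤ x + L` then
`sin δ ≤ 2.46 ∫_x^{x+L} |sin|`. If `x ≤ 0`, put `q = x + L ∈ [δ, L]`; the integral is
`(1 - cos (L - q)) + (1 - cos q) ≥ (q² + (L-q)²)/2 - (q⁴ + (L-q)⁴)/24`, and `sin δ ≤ sin q ≤ q`;
the polynomial inequality `q ≤ 2.46 (...)` holds on `[0, 1.04]` (worst near `q = 0.76`: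
`0.760 ≤ 0.772`). If `x ≥ 0` (`x ≤ δ ≤ π/2`, `x + L < π`) the integral is
`cos x - cos (x + L) = 2 sin (L/2) sin (x + L/2)`, `sin (x + L/2) ≥ sin (L/2)` (as
`L/2 ≤ x + L/2 ≤ π - L/2`) and `2.46 · 2 (sin 0.52)² ≥ 1 ≥ 1 · sin δ`
(`sin 0.52 ≥ 0.52 - 0.52³/6 = 0.4965`). (2) General case: choose `y ≤ t ≤ y + L` with
`[y, y + L] ⊆ [0, T]`; `∫_0^T ≥ ∫_y^{y+L}`. Let `z₀ = c + k π` be the zero of `sin (· - c)`
nearest to `t`: `|t - z₀| ≤ π/2`. If `t ≥ z₀`: (1) with `δ = t - z₀`, `x = y - z₀`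
(`|sin (· - c)| = |sin (· - z₀)|`, shift). If `t < z₀`: reflect: `δ = z₀ - t`,
`x = z₀ - (y + L)`. -/
def Stmt_LONG : Prop := ∀ c T : ℝ, 26 / 25 ≤ T → ∀ t ∈ Icc 0 T,
  |Real.sin (t - c)| ≤ 123 / 50 * ∫ x in (0 : ℝ)..T, |Real.sin (x - c)|

/-- SHX (short excursion). Uses K, LAY, MAJ3. Proof. `|pr (s + t) f| = |sin (t - c)| =: ω(t)`
(`exists_polar`). `Q` = the set of `z` in the integral, `v = z.1 - p`. For `z ∈ Q` there is a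
unique `t(z) ∈ (0, T)` with `pr (s + t(z)) v = 0` (`exists_zero`; unique as `T < π`:
`pr (s+t) v = ‖v‖ sin (t - c')`); it is measurable: for `τ ∈ (0, T]`,
`t(z) < τ ↔ pr s v * pr (s + τ) v < 0`. By `ker_eq` and `pr_comb`:
`sin T · ker f v z.2 = ω(t) sin T |pr (s + t) z.2| ≤ ω(t) (T - t) |pr s z.2|
+ ω(t) t |pr (s + T) z.2| ≤ Ψ₁(t) |pr s z.2| + Ψ₂(t) |pr (s + T) z.2|`
(`sin (T - t) ≤ T - t`, `sin t ≤ t`). Let `κ₁` be the image under `t(z)` of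
`|pr s z.2| μ` restricted to `Q`: `κ₁ (Ioo 0 τ) = ∫ over {‖z.1‖ ≤ 1.1, pr s v * pr (s+τ) v < 0}
≤ 4.378 τ` by K. By LAY `∫ Ψ₁(t(z)) |pr s z.2| ≤ 4.378 ∫_0^T Ψ₁`. In the same way with
`T - t(z)` and `κ₂` from `|pr (s + T) z.2| μ` (K at the angle `s + T`, going back) and the
antitone function `t ↦ Ψ₂ (T - t)`. Sum: `sin T · U ≤ 4.378 · (7/4) sin T ∫ ω`, and
`4.378 · 7/4 = 7.6615 ≤ 7.75`. (Formula: `t(z) = arccos (- sign (pr s v) * pr (s + π/2) v / ‖v‖)`.) -/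
def Stmt_SHX : Prop := ∀ (μ : Measure (ℂ × ℂ)) (p f : ℂ) (s T : ℝ), ‖p‖ ≤ 11 / 10 → ‖f‖ = 1 →
  0 < T → T ≤ 26 / 25 → Good μ p s → Good μ p (s + T) →
  ∫⁻ z in {z : ℂ × ℂ | ‖z.1‖ ≤ 11 / 10 ∧ pr s (z.1 - p) * pr (s + T) (z.1 - p) < 0},
    ENNReal.ofReal (ker f (z.1 - p) z.2) ∂μ
    ≤ ENNReal.ofReal (31 / 4 * ∫ θ in s..(s + T), |pr θ f|)

/-- LGX (long excursion). Uses LONG. Proof. For `z` in the set there is `θ ∈ (s, s + T)` with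
`pr θ (z.1 - p) = 0` (`exists_zero`), so (`ker_eq`) `ker f v z.2 = |pr θ f| |pr θ z.2|
≤ |pr θ f| ‖z.2‖ ≤ 2.46 (∫ |pr · f|) ‖z.2‖` (LONG; `exists_polar`). Integrate:
`2.46 · 3.15 = 7.749 ≤ 7.75`. -/
def Stmt_LGX : Prop := ∀ (μ : Measure (ℂ × ℂ)) (p f : ℂ) (s T : ℝ), ‖f‖ = 1 → 26 / 25 ≤ T →
  ∫⁻ z, ENNReal.ofReal ‖z.2‖ ∂μ ≤ ENNReal.ofReal (63 / 20) →
  ∫⁻ z in {z : ℂ × ℂ | ‖z.1‖ ≤ 11 / 10 ∧ pr s (z.1 - p) * pr (s + T) (z.1 - p) < 0},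
    ENNReal.ofReal (ker f (z.1 - p) z.2) ∂μ
    ≤ ENNReal.ofReal (31 / 4 * ∫ θ in s..(s + T), |pr θ f|)

/-- GAPS. Proof. For `θ ∈ E = Ioo s0 (s0 + L) \ G` put `c(θ) = (sSup (G ∩ Iic θ),
sInf (G ∩ Ici θ))`; these are in `G` (closed), `c.1 < θ < c.2`, `Ioo c.1 c.2` misses `G`, and
`s0 ≤ c.1`, `c.2 ≤ s0 + L`. Take `𝒞 = c '' (rationals in E)`: each `Ioo c.1 c.2` contains a
rational `r` with `c(r) = c`. Two different such pairs have disjoint intervals. -/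
def Stmt_GAPS : Prop := ∀ (G : Set ℝ) (s0 L : ℝ), 0 < L → IsClosed G → s0 ∈ G → s0 + L ∈ G →
  ∃ C : Set (ℝ × ℝ), C.Countable ∧
    (∀ c ∈ C, s0 ≤ c.1 ∧ c.1 < c.2 ∧ c.2 ≤ s0 + L ∧ c.1 ∈ G ∧ c.2 ∈ G ∧
      Disjoint (Ioo c.1 c.2) G) ∧
    (∀ c ∈ C, ∀ c' ∈ C, c ≠ c' → Disjoint (Ioo c.1 c.2) (Ioo c'.1 c'.2)) ∧
    Ioo s0 (s0 + L) \ G = ⋃ c ∈ C, Ioo c.1 c.2

/-- ONE (one point). Uses SHX, LGX, GAPS. Proof. `f = 0`: `ker = 0`. By homogeneity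
(`ker_smul_left`, `pr_smul`) assume `‖f‖ = 1`. If `G = ∅`: `ker ≤ ‖z.2‖` (`ker_le`), the left
side is `≤ 3.15 ≤ 7.75 · 2 = 7.75 ∫_0^π |pr θ f|`. If `s0 ∈ G`: `s0 + π ∈ G`; GAPS with
`L = π` gives the countable family `C` of gaps. For almost every `z` with `‖z.1‖ ≤ 1.1`,
`ker ≠ 0`: `v = z.1 - p ≠ 0` and there is `θ ∈ (s0, s0 + π]` with `pr θ v = 0`; `θ ∉ G`, so
`θ ≠ s0 + π`, `θ ∈ Ioo c.1 c.2` for some `c ∈ C` and, as `pr · v = ‖v‖ sin (· - θ)` (up to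
sign) has only the zero `θ` in `[c.1, c.2] ⊆ [s0, s0 + π]` (the ends are in `G`, hence not
`≡ θ mod π` by hypothesis; note that `c.1`, `c.2` are not zeros by hypothesis), it changes sign:
`pr c.1 v * pr c.2 v < 0`. So the left side is at most
`∑_{c ∈ C} ∫⁻ over {‖z.1‖ ≤ 1.1, pr c.1 v * pr c.2 v < 0}` of `ker`, each
`≤ 7.75 ∫_{c.1}^{c.2} |pr θ f|` by SHX or LGX, and the sum is
`7.75 ∫ over Ioo s0 (s0 + π) \ G` (disjoint union), which by `π`-periodicity of `G` and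
`|pr θ f|` is the integral over `Ioc 0 π \ G`. -/
def Stmt_ONE : Prop := ∀ (μ : Measure (ℂ × ℂ)) (p f : ℂ) (G : Set ℝ), ‖p‖ ≤ 11 / 10 →
  ∫⁻ z, ENNReal.ofReal ‖z.2‖ ∂μ ≤ ENNReal.ofReal (63 / 20) →
  IsClosed G → (∀ θ, θ ∈ G ↔ θ + Real.pi ∈ G) → (∀ θ ∈ G, Good μ p θ) →
  (∀ᵐ z ∂μ, ‖z.1‖ ≤ 11 / 10 → ker f (z.1 - p) z.2 ≠ 0 → ∀ θ, pr θ (z.1 - p) = 0 → θ ∉ G) →
  ∫⁻ z in {z : ℂ × ℂ | ‖z.1‖ ≤ 11 / 10}, ENNReal.ofReal (ker f (z.1 - p) z.2) ∂μ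
    ≤ ENNReal.ofReal (31 / 4) *
      ∫⁻ θ in Ioc 0 Real.pi, Gᶜ.indicator (fun _ => (1 : ℝ≥0∞)) θ * ENNReal.ofReal |pr θ f|

/-- UP. Uses ONE, MU, GOOD, OPEN, CROSS, TON, OM, LEN. Proof. For `s ∈ (0, 1)` with
`‖pt i s‖ ≤ 1.1` apply ONE with `μ = mu a e`, `p = pt i s`, `f = e i`,
`G = {θ | (θ, pr θ p) ∉ Ov}` (closed and `π`-periodic by OPEN and `pr (θ+π) p = - pr θ p`; GOOD;
the almost-everywhere condition by MU and CROSS):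
`∑_j ∫⁻_{t ∈ S_j} ker (e i) (pt j t - pt i s) (e j) ≤ 7.75 ∫⁻_0^π 1[(θ, pr θ (pt i s)) ∈ Ov]
|pr θ (e i)|`. Sum over `i`, integrate over `s` (all of `[0,1]` on the right), TON, OM, and
`∫_0^π (wid - 2 + ε) = 2 len - 2 π + π ε` (LEN; `wid - 2 + ε ≥ 0` by WID). -/
def Stmt_UP : Prop := ∀ (n : ℕ) (a e : Fin n → ℂ) (ε : ℝ), 0 ≤ ε → Cov a e ε →
  len e ≤ 63 / 20 →
  DD a e ≤ ENNReal.ofReal (31 / 4 * (299 / 99) * (2 * len e - 2 * Real.pi + Real.pi * ε))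

/-- SEG. Uses LOW, UP, OUT. Proof. Suppose `M = len e < 63/20`, `ε = 10⁻⁵`,
`m = outer ≤ (2 M - 2 π + π ε)/0.16`, `0 ≤ m`. LOW and UP give (if the LOW expression is positive)
`(5/33) ((3 - 2 ε)(M - m) - (2/π) M² + (2 - ε) m - M m) ≤ 7.75 (299/99) (2 M - 2 π + π ε)`.
At `M = 3.15`: left `≥ 0.408`, right `≤ 0.395`; the difference left - right decreases in `M`
(`2/π M² ≤ 2/π · 3.15 M`). `π` between `3.141592` and `3.141593`. -/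
def Stmt_SEG : Prop := ∀ (n : ℕ) (a e : Fin n → ℂ), Cov a e (1 / 100000) → 63 / 20 ≤ len e

/-! ## From arcs to segments -/

open Pool.Agent.Work.MP_655153_co

/-- ELL. Proof. Let `u = pr θ`, `u' = pr (θ + π/2)` (orthonormal coordinates). Suppose
`u S > max (u P) (u Q)`, `h = u S - max`, `α = |u P - u Q|`, `β = |u' Q - u' P|`. Then
`‖S - P‖ + ‖Q - S‖ ≥ ‖((u S - u P) + (u S - u Q), u' Q - u' P)‖` (triangle inequality for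
`(u S - u P, u' S - u' P)` and `(u S - u Q, u' Q - u' S)`)
`= √((2 h + α)² + β²)`, so `4 h² ≤ (2h + α)² - α² ≤ ℓ² - α² - β² = ℓ² - ‖Q - P‖²`. The lower
bound: the same with `- u`. -/
def Stmt_ELL : Prop := ∀ (P Q S : ℂ) (ℓ θ : ℝ), ‖S - P‖ + ‖Q - S‖ ≤ ℓ →
  pr θ S ≤ max (pr θ P) (pr θ Q) + √(ℓ ^ 2 - ‖Q - P‖ ^ 2) / 2 ∧
  min (pr θ P) (pr θ Q) - √(ℓ ^ 2 - ‖Q - P‖ ^ 2) / 2 ≤ pr θ S

/-- SUB (subdivision). Proof. `V = (eVariationOn γ (Icc a b)).toReal`. For `δ > 0` there is a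
finite monotone sequence in `[a, b]` with polygon length `≥ V - δ` (definition of
`eVariationOn`); add the end points, get `t 0 = a ≤ ... ≤ t m = b` with
`∑ c_k ≥ V - δ`, `c_k = ‖γ(t (k+1)) - γ(t k)‖`. `ℓ_k` = variation on `[t k, t (k+1)]`,
`∑ ℓ_k = V` (`eVariationOn.Icc_add_Icc`), `c_k ≤ ℓ_k`. Cauchy-Schwarz:
`∑ √(ℓ_k² - c_k²) = ∑ √(ℓ_k - c_k) √(ℓ_k + c_k) ≤ √(∑ (ℓ_k - c_k)) √(∑ (ℓ_k + c_k))
≤ √(δ · 2 V)`. Choose `δ` with `2 V δ ≤ η²`. -/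
def Stmt_SUB : Prop := ∀ (γ : ℝ → ℂ) (a b η : ℝ), a < b → 0 < η →
  eVariationOn γ (Icc a b) ≠ ⊤ →
  ∃ (m : ℕ) (t : ℕ → ℝ), Monotone t ∧ t 0 = a ∧ t m = b ∧
    ∑ k ∈ Finset.range m, √((eVariationOn γ (Icc (t k) (t (k + 1)))).toReal ^ 2
      - ‖γ (t (k + 1)) - γ (t k)‖ ^ 2) ≤ η ∧
    ∑ k ∈ Finset.range m, ‖γ (t (k + 1)) - γ (t k)‖ ≤ (eVariationOn γ (Icc a b)).toReal

/-- ARC. Uses ELL, SUB. Proof. Apply SUB to each arc with `η = ε/(n + 1)`; the segments are the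
chords of all pieces of all arcs (reindex a finite type by `Fin m`; `a = γ(t k)`,
`e = γ(t (k+1)) - γ(t k)`). Length: SUB. Covering: let `|x| < 1` and suppose the line
`{z | pr θ z = x}` misses all chords. The line (an affine subspace of dimension 1) meets the
circle, so it contains a point `S = γ(r)` of some arc, `r ∈ [t k, t (k+1)]`. By ELL (with
`ℓ` = variation on the piece, `≥ ‖γ r - γ (t k)‖ + ‖γ (t (k+1)) - γ r‖`), `x` is within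
`√(ℓ² - c²)/2` of the interval `[lo, hi]` of the chord and not in it. So the bad `x` lie in a
union of intervals of total length `∑ √(ℓ² - c²) ≤ n η ≤ ε`. -/
def Stmt_ARC : Prop := ∀ (n : ℕ) (A : Fin n → PlaneArc), IsBeamDetector (⋃ i, (A i).carrier) →
  ∑ i, (A i).length ≠ ⊤ → ∀ ε : ℝ, 0 < ε →
  ∃ (m : ℕ) (a e : Fin m → ℂ), Cov a e ε ∧
    ENNReal.ofReal (len e) ≤ ∑ i, (A i).length

end Pool.Agent.Work.MP_655153_lb
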