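import Pool.Agent.Work.MP_655153_lb.Interface

/-!
# Block LONG
-/

open MeasureTheory Set

namespace Pool.Agent.Work.MP_655153_lb

namespace LONG

/-- `x - x³/6 ≤ sin x` for `x ≥ 0` -/
theorem sub_cube_le_sin {x : ℝ} (hx : 0 ≤ x) : x - x ^ 3 / 6 ≤ Real.sin x := by
  have hd : ∀ y : ℝ, HasDerivAt (fun y : ℝ => Real.sin y - y + y ^ 3 / 6)
      (Real.cos y - 1 + 3 * y ^ 2 / 6) y := by
    intro y
    have h1 := (Real.hasDerivAt_sin y).sub (hasDerivAt_id y)
    have h2 := ((hasDerivAt_pow 3 y).div_const 6)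
    have h3 := h1.add h2
    refine h3.congr_deriv ?_
    norm_num
  have hm : Monotone (fun y : ℝ => Real.sin y - y + y ^ 3 / 6) := by
    apply monotone_of_deriv_nonneg
    · exact fun y => (hd y).differentiableAt
    · intro y
      rw [(hd y).deriv]
      have := Real.one_sub_sq_div_two_le_cos (x := y)
      linarith
  have := hm hx
  simp only [Real.sin_zero] at this
  linarith

/-- `cos x ≤ 1 - x²/2 + x⁴/24` -/
theorem cos_le_quartic {x : ℝ} (hx : 0 ≤ x) : Real.cos x ≤ 1 - x ^ 2 / 2 + x ^ 4 / 24 := by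
  have hd : ∀ y : ℝ, HasDerivAt (fun y : ℝ => 1 - y ^ 2 / 2 + y ^ 4 / 24 - Real.cos y)
      (- y + y ^ 3 / 6 + Real.sin y) y := by
    intro y
    have h0 : HasDerivAt (fun y : ℝ => (1 : ℝ) - y ^ 2 / 2) (0 - (((2 : ℕ) : ℝ) * y ^ (2 - 1)) / 2) y :=
      (hasDerivAt_const y (1 : ℝ)).sub ((hasDerivAt_pow 2 y).div_const 2)
    have h2 := ((hasDerivAt_pow 4 y).div_const 24)
    have h3 := (h0.add h2).sub (Real.hasDerivAt_cos y)
    refine h3.congr_deriv ?_
    norm_num
    ring
  have hm : MonotoneOn (fun y : ℝ => 1 - y ^ 2 / 2 + y ^ 4 / 24 - Real.cos y) (Ici 0) := by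
    apply monotoneOn_of_deriv_nonneg (convex_Ici 0)
    · exact fun y _ => (hd y).continuousAt.continuousWithinAt
    · exact fun y _ => (hd y).differentiableAt.differentiableWithinAt
    · intro y hy
      rw [interior_Ici] at hy
      rw [(hd y).deriv]
      have := sub_cube_le_sin (le_of_lt hy)
      linarith
  have := hm (mem_Ici.2 le_rfl) (mem_Ici.2 hx) hx
  simp only [Real.cos_zero] at this
  linarith

theorem intble (a b : ℝ) : IntervalIntegrable (fun s : ℝ => |Real.sin s|) volume a b :=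
  (Real.continuous_sin.abs).intervalIntegrable a b

/-- the polynomial inequality -/
theorem poly {q : ℝ} (h0 : 0 ≤ q) (h1 : q ≤ 26 / 25) :
    q ≤ 123 / 50 * ((q ^ 2 + (26 / 25 - q) ^ 2) / 2 - (q ^ 4 + (26 / 25 - q) ^ 4) / 24) := by
  obtain ⟨u, hu⟩ : ∃ u : ℝ, u = q * (26 / 25 - q) := ⟨_, rfl⟩
  have hu0 : 0 ≤ u := by rw [hu]; exact mul_nonneg h0 (by linarith)
  have hu1 : u ≤ 169 / 625 := by rw [hu]; nlinarith [sq_nonneg (q - 13 / 25)]
  have e1 : (q ^ 2 + (26 / 25 - q) ^ 2) / 2 - (q ^ 4 + (26 / 25 - q) ^ 4) / 24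
      = (26 / 25) ^ 2 / 2 - (26 / 25) ^ 4 / 24 - u * (1 - (26 / 25) ^ 2 / 6) - u ^ 2 / 12 := by
    rw [hu]; ring
  rw [e1]
  have e2 : u ^ 2 ≤ 169 / 625 * u := by nlinarith
  have e3 : u = 26 / 25 * q - q ^ 2 := by rw [hu]; ring
  nlinarith [sq_nonneg (q - 19 / 25), e2, e3]

theorem claim {δ x : ℝ} (hδ0 : 0 ≤ δ) (hδ : δ ≤ Real.pi / 2) (hx : x ≤ δ)
    (hx' : δ ≤ x + 26 / 25) :
    Real.sin δ ≤ 123 / 50 * ∫ s in x..(x + 26 / 25), |Real.sin s| := by
  have hpi := Real.pi_gt_three
  rcases le_total x 0 with h | h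
  · -- the interval contains `0`
    have hq0 : 0 ≤ x + 26 / 25 := le_trans hδ0 hx'
    have hI : ∫ s in x..(x + 26 / 25), |Real.sin s| = (1 - Real.cos (26 / 25 - (x + 26 / 25)))
        + (1 - Real.cos (x + 26 / 25)) := by
      rw [← intervalIntegral.integral_add_adjacent_intervals (intble x 0) (intble 0 _)]
      have hA : ∫ s in x..0, |Real.sin s| = ∫ s in x..0, - Real.sin s := by
        apply intervalIntegral.integral_congr
        intro s hs
        rw [uIcc_of_le h] at hs
        exact abs_of_nonpos (Real.sin_nonpos_of_nonpos_of_neg_pi_le hs.2 (by linarith [hs.1]))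
      have hB : ∫ s in (0 : ℝ)..(x + 26 / 25), |Real.sin s|
          = ∫ s in (0 : ℝ)..(x + 26 / 25), Real.sin s := by
        apply intervalIntegral.integral_congr
        intro s hs
        rw [uIcc_of_le hq0] at hs
        exact abs_of_nonneg (Real.sin_nonneg_of_nonneg_of_le_pi hs.1 (by linarith [hs.2]))
      rw [hA, hB, intervalIntegral.integral_neg, integral_sin, integral_sin]
      have : Real.cos (26 / 25 - (x + 26 / 25)) = Real.cos x := by
        rw [show (26 / 25 - (x + 26 / 25) : ℝ) = - x by ring, Real.cos_neg]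
      rw [this, Real.cos_zero]
      ring
    rw [hI]
    have h1 := cos_le_quartic (x := 26 / 25 - (x + 26 / 25)) (by linarith)
    have h2 := cos_le_quartic hq0
    have h3 := poly hq0 (by linarith)
    have h4 : Real.sin δ ≤ δ := Real.sin_le hδ0
    linarith
  · have hI : ∫ s in x..(x + 26 / 25), |Real.sin s| = Real.cos x - Real.cos (x + 26 / 25) := by
      rw [← integral_sin]
      apply intervalIntegral.integral_congr
      intro s hs
      rw [uIcc_of_le (by linarith)] at hs
      exact abs_of_nonneg (Real.sin_nonneg_of_nonneg_of_le_pi (by linarith [hs.1])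
        (by linarith [hs.2]))
    have e1 : Real.cos x - Real.cos (x + 26 / 25)
        = 2 * Real.sin (13 / 25) * Real.sin (x + 13 / 25) := by
      rw [Real.cos_sub_cos]
      have a1 : (x + (x + 26 / 25)) / 2 = x + 13 / 25 := by ring
      have a2 : (x - (x + 26 / 25)) / 2 = -(13 / 25) := by ring
      rw [a1, a2, Real.sin_neg]
      ring
    have e2 : Real.sin (13 / 25) ≤ Real.sin (x + 13 / 25) := by
      rcases le_total (x + 13 / 25) (Real.pi / 2) with h5 | h5
      · exact Real.sin_le_sin_of_le_of_le_pi_div_two (by linarith) h5 (by linarith)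
      · rw [← Real.sin_pi_sub (x + 13 / 25)]
        exact Real.sin_le_sin_of_le_of_le_pi_div_two (by linarith) (by linarith) (by linarith)
    have e3 := sub_cube_le_sin (x := 13 / 25) (by norm_num)
    have e4 : (496 / 1000 : ℝ) ≤ Real.sin (13 / 25) := by norm_num at e3 ⊢; linarith
    rw [hI, e1]
    have e5 : (496 / 1000 : ℝ) ^ 2 ≤ Real.sin (13 / 25) * Real.sin (x + 13 / 25) := by
      rw [sq]
      exact mul_le_mul e4 (le_trans e4 e2) (by norm_num) (by linarith)
    have e6 := Real.sin_le_one δ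
    nlinarith

end LONG

open LONG in
theorem blk_LONG : Stmt_LONG := by
  intro c T hT t ht
  have hint : ∀ a b : ℝ, IntervalIntegrable (fun s : ℝ => |Real.sin (s - c)|) volume a b := by
    intro a b
    apply Continuous.intervalIntegrable
    fun_prop
  obtain ⟨y, hy0, hyt, hty, hyT⟩ : ∃ y : ℝ, 0 ≤ y ∧ y ≤ t ∧ t ≤ y + 26 / 25 ∧ y + 26 / 25 ≤ T := by
    rcases le_total t (T - 26 / 25) with h | h
    · exact ⟨t, ht.1, le_rfl, by linarith, by linarith⟩
    · exact ⟨T - 26 / 25, by linarith, h, by linarith [ht.2], by linarith⟩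
  have hmono : ∫ s in y..(y + 26 / 25), |Real.sin (s - c)| ≤ ∫ s in (0 : ℝ)..T, |Real.sin (s - c)| := by
    apply intervalIntegral.integral_mono_interval hy0 (by linarith) hyT
    · exact Filter.Eventually.of_forall fun s => abs_nonneg _
    · exact hint _ _
  obtain ⟨z, hz, hz'⟩ : ∃ z : ℝ, |t - z| ≤ Real.pi / 2 ∧ ∀ s : ℝ, |Real.sin (s - c)| = |Real.sin (s - z)| := by
    refine ⟨c + (round ((t - c) / Real.pi) : ℤ) * Real.pi, ?_, fun s => ?_⟩
    · have h1 := abs_sub_round ((t - c) / Real.pi)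
      have hpi := Real.pi_pos
      have h2 : t - (c + (round ((t - c) / Real.pi) : ℤ) * Real.pi)
          = ((t - c) / Real.pi - (round ((t - c) / Real.pi) : ℤ)) * Real.pi := by
        field_simp
        ring
      rw [h2, abs_mul, abs_of_pos hpi]
      calc _ ≤ 1 / 2 * Real.pi := mul_le_mul_of_nonneg_right h1 hpi.le
        _ = _ := by ring
    · rw [← sub_sub, Real.sin_sub_int_mul_pi, abs_mul, abs_neg_one_zpow, one_mul]
  have main : |Real.sin (t - c)| ≤ 123 / 50 * ∫ s in y..(y + 26 / 25), |Real.sin (s - c)| := by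
    rw [hz' t]
    simp only [hz']
    rw [abs_le] at hz
    rcases le_total z t with h | h
    · rw [intervalIntegral.integral_comp_sub_right (fun s => |Real.sin s|)]
      have h1 := claim (δ := t - z) (x := y - z) (by linarith) hz.2 (by linarith) (by linarith)
      have h2 : y + 26 / 25 - z = y - z + 26 / 25 := by ring
      rw [h2, abs_of_nonneg (Real.sin_nonneg_of_nonneg_of_le_pi (by linarith)
        (by linarith [hz.2, Real.pi_pos]))]
      exact h1
    · have h0 : ∀ s : ℝ, |Real.sin (s - z)| = |Real.sin (z - s)| := by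
        intro s
        rw [← neg_sub z s, Real.sin_neg, abs_neg]
      simp only [h0]
      rw [intervalIntegral.integral_comp_sub_left (fun s => |Real.sin s|)]
      have h1 := claim (δ := z - t) (x := z - (y + 26 / 25)) (by linarith) (by linarith [hz.1])
        (by linarith) (by linarith)
      have h2 : z - (y + 26 / 25) + 26 / 25 = z - y := by ring
      rw [h2] at h1
      rw [abs_of_nonneg (Real.sin_nonneg_of_nonneg_of_le_pi (by linarith)
        (by linarith [hz.1, Real.pi_pos]))]
      exact h1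
  refine le_trans main ?_
  exact mul_le_mul_of_nonneg_left hmono (by norm_num)

end Pool.Agent.Work.MP_655153_lb
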