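import Pool.Agent.Work.MP_655153_lb.Interface

/-!
# Assembly: `L ≥ 3.15` from the blocks
-/

open MeasureTheory Set
open scoped ENNReal
open Pool.Agent.Work.MP_655153_co

namespace Pool.Agent.Work.MP_655153_lb

theorem assembly (hARC : Stmt_ARC) (hSEG : Stmt_SEG) (n : ℕ) :
    ENNReal.ofReal 3.15 ≤ detectorConstant n := by
  unfold detectorConstant
  refine le_iInf₂ fun A hA => ?_
  by_cases h : ∑ i, (A i).length = ⊤
  · rw [h]; exact le_top
  · obtain ⟨m, a, e, h1, h2⟩ := hARC n A hA h (1 / 100000) (by norm_num)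
    refine le_trans (ENNReal.ofReal_le_ofReal ?_) h2
    have := hSEG m a e h1
    norm_num at this ⊢
    linarith

end Pool.Agent.Work.MP_655153_lb
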