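import Pool.Agent.Work.MP_655153_lb.Interface

/-! # Elementary estimates used by MAJ1, MAJ2 (helper77) -/

open MeasureTheory Set
open scoped ENNReal

namespace Pool.Agent.Work.MP_655153_lb

lemma maj_sin_lb {t : ℝ} (ht : 0 ≤ t) : t - t ^ 3 / 6 ≤ Real.sin t := by
  have hmono : MonotoneOn (fun x : ℝ => Real.sin x - (x - x ^ 3 / 6)) (Ici 0) := by
    apply monotoneOn_of_deriv_nonneg (convex_Ici 0)
    · fun_prop
    · exact fun x _ => (by fun_prop : DifferentiableAt ℝ _ x).differentiableWithinAt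
    · intro x _
      have h : HasDerivAt (fun x : ℝ => Real.sin x - (x - x ^ 3 / 6))
          (Real.cos x - (1 - x ^ 2 / 2)) x := by
        have h1 := (Real.hasDerivAt_sin x)
        have h2 : HasDerivAt (fun x : ℝ => x - x ^ 3 / 6) (1 - x ^ 2 / 2) x :=
          ((hasDerivAt_id x).sub ((hasDerivAt_pow 3 x).div_const 6)).congr_deriv (by
            norm_num; ring)
        exact h1.sub h2
      rw [h.deriv]
      have := Real.one_sub_sq_div_two_le_cos (x := x)
      linarith
  have h0 := hmono (mem_Ici.2 le_rfl) (mem_Ici.2 ht) ht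
  simp at h0
  linarith

lemma maj_cos_ub {t : ℝ} (ht : 0 ≤ t) : Real.cos t ≤ 1 - t ^ 2 / 2 + t ^ 4 / 24 := by
  have hmono : MonotoneOn (fun x : ℝ => 1 - x ^ 2 / 2 + x ^ 4 / 24 - Real.cos x) (Ici 0) := by
    apply monotoneOn_of_deriv_nonneg (convex_Ici 0)
    · fun_prop
    · exact fun x _ => (by fun_prop : DifferentiableAt ℝ _ x).differentiableWithinAt
    · intro x hx
      rw [interior_Ici] at hx
      have h : HasDerivAt (fun x : ℝ => 1 - x ^ 2 / 2 + x ^ 4 / 24 - Real.cos x)
          (-x + x ^ 3 / 6 + Real.sin x) x := by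
        have h1 := (Real.hasDerivAt_cos x)
        have h2 : HasDerivAt (fun x : ℝ => 1 - x ^ 2 / 2 + x ^ 4 / 24) (-x + x ^ 3 / 6) x :=
          (((hasDerivAt_const x (1:ℝ)).sub ((hasDerivAt_pow 2 x).div_const 2)).add
            ((hasDerivAt_pow 4 x).div_const 24)).congr_deriv (by norm_num; ring)
        exact (h2.sub h1).congr_deriv (by ring)
      rw [h.deriv]
      have := maj_sin_lb (mem_Ioi.1 hx).le
      linarith
  have h0 := hmono (mem_Ici.2 le_rfl) (mem_Ici.2 ht) ht
  simp at h0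
  linarith

/-- A lower integral over `Ioo 0 T` of a continuous nonnegative function. -/
lemma maj_lint {Ψ : ℝ → ℝ} {T : ℝ} (hT : 0 ≤ T) (hc : Continuous Ψ)
    (h0 : ∀ t ∈ Icc 0 T, 0 ≤ Ψ t) :
    ∫⁻ t in Ioo 0 T, ENNReal.ofReal (Ψ t) = ENNReal.ofReal (∫ t in (0 : ℝ)..T, Ψ t) := by
  rw [intervalIntegral.integral_of_le hT, integral_Ioc_eq_integral_Ioo,
    ofReal_integral_eq_lintegral_ofReal]
  · exact (hc.integrableOn_Icc).mono_set Ioo_subset_Icc_self
  · refine (ae_restrict_iff' measurableSet_Ioo).2 (Filter.Eventually.of_forall ?_)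
    intro t ht
    exact h0 t (Ioo_subset_Icc_self ht)

end Pool.Agent.Work.MP_655153_lb
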