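import Pool.Agent.Work.MP_655153_lb.Interface

/-!
# Block PHI2: rescaling of PHI
-/

open MeasureTheory Set
open scoped ENNReal

namespace Pool.Agent.Work.MP_655153_lb

theorem blk_PHI2 (h : Stmt_PHI) : Stmt_PHI2 := by
  intro n a e ε p f hε hC
  rcases eq_or_ne f 0 with rfl | hf
  · have h0 : ∀ v, det 0 v = 0 := by
      intro v
      simp [det]
    simp [h0]
  · have hf' : 0 < ‖f‖ := norm_pos_iff.2 hf
    obtain ⟨θ, hθ⟩ := exists_det_eq f
    have hP := h n a e ε θ (pr θ p) hε hC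
    have h1 : ∀ v, |det f v| = ‖f‖ * |pr θ v| := by
      intro v
      rw [hθ, abs_mul, abs_norm]
    have h2 : ∀ j : Fin n, ∫ t in (0 : ℝ)..1,
        |det f (e j)| * phi (|det f (pt a e j t - p)| / ‖f‖) =
        ‖f‖ * ∫ t in (0 : ℝ)..1, |pr θ (e j)| * phi |pr θ (pt a e j t) - pr θ p| := by
      intro j
      rw [← intervalIntegral.integral_const_mul]
      refine intervalIntegral.integral_congr (fun t _ => ?_)
      change |det f (e j)| * phi (|det f (pt a e j t - p)| / ‖f‖) =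
        ‖f‖ * (|pr θ (e j)| * phi |pr θ (pt a e j t) - pr θ p|)
      rw [h1, h1, mul_div_cancel_left₀ _ hf'.ne', pr_sub, mul_assoc]
    have h3 : ∑ j, |det f (e j)| = ‖f‖ * wid e θ := by
      unfold wid
      rw [Finset.mul_sum]
      exact Finset.sum_congr rfl (fun j _ => h1 (e j))
    rw [Finset.sum_congr rfl (fun j _ => h2 j), ← Finset.mul_sum, h3]
    calc (3 * ‖f‖ - ‖f‖ * wid e θ - 2 * ε * ‖f‖) / 6 = ‖f‖ * ((3 - wid e θ - 2 * ε) / 6) := by ring
      _ ≤ _ := mul_le_mul_of_nonneg_left hP hf'.le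

end Pool.Agent.Work.MP_655153_lb
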